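import Pool.Agent.Q132.IC.Good

set_option autoImplicit false

namespace Pool.Agent.Q132.IC

open Finset

/-- assembling three clusters -/
theorem three (a b c : ℕ) (ha : 1 ≤ a) (hb : 1 ≤ b) (hc : 1 ≤ c) (hab : a ≤ b) (hbc : b ≤ c)
    (hcc : c + 1 ≤ a + b) (AA BB CC AB BC CA : ℕ → ℕ → ℕ)
    (sA : ∀ x y, x < a → y < a → x ≠ y → AA x y = AA y x)
    (sB : ∀ x y, x < b → y < b → x ≠ y → BB x y = BB y x)
    (sC : ∀ x y, x < c → y < c → x ≠ y → CC x y = CC y x)
    (rA : ∀ x y, x < a → y < a → x ≠ y → 2 * a + 2 * b + c - 2 ≤ AA x y ∧ AA x y < 3 * a + 2 * b + c - 3)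
    (rB : ∀ x y, x < b → y < b → x ≠ y → BB x y < a + b - 1)
    (rC : ∀ x y, x < c → y < c → x ≠ y → a + b - 1 ≤ CC x y ∧ CC x y < 2 * a + 2 * b + c - 2)
    (rAB : ∀ x y, x < a → y < b → AB x y < b)
    (rBC : ∀ x y, x < b → y < c → a + b - 1 ≤ BC x y ∧ BC x y < a + b - 1 + c)
    (rCA : ∀ x y, x < c → y < a → 2 * a + 2 * b - 2 ≤ CA x y ∧ CA x y < 2 * a + 2 * b - 2 + c)
    (iA : ∀ x y z, x < a → y < a → z < a → x ≠ y → x ≠ z → AA x y = AA x z → y = z)
    (iB : ∀ x y z, x < b → y < b → z < b → x ≠ y → x ≠ z → BB x y = BB x z → y = z)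
    (iC : ∀ x y z, x < c → y < c → z < c → x ≠ y → x ≠ z → CC x y = CC x z → y = z)
    (iAB : ∀ x y z, x < a → y < b → z < b → AB x y = AB x z → y = z)
    (iAB' : ∀ x y z, x < a → y < a → z < b → AB x z = AB y z → x = y)
    (iBC : ∀ x y z, x < b → y < c → z < c → BC x y = BC x z → y = z)
    (iBC' : ∀ x y z, x < b → y < b → z < c → BC x z = BC y z → x = y)
    (iCA : ∀ x y z, x < c → y < a → z < a → CA x y = CA x z → y = z)
    (iCA' : ∀ x y z, x < c → y < c → z < a → CA x z = CA y z → x = y)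
    (xB : ∀ x y z, x < a → y < b → z < b → y ≠ z → AB x y ≠ BB y z)
    (xC : ∀ x y z, x < b → y < c → z < c → y ≠ z → BC x y ≠ CC y z)
    (xC' : ∀ x y z, x < a → y < c → z < c → y ≠ z → CA y x ≠ CC y z) :
    ∃ s col I, Good (Fin a ⊕ (Fin b ⊕ Fin c)) (a + b + c - 1) (3 * a + 2 * b + c - 3) s col I ∧
      I.card ≤ b + 2 * c := by
  classical
  refine ⟨fun v => match v with
      | Sum.inl _ => 2 * a + 2 * b - 2
      | Sum.inr (Sum.inl _) => 0
      | Sum.inr (Sum.inr _) => a + b - 1,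
    fun v w => match v, w with
      | Sum.inl x, Sum.inl y => AA x y
      | Sum.inl x, Sum.inr (Sum.inl y) => AB x y
      | Sum.inl x, Sum.inr (Sum.inr y) => CA y x
      | Sum.inr (Sum.inl x), Sum.inl y => AB y x
      | Sum.inr (Sum.inl x), Sum.inr (Sum.inl y) => BB x y
      | Sum.inr (Sum.inl x), Sum.inr (Sum.inr y) => BC x y
      | Sum.inr (Sum.inr x), Sum.inl y => CA x y
      | Sum.inr (Sum.inr x), Sum.inr (Sum.inl y) => BC y x
      | Sum.inr (Sum.inr x), Sum.inr (Sum.inr y) => CC x y,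
    range b ∪ (Ico (a + b - 1) (a + b - 1 + c) ∪ Ico (2 * a + 2 * b - 2) (2 * a + 2 * b - 2 + c)),
    ?_, ?_⟩
  · refine ⟨?_, ?_, ?_, ?_, ?_, ?_, ?_⟩
    · rintro (x | x | x) <;> simp only [] <;> omega
    · rintro (⟨x, hx⟩ | ⟨x, hx⟩ | ⟨x, hx⟩) (⟨y, hy⟩ | ⟨y, hy⟩ | ⟨y, hy⟩) hne <;>
        simp only [ne_eq, Sum.inl.injEq, Sum.inr.injEq, Fin.mk.injEq, reduceCtorEq, not_false_eq_true] at hne ⊢
      · have := rA x y hx hy hne; omega
      · have := rAB x y hx hy; omega
      · have := rCA y x hy hx; omega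
      · have := rAB y x hy hx; omega
      · have := rB x y hx hy hne; omega
      · have := rBC x y hx hy; omega
      · have := rCA x y hx hy; omega
      · have := rBC y x hy hx; omega
      · have := rC x y hx hy hne; omega
    · rintro (⟨x, hx⟩ | ⟨x, hx⟩ | ⟨x, hx⟩) (⟨y, hy⟩ | ⟨y, hy⟩ | ⟨y, hy⟩) hne <;>
        simp only [ne_eq, Sum.inl.injEq, Sum.inr.injEq, Fin.mk.injEq, reduceCtorEq, not_false_eq_true] at hne ⊢
      · exact sA x y hx hy hne
      · exact sB x y hx hy hne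
      · exact sC x y hx hy hne
    · rintro (⟨x, hx⟩ | ⟨x, hx⟩ | ⟨x, hx⟩) (⟨y, hy⟩ | ⟨y, hy⟩ | ⟨y, hy⟩) hne <;>
        simp only [ne_eq, Sum.inl.injEq, Sum.inr.injEq, Fin.mk.injEq, reduceCtorEq, not_false_eq_true, inArc] at hne ⊢
      · have := rA x y hx hy hne; omega
      · have := rAB x y hx hy; omega
      · have := rCA y x hy hx; omega
      · have := rAB y x hy hx; omega
      · have := rB x y hx hy hne; omega
      · have := rBC x y hx hy; omega
      · have := rCA x y hx hy; omega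
      · have := rBC y x hy hx; omega
      · have := rC x y hx hy hne; omega
    · rintro (⟨x, hx⟩ | ⟨x, hx⟩ | ⟨x, hx⟩) (⟨y, hy⟩ | ⟨y, hy⟩ | ⟨y, hy⟩) (⟨z, hz⟩ | ⟨z, hz⟩ | ⟨z, hz⟩) h1 h2 he <;>
        simp only [ne_eq, Sum.inl.injEq, Sum.inr.injEq, Fin.mk.injEq, reduceCtorEq, not_false_eq_true] at h1 h2 he ⊢
      -- vertex in A
      · exact iA x y z hx hy hz h1 h2 he
      · have h3 := rA x y hx hy h1; have h4 := rAB x z hx hz; omega
      · have h3 := rA x y hx hy h1; have h4 := rCA z x hz hx; omega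
      · have h3 := rA x z hx hz h2; have h4 := rAB x y hx hy; omega
      · exact iAB x y z hx hy hz he
      · have h3 := rAB x y hx hy; have h4 := rCA z x hz hx; omega
      · have h3 := rA x z hx hz h2; have h4 := rCA y x hy hx; omega
      · have h3 := rAB x z hx hz; have h4 := rCA y x hy hx; omega
      · exact iCA' y z x hy hz hx he
      -- vertex in B
      · exact iAB' y z x hy hz hx he
      · exact xB y x z hy hx hz h2 he
      · have h3 := rAB y x hy hx; have h4 := rBC x z hx hz; omega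
      · exact xB z x y hz hx hy h1 he.symm
      · exact iB x y z hx hy hz h1 h2 he
      · have h3 := rB x y hx hy h1; have h4 := rBC x z hx hz; omega
      · have h3 := rAB z x hz hx; have h4 := rBC x y hx hy; omega
      · have h3 := rB x z hx hz h2; have h4 := rBC x y hx hy; omega
      · exact iBC x y z hx hy hz he
      -- vertex in C
      · exact iCA x y z hx hy hz he
      · have h3 := rCA x y hx hy; have h4 := rBC z x hz hx; omega
      · exact xC' y x z hy hx hz h2 he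
      · have h3 := rCA x z hx hz; have h4 := rBC y x hy hx; omega
      · exact iBC' y z x hy hz hx he
      · exact xC y x z hy hx hz h2 he
      · exact xC' z x y hz hx hy h1 he.symm
      · exact xC z x y hz hx hy h1 he.symm
      · exact iC x y z hx hy hz h1 h2 he
    · intro t ht
      by_cases h1 : t < a + b + c - 1
      · exact ⟨Sum.inr (Sum.inl ⟨0, hb⟩), by simp only [inArc]; omega⟩
      · by_cases h2 : t < 2 * a + 2 * b + c - 2
        · exact ⟨Sum.inr (Sum.inr ⟨0, hc⟩), by simp only [inArc]; omega⟩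
        · exact ⟨Sum.inl ⟨0, ha⟩, by simp only [inArc]; omega⟩
    · rintro (⟨x, hx⟩ | ⟨x, hx⟩ | ⟨x, hx⟩) (⟨y, hy⟩ | ⟨y, hy⟩ | ⟨y, hy⟩) hne hI <;>
        simp only [ne_eq, Sum.inl.injEq, Sum.inr.injEq, Fin.mk.injEq, reduceCtorEq, not_false_eq_true,
          mem_union, mem_range, mem_Ico] at hne hI ⊢
      · have := rAB x y hx hy; omega
      · have := rCA y x hy hx; omega
      · have := rAB y x hy hx; omega
      · have := rBC x y hx hy; omega
      · have := rCA x y hx hy; omega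
      · have := rBC y x hy hx; omega
  · refine (card_union_le _ _).trans ?_
    have := card_union_le (Ico (a + b - 1) (a + b - 1 + c))
      (Ico (2 * a + 2 * b - 2) (2 * a + 2 * b - 2 + c))
    rw [Nat.card_Ico, Nat.card_Ico] at this
    rw [card_range]
    omega

/-- assembling two clusters -/
theorem two (a b : ℕ) (ha : 1 ≤ a) (hb : 1 ≤ b) (hab : a ≤ b)
    (AA BB AB : ℕ → ℕ → ℕ)
    (sA : ∀ x y, x < a → y < a → x ≠ y → AA x y = AA y x)
    (sB : ∀ x y, x < b → y < b → x ≠ y → BB x y = BB y x)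
    (rA : ∀ x y, x < a → y < a → x ≠ y → a + b - 1 ≤ AA x y ∧ AA x y < 2 * a + b - 2)
    (rB : ∀ x y, x < b → y < b → x ≠ y → BB x y < a + b - 1)
    (rAB : ∀ x y, x < a → y < b → AB x y < b)
    (iA : ∀ x y z, x < a → y < a → z < a → x ≠ y → x ≠ z → AA x y = AA x z → y = z)
    (iB : ∀ x y z, x < b → y < b → z < b → x ≠ y → x ≠ z → BB x y = BB x z → y = z)
    (iAB : ∀ x y z, x < a → y < b → z < b → AB x y = AB x z → y = z)
    (iAB' : ∀ x y z, x < a → y < a → z < b → AB x z = AB y z → x = y)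
    (xB : ∀ x y z, x < a → y < b → z < b → y ≠ z → AB x y ≠ BB y z) :
    ∃ s col I, Good (Fin a ⊕ Fin b) (a + b - 1) (2 * a + b - 2) s col I ∧
      I.card ≤ b := by
  classical
  refine ⟨fun v => match v with
      | Sum.inl _ => if a = 1 then 0 else a + b - 1
      | Sum.inr _ => 0,
    fun v w => match v, w with
      | Sum.inl x, Sum.inl y => AA x y
      | Sum.inl x, Sum.inr y => AB x y
      | Sum.inr x, Sum.inl y => AB y x
      | Sum.inr x, Sum.inr y => BB x y,
    range b, ?_, ?_⟩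
  · refine ⟨?_, ?_, ?_, ?_, ?_, ?_, ?_⟩
    · rintro (x | x) <;> simp only [] <;> (try split_ifs) <;> omega
    · rintro (⟨x, hx⟩ | ⟨x, hx⟩) (⟨y, hy⟩ | ⟨y, hy⟩) hne <;>
        simp only [ne_eq, Sum.inl.injEq, Sum.inr.injEq, Fin.mk.injEq, reduceCtorEq, not_false_eq_true] at hne ⊢
      · have := rA x y hx hy hne; omega
      · have := rAB x y hx hy; omega
      · have := rAB y x hy hx; omega
      · have := rB x y hx hy hne; omega
    · rintro (⟨x, hx⟩ | ⟨x, hx⟩) (⟨y, hy⟩ | ⟨y, hy⟩) hne <;>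
        simp only [ne_eq, Sum.inl.injEq, Sum.inr.injEq, Fin.mk.injEq, reduceCtorEq, not_false_eq_true] at hne ⊢
      · exact sA x y hx hy hne
      · exact sB x y hx hy hne
    · rintro (⟨x, hx⟩ | ⟨x, hx⟩) (⟨y, hy⟩ | ⟨y, hy⟩) hne <;>
        simp only [ne_eq, Sum.inl.injEq, Sum.inr.injEq, Fin.mk.injEq, reduceCtorEq, not_false_eq_true, inArc] at hne ⊢
      · have := rA x y hx hy hne; split_ifs <;> omega
      · have := rAB x y hx hy; split_ifs <;> omega
      · have := rAB y x hy hx; omega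
      · have := rB x y hx hy hne; omega
    · rintro (⟨x, hx⟩ | ⟨x, hx⟩) (⟨y, hy⟩ | ⟨y, hy⟩) (⟨z, hz⟩ | ⟨z, hz⟩) h1 h2 he <;>
        simp only [ne_eq, Sum.inl.injEq, Sum.inr.injEq, Fin.mk.injEq, reduceCtorEq, not_false_eq_true] at h1 h2 he ⊢
      · exact iA x y z hx hy hz h1 h2 he
      · have h3 := rA x y hx hy h1; have h4 := rAB x z hx hz; omega
      · have h3 := rA x z hx hz h2; have h4 := rAB x y hx hy; omega
      · exact iAB x y z hx hy hz he
      · exact iAB' y z x hy hz hx he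
      · exact xB y x z hy hx hz h2 he
      · exact xB z x y hz hx hy h1 he.symm
      · exact iB x y z hx hy hz h1 h2 he
    · intro t ht
      by_cases h1 : t < a + b - 1
      · exact ⟨Sum.inr ⟨0, hb⟩, by simp only [inArc]; omega⟩
      · exact ⟨Sum.inl ⟨0, ha⟩, by simp only [inArc]; split_ifs <;> omega⟩
    · rintro (⟨x, hx⟩ | ⟨x, hx⟩) (⟨y, hy⟩ | ⟨y, hy⟩) hne hI <;>
        simp only [ne_eq, Sum.inl.injEq, Sum.inr.injEq, Fin.mk.injEq, reduceCtorEq, not_false_eq_true,
          mem_range] at hne hI ⊢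
      · have := rAB x y hx hy; omega
      · have := rAB y x hy hx; omega
  · rw [card_range]

end Pool.Agent.Q132.IC
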