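import Mathlib

set_option autoImplicit false

namespace Pool.Agent.Q132.IC

open Finset

/-- A downward closed nonempty predicate on the integers that is bounded above is `· ≤ f`. -/
theorem exists_cut (P : ℤ → Prop) (hd : ∀ x y, x ≤ y → P y → P x) (x0 x1 : ℤ) (h0 : P x0)
    (h1 : ¬ P x1) : ∃ f : ℤ, ∀ x, P x ↔ x ≤ f := by
  classical
  have hb : ∀ z, P z → z ≤ x1 := by
    intro z hz
    by_contra hc
    exact h1 (hd x1 z (by omega) hz)
  obtain ⟨f, hf, hmax⟩ := Int.exists_greatest_of_bdd ⟨x1, hb⟩ ⟨x0, h0⟩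
  exact ⟨f, fun x => ⟨fun h => hmax x h, fun h => hd x f h hf⟩⟩

/-- Partial sums over the integers. -/
theorem exists_sum (A : ℤ → ℤ) : ∃ S : ℤ → ℤ, ∀ j, S j = S (j - 1) + A j := by
  refine ⟨fun j => ∑ i ∈ range j.toNat, A (i + 1) - ∑ i ∈ range (-j).toNat, A (-(i : ℤ)), ?_⟩
  intro j
  rcases lt_or_ge 0 j with h | h
  · have e1 : j.toNat = (j - 1).toNat + 1 := by omega
    have e2 : (-j).toNat = 0 := by omega
    have e3 : (-(j - 1)).toNat = 0 := by omega
    simp only [e1, e2, e3, sum_range_succ, range_zero, sum_empty]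
    have e4 : (((j - 1).toNat : ℕ) : ℤ) + 1 = j := by omega
    rw [e4]
    ring
  · have e1 : j.toNat = 0 := by omega
    have e2 : (j - 1).toNat = 0 := by omega
    have e3 : (-(j - 1)).toNat = (-j).toNat + 1 := by omega
    simp only [e1, e2, e3, sum_range_succ, range_zero, sum_empty]
    have e4 : -(((-j).toNat : ℕ) : ℤ) = j := by omega
    rw [e4]
    ring

theorem sum_up (S A : ℤ → ℤ) (h : ∀ j, S j = S (j - 1) + A j) (k : ℤ) (Y : ℕ) :
    ∑ y ∈ range Y, A (k + 1 + y) = S (k + Y) - S k := by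
  induction Y with
  | zero => simp
  | succ Y ih =>
    rw [sum_range_succ, ih]
    have := h (k + 1 + Y)
    have e : k + 1 + (Y : ℤ) - 1 = k + Y := by ring
    rw [e] at this
    push_cast
    rw [show k + ((Y : ℤ) + 1) = k + 1 + Y by ring]
    linarith

theorem sum_down (S A : ℤ → ℤ) (h : ∀ j, S j = S (j - 1) + A j) (k : ℤ) (Y : ℕ) :
    ∑ y ∈ range Y, A (k - y) = S k - S (k - Y) := by
  induction Y with
  | zero => simp
  | succ Y ih =>
    rw [sum_range_succ, ih]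
    have := h (k - Y)
    push_cast
    rw [show k - ((Y : ℤ) + 1) = k - Y - 1 by ring]
    linarith

/-- elements of a finite set of integers at least `k`: one of them is large -/
theorem exists_large (S : Finset ℤ) (k : ℤ) (h : ∀ x ∈ S, k ≤ x) (y : ℕ) (hy : y < S.card) :
    ∃ x ∈ S, k + y ≤ x := by
  by_contra hc
  push Not at hc
  have : S ⊆ Ico k (k + y) := fun x hx => mem_Ico.2 ⟨h x hx, hc x hx⟩
  have := card_le_card this
  rw [Int.card_Ico] at this
  omega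

theorem exists_small (S : Finset ℤ) (k : ℤ) (h : ∀ x ∈ S, x ≤ k) (y : ℕ) (hy : y < S.card) :
    ∃ x ∈ S, x ≤ k - y := by
  by_contra hc
  push Not at hc
  have : S ⊆ Ioc (k - y) k := fun x hx => mem_Ioc.2 ⟨hc x hx, h x hx⟩
  have := card_le_card this
  rw [Int.card_Ioc] at this
  omega

/-- The number of edges across a cut, counted by colours. -/
theorem colour_bound (k k' : ℤ) (Y : ℕ) (E : Finset (ℤ × ℤ)) (τ : ℤ → ℤ → ℤ) (b e : ℤ → ℤ)
    (hb : Monotone b) (he : Monotone e)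
    (hE : ∀ p ∈ E, p.1 ≤ k ∧ k' ≤ p.2 ∧ b p.2 ≤ τ p.1 p.2 ∧ τ p.1 p.2 < e p.1)
    (h1 : ∀ p ∈ E, ∀ q ∈ E, p.1 = q.1 → τ p.1 p.2 = τ q.1 q.2 → p.2 = q.2)
    (h2 : ∀ p ∈ E, ∀ q ∈ E, p.2 = q.2 → τ p.1 p.2 = τ q.1 q.2 → p.1 = q.1)
    (hY : ∀ y : ℕ, Y ≤ y → e (k - y) ≤ b (k' + y))
    (hY' : ∀ y : ℕ, y < Y → b (k' + y) ≤ e (k - y)) :
    (E.card : ℤ) ≤ ∑ y ∈ range Y, (e (k - y) - b (k' + y)) := by
  classical
  set C := E.image (fun p => τ p.1 p.2) with hC
  have hcard : E.card = ∑ c ∈ C, (E.filter (fun p => τ p.1 p.2 = c)).card :=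
    card_eq_sum_card_image (fun p : ℤ × ℤ => τ p.1 p.2) E
  have hc : ∀ c ∈ C, (E.filter (fun p => τ p.1 p.2 = c)).card ≤
      ((range Y).filter (fun y : ℕ => b (k' + y) ≤ c ∧ c < e (k - y))).card := by
    intro c _
    set Ec := E.filter (fun p => τ p.1 p.2 = c) with hEc
    have c1 : (Ec.image Prod.snd).card = Ec.card := by
      apply card_image_of_injOn
      intro p hp q hq hpq
      rw [mem_coe, hEc, mem_filter] at hp hq
      exact Prod.ext (h2 p hp.1 q hq.1 hpq (hp.2.trans hq.2.symm)) hpq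
    have c2 : (Ec.image Prod.fst).card = Ec.card := by
      apply card_image_of_injOn
      intro p hp q hq hpq
      rw [mem_coe, hEc, mem_filter] at hp hq
      exact Prod.ext hpq (h1 p hp.1 q hq.1 hpq (hp.2.trans hq.2.symm))
    rw [← card_range Ec.card]
    apply card_le_card
    intro y hy
    rw [mem_range] at hy
    have d1 : b (k' + y) ≤ c := by
      obtain ⟨x, hx, hxy⟩ := exists_large (Ec.image Prod.snd) k' (by
        intro x hx
        rw [mem_image] at hx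
        obtain ⟨p, hp, rfl⟩ := hx
        rw [hEc, mem_filter] at hp
        exact (hE p hp.1).2.1) y (by rw [c1]; exact hy)
      rw [mem_image] at hx
      obtain ⟨p, hp, rfl⟩ := hx
      rw [hEc, mem_filter] at hp
      exact (hb hxy).trans (hp.2 ▸ (hE p hp.1).2.2.1)
    have d2 : c < e (k - y) := by
      obtain ⟨x, hx, hxy⟩ := exists_small (Ec.image Prod.fst) k (by
        intro x hx
        rw [mem_image] at hx
        obtain ⟨p, hp, rfl⟩ := hx
        rw [hEc, mem_filter] at hp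
        exact (hE p hp.1).1) y (by rw [c2]; exact hy)
      rw [mem_image] at hx
      obtain ⟨p, hp, rfl⟩ := hx
      rw [hEc, mem_filter] at hp
      exact lt_of_lt_of_le (hp.2 ▸ (hE p hp.1).2.2.2) (he hxy)
    rw [mem_filter, mem_range]
    refine ⟨?_, d1, d2⟩
    by_contra hyY
    have := hY y (by omega)
    omega
  have hsum : E.card ≤ ∑ y ∈ range Y, (C.filter (fun c => b (k' + y) ≤ c ∧ c < e (k - y))).card := by
    rw [hcard]
    refine (sum_le_sum hc).trans ?_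
    simp only [card_filter]
    rw [sum_comm]
  have : (E.card : ℤ) ≤ ∑ y ∈ range Y,
      ((C.filter (fun c => b (k' + (y : ℕ)) ≤ c ∧ c < e (k - (y : ℕ)))).card : ℤ) := by
    exact_mod_cast hsum
  refine this.trans (sum_le_sum fun y hy => ?_)
  have h3 : C.filter (fun c => b (k' + y) ≤ c ∧ c < e (k - y)) ⊆ Ico (b (k' + y)) (e (k - y)) := by
    intro c hc
    rw [mem_filter] at hc
    exact mem_Ico.2 hc.2
  have h4 := card_le_card h3
  rw [Int.card_Ico] at h4
  have h5 := hY' y (mem_range.1 hy)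
  omega

/-- Lower bound for the number of edges across a cut. -/
theorem corner_count (k k' : ℤ) (Y : ℕ) (r s : ℕ → ℕ) :
    ∃ E : Finset (ℤ × ℤ), (∀ p ∈ E, ∃ y z : ℕ, y < Y ∧
      ((z < r y ∧ p = (k - y, k' + z)) ∨ (z < s y ∧ p = (k - z, k' + y)))) ∧
      (∑ y ∈ range Y, (r y : ℤ)) + ∑ y ∈ range Y, (s y : ℤ) - (Y : ℤ) ^ 2 ≤ E.card := by
  classical
  set U1 : Finset (ℤ × ℤ) := ((range Y).sigma (fun y => range (r y))).image
    (fun p => (k - (p.1 : ℤ), k' + (p.2 : ℤ))) with hU1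
  set U2 : Finset (ℤ × ℤ) := ((range Y).sigma (fun y => range (s y))).image
    (fun p => (k - (p.2 : ℤ), k' + (p.1 : ℤ))) with hU2
  have c1 : U1.card = ∑ y ∈ range Y, r y := by
    rw [hU1, card_image_of_injOn, card_sigma]
    · simp
    · rintro ⟨y, z⟩ _ ⟨y', z'⟩ _ h
      simp only [Prod.mk.injEq] at h
      have h1 : y = y' := by omega
      have h2 : z = z' := by omega
      subst h1; subst h2; rfl
  have c2 : U2.card = ∑ y ∈ range Y, s y := by
    rw [hU2, card_image_of_injOn, card_sigma]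
    · simp
    · rintro ⟨y, z⟩ _ ⟨y', z'⟩ _ h
      simp only [Prod.mk.injEq] at h
      have h1 : y = y' := by omega
      have h2 : z = z' := by omega
      subst h1; subst h2; rfl
  have c3 : (U1 ∩ U2).card ≤ Y ^ 2 := by
    have hsub : U1 ∩ U2 ⊆ (range Y ×ˢ range Y).image
        (fun p : ℕ × ℕ => (k - (p.1 : ℤ), k' + (p.2 : ℤ))) := by
      intro p hp
      rw [mem_inter, hU1, hU2, mem_image, mem_image] at hp
      obtain ⟨⟨⟨y, z⟩, hy, rfl⟩, ⟨⟨y', z'⟩, hy', h⟩⟩ := hp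
      simp only [mem_sigma, mem_range] at hy hy'
      simp only [Prod.mk.injEq] at h
      rw [mem_image]
      refine ⟨(y, z), ?_, rfl⟩
      rw [mem_product, mem_range, mem_range]
      omega
    refine (card_le_card hsub).trans (card_image_le.trans ?_)
    rw [card_product, card_range]
    exact le_of_eq (by ring)
  refine ⟨U1 ∪ U2, ?_, ?_⟩
  · intro p hp
    rw [mem_union, hU1, hU2, mem_image, mem_image] at hp
    rcases hp with ⟨⟨y, z⟩, hy, rfl⟩ | ⟨⟨y, z⟩, hy, rfl⟩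
    · simp only [mem_sigma, mem_range] at hy
      exact ⟨y, z, hy.1, Or.inl ⟨hy.2, rfl⟩⟩
    · simp only [mem_sigma, mem_range] at hy
      exact ⟨y, z, hy.1, Or.inr ⟨hy.2, rfl⟩⟩
  · have h := card_union_add_card_inter U1 U2
    rw [c1, c2] at h
    have h' : ((U1 ∪ U2).card : ℤ) + (U1 ∩ U2).card =
        (∑ y ∈ range Y, (r y : ℤ)) + ∑ y ∈ range Y, (s y : ℤ) := by
      exact_mod_cast h
    have h'' : ((U1 ∩ U2).card : ℤ) ≤ (Y : ℤ) ^ 2 := by exact_mod_cast c3
    linarith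

/-- The cut inequality. -/
theorem cut (k k' : ℤ) (Y : ℕ) (r s : ℕ → ℕ) (P : ℤ → ℤ → Prop) (τ : ℤ → ℤ → ℤ) (b e : ℤ → ℤ)
    (hb : Monotone b) (he : Monotone e)
    (hr : ∀ y z : ℕ, y < Y → z < r y → P (k - y) (k' + z))
    (hs : ∀ y z : ℕ, y < Y → z < s y → P (k - z) (k' + y))
    (hP : ∀ u l, P u l → b l ≤ τ u l ∧ τ u l < e u)
    (h1 : ∀ u l l', P u l → P u l' → τ u l = τ u l' → l = l')
    (h2 : ∀ u u' l, P u l → P u' l → τ u l = τ u' l → u = u')
    (hY : ∀ y : ℕ, Y ≤ y → e (k - y) ≤ b (k' + y))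
    (hY' : ∀ y : ℕ, y < Y → b (k' + y) ≤ e (k - y)) :
    (∑ y ∈ range Y, (r y : ℤ)) + ∑ y ∈ range Y, (s y : ℤ) - (Y : ℤ) ^ 2 ≤
      ∑ y ∈ range Y, (e (k - y) - b (k' + y)) := by
  obtain ⟨E, hE, hcard⟩ := corner_count k k' Y r s
  refine hcard.trans (colour_bound k k' Y E τ b e hb he ?_ ?_ ?_ hY hY')
  · intro p hp
    obtain ⟨y, z, hy, ⟨hz, rfl⟩ | ⟨hz, rfl⟩⟩ := hE p hp
    · have := hP _ _ (hr y z hy hz)
      exact ⟨by simp, by simp, this.1, this.2⟩
    · have := hP _ _ (hs y z hy hz)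
      exact ⟨by simp, by simp, this.1, this.2⟩
  · intro p hp q hq hpq hτ
    have hPp : P p.1 p.2 := by
      obtain ⟨y, z, hy, ⟨hz, rfl⟩ | ⟨hz, rfl⟩⟩ := hE p hp
      · exact hr y z hy hz
      · exact hs y z hy hz
    have hPq : P q.1 q.2 := by
      obtain ⟨y, z, hy, ⟨hz, rfl⟩ | ⟨hz, rfl⟩⟩ := hE q hq
      · exact hr y z hy hz
      · exact hs y z hy hz
    rw [← hpq] at hPq hτ
    exact h1 _ _ _ hPp hPq hτ
  · intro p hp q hq hpq hτ
    have hPp : P p.1 p.2 := by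
      obtain ⟨y, z, hy, ⟨hz, rfl⟩ | ⟨hz, rfl⟩⟩ := hE p hp
      · exact hr y z hy hz
      · exact hs y z hy hz
    have hPq : P q.1 q.2 := by
      obtain ⟨y, z, hy, ⟨hz, rfl⟩ | ⟨hz, rfl⟩⟩ := hE q hq
      · exact hr y z hy hz
      · exact hs y z hy hz
    rw [← hpq] at hPq hτ
    exact h2 _ _ _ hPp hPq hτ

end Pool.Agent.Q132.IC
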