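import Mathlib

set_option autoImplicit false

namespace Pool.Agent.Q132.IC

/-- `α` is an interval cyclic `t`-coloring of `G`: a proper edge-coloring with colors `1,…,t`, every
color being used, such that at each vertex `v` the colors, read modulo `t`, are
`a, a+1, …, a + deg v - 1` for some residue `a`. -/
structure IsIntervalCyclic {V : Type} (G : SimpleGraph V) (t : ℕ) (α : Sym2 V → ℕ) : Prop where
  range : ∀ e ∈ G.edgeSet, 1 ≤ α e ∧ α e ≤ t
  used : ∀ c, 1 ≤ c → c ≤ t → ∃ e ∈ G.edgeSet, α e = c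
  proper : ∀ v w w', G.Adj v w → G.Adj v w' → w ≠ w' → α s(v, w) ≠ α s(v, w')
  arc : ∀ v, ∃ a : ZMod t, {x : ZMod t | ∃ w, G.Adj v w ∧ x = (α s(v, w) : ZMod t)} =
    {x : ZMod t | ∃ i : ℕ, i < Nat.card (G.neighborSet v) ∧ x = a + (i : ZMod t)}

/-- The feasible set of `G`. -/
def F {V : Type} (G : SimpleGraph V) : Set ℕ :=
  {t | 0 < t ∧ ∃ α : Sym2 V → ℕ, IsIntervalCyclic G t α}

/-- A set of natural numbers is gap-free. -/
def GapFree (S : Set ℕ) : Prop := ∀ a b c, a ∈ S → c ∈ S → a < b → b < c → b ∈ S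

/-- The `n`-dimensional hypercube. -/
def hypercube (n : ℕ) : SimpleGraph (Fin n → Bool) where
  Adj x y := ∃! i, x i ≠ y i
  symm := ⟨fun x y ⟨i, hi, hu⟩ => ⟨i, fun h => hi h.symm, fun j hj => hu j fun h => hj h.symm⟩⟩
  loopless := ⟨fun x ⟨i, hi, _⟩ => hi rfl⟩

/-- integer lift of an interval cyclic coloring: `c v w` is the colour of the edge `vw` seen from
`v`, in the window `[a v, a v + D v)`. -/
structure Arc {V : Type} (G : SimpleGraph V) (D : V → ℕ) (T : ℕ) (a : V → ℤ) (c : V → V → ℤ) :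
    Prop where
  pos : 0 < T
  deg : ∀ v, D v ≤ T
  lo : ∀ v w, G.Adj v w → a v ≤ c v w
  hi : ∀ v w, G.Adj v w → c v w < a v + D v
  inj : ∀ v w w', G.Adj v w → G.Adj v w' → c v w = c v w' → w = w'
  sym : ∀ v w, G.Adj v w → (T : ℤ) ∣ c v w - c w v
  surj : ∀ z : ℤ, ∃ v w, G.Adj v w ∧ (T : ℤ) ∣ c v w - z

theorem arc_of_mem {V : Type} [Finite V] {G : SimpleGraph V} {D : V → ℕ}
    (hD : ∀ v, Nat.card (G.neighborSet v) = D v) {t : ℕ} (ht : t ∈ F G) :
    ∃ a c, Arc G D t a c := by
  classical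
  obtain ⟨tpos, α, hα⟩ := ht
  haveI : NeZero t := ⟨by omega⟩
  choose a' ha' using hα.arc
  have hi : ∀ v w, G.Adj v w → ∃ i : ℕ, i < D v ∧ ((α s(v, w) : ℕ) : ZMod t) = a' v + (i : ZMod t) := by
    intro v w hvw
    have : ((α s(v, w) : ℕ) : ZMod t) ∈
        {x : ZMod t | ∃ w, G.Adj v w ∧ x = (α s(v, w) : ZMod t)} := ⟨w, hvw, rfl⟩
    rw [ha' v] at this
    obtain ⟨i, h1, h2⟩ := this
    exact ⟨i, by rw [← hD]; exact h1, h2⟩
  choose! i hi1 hi2 using hi
  have cast : ∀ v w, G.Adj v w →
      ((((a' v).val : ℤ) + (i v w : ℤ) : ℤ) : ZMod t) = ((α s(v, w) : ℕ) : ZMod t) := by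
    intro v w h
    rw [hi2 v w h]
    push_cast
    rw [ZMod.natCast_zmod_val]
  have eqc : ∀ x y : ℕ, 1 ≤ x → x ≤ t → 1 ≤ y → y ≤ t → ((x : ℕ) : ZMod t) = (y : ZMod t) →
      x = y := by
    intro x y h1 h2 h3 h4 h
    have h' : (((x : ℤ)) : ZMod t) = ((y : ℤ) : ZMod t) := by push_cast; exact h
    rw [ZMod.intCast_eq_intCast_iff_dvd_sub] at h'
    obtain ⟨k, hk⟩ := h'
    have k1 : -1 < k := by
      by_contra hc
      have : k ≤ -1 := by omega
      nlinarith
    have k2 : k < 1 := by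
      by_contra hc
      have : 1 ≤ k := by omega
      nlinarith
    have : k = 0 := by omega
    rw [this] at hk
    omega
  refine ⟨fun v => ((a' v).val : ℤ), fun v w => ((a' v).val : ℤ) + (i v w : ℤ), tpos, ?_, ?_, ?_,
    ?_, ?_, ?_⟩
  · intro v
    rw [← hD]
    have hinj : Function.Injective (fun w : G.neighborSet v =>
        (⟨α s(v, w.1) - 1, by
          have := hα.range s(v, w.1) w.2
          omega⟩ : Fin t)) := by
      rintro ⟨w, hw⟩ ⟨w', hw'⟩ h
      simp only [Fin.mk.injEq] at h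
      have h1 := hα.range s(v, w) hw
      have h2 := hα.range s(v, w') hw'
      by_contra hne
      exact hα.proper v w w' hw hw' (fun h => hne (Subtype.ext h)) (by omega)
    have := Nat.card_le_card_of_injective _ hinj
    simpa using this
  · intro v w h
    show ((a' v).val : ℤ) ≤ ((a' v).val : ℤ) + (i v w : ℤ)
    omega
  · intro v w h
    have := hi1 v w h
    show ((a' v).val : ℤ) + (i v w : ℤ) < ((a' v).val : ℤ) + (D v : ℤ)
    omega
  · intro v w w' h h' he
    have h1 := hα.range s(v, w) h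
    have h2 := hα.range s(v, w') h'
    by_contra hne
    refine hα.proper v w w' h h' hne (eqc _ _ h1.1 h1.2 h2.1 h2.2 ?_)
    rw [← cast v w h, ← cast v w' h']
    exact congrArg _ he
  · intro v w h
    rw [← ZMod.intCast_eq_intCast_iff_dvd_sub]
    rw [cast v w h, cast w v h.symm, Sym2.eq_swap]
  · intro z
    have e1 := Int.emod_nonneg (z - 1) (show (t : ℤ) ≠ 0 by omega)
    have e2 := Int.emod_lt_of_pos (z - 1) (show (0 : ℤ) < t by omega)
    obtain ⟨e, he, hc⟩ := hα.used ((z - 1) % t + 1).toNat (by omega) (by omega)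
    induction e using Sym2.ind with
    | _ v w =>
      refine ⟨v, w, he, ?_⟩
      rw [← ZMod.intCast_eq_intCast_iff_dvd_sub]
      rw [cast v w he, hc]
      have : ((((z - 1) % t + 1).toNat : ℕ) : ZMod t) = ((((z - 1) % t + 1 : ℤ)) : ZMod t) := by
        rw [← Int.cast_natCast, Int.toNat_of_nonneg (by omega)]
      rw [this]
      push_cast
      ring

theorem mem_of_arc {V : Type} [Finite V] {G : SimpleGraph V} {D : V → ℕ}
    (hD : ∀ v, Nat.card (G.neighborSet v) = D v) {t : ℕ} {a : V → ℤ} {c : V → V → ℤ}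
    (S : Arc G D t a c) : t ∈ F G := by
  classical
  have tpos := S.pos
  haveI : NeZero t := ⟨by omega⟩
  have hmod : ∀ x y : ℤ, (t : ℤ) ∣ x - y → (x - 1) % t = (y - 1) % t := by
    intro x y h
    have : (y - 1) ≡ (x - 1) [ZMOD t] := by
      rw [Int.modEq_iff_dvd]
      rwa [show x - 1 - (y - 1) = x - y by ring]
    exact this.symm
  set g : V → V → ℕ := fun v w => if G.Adj v w then ((c v w - 1) % t + 1).toNat else 0 with hg
  have gadj : ∀ v w, G.Adj v w → (g v w : ℤ) = (c v w - 1) % t + 1 := by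
    intro v w h
    simp only [hg, if_pos h]
    have := Int.emod_nonneg (c v w - 1) (show (t : ℤ) ≠ 0 by omega)
    omega
  have gsymm : ∀ v w, g v w = g w v := by
    intro v w
    by_cases h : G.Adj v w
    · have h1 := gadj v w h
      have h2 := gadj w v h.symm
      have h3 := hmod _ _ (S.sym v w h)
      omega
    · simp only [hg]
      rw [if_neg h, if_neg (fun h' => h h'.symm)]
  have gcast : ∀ v w, G.Adj v w → ((g v w : ℕ) : ZMod t) = ((c v w : ℤ) : ZMod t) := by
    intro v w h
    have := gadj v w h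
    rw [← Int.cast_natCast, this]
    push_cast
    ring
  refine ⟨S.pos, Sym2.lift ⟨g, gsymm⟩, ?_, ?_, ?_, ?_⟩
  · intro e
    induction e using Sym2.ind with
    | _ v w =>
      intro he
      have he' : G.Adj v w := he
      rw [Sym2.lift_mk]
      have h1 := gadj v w he'
      have h2 := Int.emod_nonneg (c v w - 1) (show (t : ℤ) ≠ 0 by omega)
      have h3 := Int.emod_lt_of_pos (c v w - 1) (show (0 : ℤ) < t by omega)
      show 1 ≤ g v w ∧ g v w ≤ t
      omega
  · intro c0 h1 h2
    obtain ⟨v, w, h3, h4⟩ := S.surj c0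
    refine ⟨s(v, w), h3, ?_⟩
    rw [Sym2.lift_mk]
    show g v w = c0
    have h5 := gadj v w h3
    rw [hmod _ _ h4, Int.emod_eq_of_lt (by omega) (by omega)] at h5
    omega
  · intro v w w' h h' hne
    rw [Sym2.lift_mk, Sym2.lift_mk]
    show g v w ≠ g v w'
    intro he
    apply hne
    have h1 := gadj v w h
    have h2 := gadj v w' h'
    have h3 : (c v w - 1) % t = (c v w' - 1) % t := by omega
    have h4 : (t : ℤ) ∣ (c v w' - 1) - (c v w - 1) := Int.modEq_iff_dvd.1 h3
    have d1 := S.lo v w h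
    have d2 := S.hi v w h
    have d3 := S.lo v w' h'
    have d4 := S.hi v w' h'
    have d5 := S.deg v
    apply S.inj v w w' h h'
    obtain ⟨k, hk⟩ := h4
    have k1 : -1 < k := by
      by_contra hc
      have : k ≤ -1 := by omega
      nlinarith
    have k2 : k < 1 := by
      by_contra hc
      have : 1 ≤ k := by omega
      nlinarith
    have : k = 0 := by omega
    rw [this] at hk
    omega
  · intro v
    refine ⟨((a v : ℤ) : ZMod t), ?_⟩
    ext x
    simp only [Set.mem_setOf_eq, Sym2.lift_mk]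
    have hbij : Function.Bijective (fun w : G.neighborSet v =>
        (⟨(c v w.1 - a v).toNat, by
          have h1 := S.lo v w.1 w.2
          have h2 := S.hi v w.1 w.2
          omega⟩ : Fin (D v))) := by
      rw [Nat.bijective_iff_injective_and_card]
      constructor
      · rintro ⟨w, hw⟩ ⟨w', hw'⟩ h
        simp only [Fin.mk.injEq] at h
        have h1 := S.lo v w hw
        have h2 := S.lo v w' hw'
        exact Subtype.ext (S.inj v w w' hw hw' (by omega))
      · rw [hD]
        simp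
    constructor
    · rintro ⟨w, hw, rfl⟩
      have h1 := S.lo v w hw
      have h2 := S.hi v w hw
      refine ⟨(c v w - a v).toNat, by rw [hD]; omega, ?_⟩
      show ((g v w : ℕ) : ZMod t) = _
      rw [gcast v w hw, ← Int.cast_natCast (R := ZMod t), Int.toNat_of_nonneg (by omega)]
      push_cast
      ring
    · rintro ⟨i, hi, rfl⟩
      rw [hD] at hi
      obtain ⟨⟨w, hw⟩, hw2⟩ := hbij.2 ⟨i, hi⟩
      simp only [Fin.mk.injEq] at hw2
      refine ⟨w, hw, ?_⟩
      show _ = ((g v w : ℕ) : ZMod t)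
      have h1 := S.lo v w hw
      rw [gcast v w hw, ← Int.cast_natCast (R := ZMod t), ← hw2, Int.toNat_of_nonneg (by omega)]
      push_cast
      ring

end Pool.Agent.Q132.IC
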