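import Pool.Agent.Q132.IC.Clusters

set_option autoImplicit false

namespace Pool.Agent.Q132.IC

def dbl (M x : ℕ) : ℕ := if 2 * x < M then 2 * x else 2 * x - M
def addm (M x y : ℕ) : ℕ := if x + y < M then x + y else x + y - M
def kap (s x y : ℕ) : ℕ :=
  if x + 1 = s then dbl (s - 1) y else if y + 1 = s then dbl (s - 1) x else addm (s - 1) x y

theorem kap_lt {r x y : ℕ} (hx : x < 2 * r) (hy : y < 2 * r) (h : x ≠ y) :
    kap (2 * r) x y < 2 * r - 1 := by
  unfold kap dbl addm
  split_ifs <;> omega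

theorem kap_symm {r x y : ℕ} (hx : x < 2 * r) (hy : y < 2 * r) (h : x ≠ y) :
    kap (2 * r) x y = kap (2 * r) y x := by
  unfold kap dbl addm
  split_ifs <;> omega

theorem kap_inj {r x y z : ℕ} (hx : x < 2 * r) (hy : y < 2 * r) (hz : z < 2 * r) (h : x ≠ y)
    (h' : x ≠ z) (he : kap (2 * r) x y = kap (2 * r) x z) : y = z := by
  unfold kap dbl addm at he
  split_ifs at he <;> omega

theorem addm_lt {s x y : ℕ} (hx : x < s) (hy : y < s) : addm s x y < s := by
  unfold addm
  split_ifs <;> omega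

theorem addm_inj {s x y z : ℕ} (hx : x < s) (hy : y < s) (hz : z < s)
    (he : addm s x y = addm s x z) : y = z := by
  unfold addm at he
  split_ifs at he <;> omega

theorem addm_inj' {s x y z : ℕ} (hx : x < s) (hy : y < s) (hz : z < s)
    (he : addm s x z = addm s y z) : x = y := by
  unfold addm at he
  split_ifs at he <;> omega

/-- position on the Hamiltonian cycle formed by the sums `0` and `2` -/
def pos (s x : ℕ) : ℕ := if x + 1 = s then 0 else if x = 0 then 1 else if x % 2 = 0 then x else s - x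

def sub' (s p i : ℕ) : ℕ := if i + 2 ≤ p then p - (i + 2) else p + s - (i + 2)

def hs (s p q : ℕ) : ℕ := if q = p + 1 then p else if p = q + 1 then q else s - 1

def Cons (s p q : ℕ) : Prop := q = p + 1 ∨ p = q + 1 ∨ (p = 0 ∧ q + 1 = s) ∨ (q = 0 ∧ p + 1 = s)

theorem pos_lt {r x : ℕ} (hr : 1 ≤ r) (hx : x < 2 * r + 2) : pos (2 * r + 2) x < 2 * r + 2 := by
  unfold pos
  split_ifs <;> omega

theorem pos_inj {r x y : ℕ} (hr : 1 ≤ r) (hx : x < 2 * r + 2) (hy : y < 2 * r + 2)
    (he : pos (2 * r + 2) x = pos (2 * r + 2) y) : x = y := by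
  unfold pos at he
  split_ifs at he <;> omega

theorem pos_cons {r x y : ℕ} (hr : 1 ≤ r) (hx : x < 2 * r + 2) (hy : y < 2 * r + 2) (h : x ≠ y)
    (hk : kap (2 * r + 2) x y = 0 ∨ kap (2 * r + 2) x y = 2) :
    Cons (2 * r + 2) (pos (2 * r + 2) x) (pos (2 * r + 2) y) := by
  unfold kap dbl addm at hk
  unfold Cons pos
  split_ifs at hk ⊢ <;> omega

theorem sub'_lt {s p i : ℕ} (hp : p < s) (hi : i + 2 < s) : sub' s p i < s := by
  unfold sub'
  split_ifs <;> omega

theorem sub'_inj {s p i j : ℕ} (hp : p < s) (hi : i + 2 < s) (hj : j + 2 < s)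
    (he : sub' s p i = sub' s p j) : i = j := by
  unfold sub' at he
  split_ifs at he <;> omega

theorem sub'_inj' {s p q i : ℕ} (hp : p < s) (hq : q < s) (hi : i + 2 < s)
    (he : sub' s p i = sub' s q i) : p = q := by
  unfold sub' at he
  split_ifs at he <;> omega

theorem hs_lt {s p q : ℕ} (hp : p < s) (hq : q < s) : hs s p q < s := by
  unfold hs
  split_ifs <;> omega

theorem hs_symm {s p q : ℕ} : hs s p q = hs s q p := by
  unfold hs
  split_ifs <;> omega

theorem hs_inj {s p q q' : ℕ} (hs4 : 3 ≤ s) (hp : p < s) (hq : q < s) (hq' : q' < s)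
    (c1 : Cons s p q) (c2 : Cons s p q') (he : hs s p q = hs s p q') : q = q' := by
  unfold hs at he
  unfold Cons at c1 c2
  split_ifs at he <;> omega

theorem hs_ne_sub' {s p q i : ℕ} (hs4 : 3 ≤ s) (hp : p < s) (hq : q < s) (hi : i + 2 < s)
    (c1 : Cons s p q) : sub' s p i ≠ hs s p q := by
  unfold hs sub'
  unfold Cons at c1
  split_ifs <;> omega

/-- the intra-cluster colouring with one Hamiltonian cycle put in the window at `w` and the
remaining factors alone at `al` -/
def one (s w al x y : ℕ) : ℕ :=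
  if kap s x y = 0 ∨ kap s x y = 2 then hs s (pos s x) (pos s y) + w
  else (if kap s x y = 1 then 0 else kap s x y - 2) + al

theorem one_symm {r w al x y : ℕ} (hx : x < 2 * r + 2) (hy : y < 2 * r + 2) (h : x ≠ y) :
    one (2 * r + 2) w al x y = one (2 * r + 2) w al y x := by
  unfold one
  have := kap_symm (r := r + 1) (by omega) (by omega) h
  rw [show 2 * (r + 1) = 2 * r + 2 by ring] at this
  rw [this, hs_symm]

theorem one_range {r w al x y : ℕ} (hr : 1 ≤ r) (hx : x < 2 * r + 2) (hy : y < 2 * r + 2)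
    (h : x ≠ y) : (w ≤ one (2 * r + 2) w al x y ∧ one (2 * r + 2) w al x y < w + (2 * r + 2)) ∨
    (al ≤ one (2 * r + 2) w al x y ∧ one (2 * r + 2) w al x y < al + (2 * r - 1)) := by
  unfold one
  have h1 := kap_lt (r := r + 1) (by omega) (by omega) h
  rw [show 2 * (r + 1) = 2 * r + 2 by ring] at h1
  split_ifs with h2 h3
  · have := hs_lt (pos_lt hr hx) (pos_lt hr hy)
    omega
  · omega
  · omega

theorem one_inj {r w al x y z : ℕ} (hr : 1 ≤ r) (hw : w + (2 * r + 2) ≤ al ∨ al + (2 * r - 1) ≤ w)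
    (hx : x < 2 * r + 2) (hy : y < 2 * r + 2)
    (hz : z < 2 * r + 2) (h : x ≠ y) (h' : x ≠ z)
    (he : one (2 * r + 2) w al x y = one (2 * r + 2) w al x z) : y = z := by
  unfold one at he
  have h1 := kap_lt (r := r + 1) (by omega) (by omega) h
  have h2 := kap_lt (r := r + 1) (by omega) (by omega) h'
  have hi := kap_inj (r := r + 1) (x := x) (y := y) (z := z) (by omega) (by omega) (by omega) h h'
  rw [show 2 * (r + 1) = 2 * r + 2 by ring] at h1 h2 hi
  have p1 := hs_lt (pos_lt hr hx) (pos_lt hr hy)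
  have p2 := hs_lt (pos_lt hr hx) (pos_lt hr hz)
  by_cases g1 : kap (2 * r + 2) x y = 0 ∨ kap (2 * r + 2) x y = 2
  · by_cases g2 : kap (2 * r + 2) x z = 0 ∨ kap (2 * r + 2) x z = 2
    · rw [if_pos g1, if_pos g2] at he
      have c1 := pos_cons hr hx hy h g1
      have c2 := pos_cons hr hx hz h' g2
      exact pos_inj hr hy hz (hs_inj (by omega) (pos_lt hr hx) (pos_lt hr hy) (pos_lt hr hz) c1 c2
        (by omega))
    · rw [if_pos g1, if_neg g2] at he
      split_ifs at he <;> omega
  · by_cases g2 : kap (2 * r + 2) x z = 0 ∨ kap (2 * r + 2) x z = 2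
    · rw [if_neg g1, if_pos g2] at he
      split_ifs at he <;> omega
    · rw [if_neg g1, if_neg g2] at he
      apply hi
      split_ifs at he <;> omega

theorem one_ne {r w al x y i : ℕ} (hr : 1 ≤ r) (hw : w + (2 * r + 2) ≤ al ∨ al + (2 * r - 1) ≤ w)
    (hx : x < 2 * r + 2) (hy : y < 2 * r + 2) (h : x ≠ y) (hi : i < 2 * r) :
    sub' (2 * r + 2) (pos (2 * r + 2) x) i + w ≠ one (2 * r + 2) w al x y := by
  unfold one
  have h1 := kap_lt (r := r + 1) (by omega) (by omega) h
  rw [show 2 * (r + 1) = 2 * r + 2 by ring] at h1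
  have p1 := pos_lt hr hx
  have p2 := pos_lt hr hy
  have p3 := sub'_lt p1 (show i + 2 < 2 * r + 2 by omega)
  by_cases g1 : kap (2 * r + 2) x y = 0 ∨ kap (2 * r + 2) x y = 2
  · rw [if_pos g1]
    have c1 := pos_cons hr hx hy h g1
    have := hs_ne_sub' (by omega) p1 p2 (show i + 2 < 2 * r + 2 by omega) c1
    omega
  · rw [if_neg g1]
    split_ifs <;> omega

/-- second Hamiltonian cycle: sums `M-1` and `1`, `M = 2r+1`, shift by `r` -/
def sh (r x : ℕ) : ℕ := if x = 2 * r + 1 then x else if r ≤ x then x - r else x + (r + 1)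

theorem sh_lt {r x : ℕ} (hx : x < 2 * r + 2) : sh r x < 2 * r + 2 := by
  unfold sh
  split_ifs <;> omega

theorem sh_inj {r x y : ℕ} (hx : x < 2 * r + 2) (hy : y < 2 * r + 2) (he : sh r x = sh r y) :
    x = y := by
  unfold sh at he
  split_ifs at he <;> omega

theorem sh_kap {r x y : ℕ} (hr : 2 ≤ r) (hx : x < 2 * r + 2) (hy : y < 2 * r + 2) (h : x ≠ y)
    (hk : kap (2 * r + 2) x y = 2 * r ∨ kap (2 * r + 2) x y = 1) :
    kap (2 * r + 2) (sh r x) (sh r y) = 0 ∨ kap (2 * r + 2) (sh r x) (sh r y) = 2 := by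
  unfold kap dbl addm sh at *
  split_ifs at * <;> omega

/-- intra-cluster colouring with two Hamiltonian cycles -/
def two' (r w w' al x y : ℕ) : ℕ :=
  if kap (2 * r + 2) x y = 0 ∨ kap (2 * r + 2) x y = 2 then
    hs (2 * r + 2) (pos (2 * r + 2) x) (pos (2 * r + 2) y) + w
  else if kap (2 * r + 2) x y = 2 * r ∨ kap (2 * r + 2) x y = 1 then
    hs (2 * r + 2) (pos (2 * r + 2) (sh r x)) (pos (2 * r + 2) (sh r y)) + w'
  else kap (2 * r + 2) x y - 3 + al


theorem two'_symm {r w w' al x y : ℕ} (hx : x < 2 * r + 2) (hy : y < 2 * r + 2) (h : x ≠ y) :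
    two' r w w' al x y = two' r w w' al y x := by
  unfold two'
  have := kap_symm (r := r + 1) (by omega) (by omega) h
  rw [show 2 * (r + 1) = 2 * r + 2 by ring] at this
  rw [this, hs_symm (p := pos (2 * r + 2) x), hs_symm (p := pos (2 * r + 2) (sh r x))]

theorem two'_range {r w w' al x y : ℕ} (hr : 2 ≤ r) (hx : x < 2 * r + 2) (hy : y < 2 * r + 2)
    (h : x ≠ y) : (w ≤ two' r w w' al x y ∧ two' r w w' al x y < w + (2 * r + 2)) ∨
    (w' ≤ two' r w w' al x y ∧ two' r w w' al x y < w' + (2 * r + 2)) ∨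
    (al ≤ two' r w w' al x y ∧ two' r w w' al x y < al + (2 * r - 3)) := by
  unfold two'
  have h1 := kap_lt (r := r + 1) (by omega) (by omega) h
  rw [show 2 * (r + 1) = 2 * r + 2 by ring] at h1
  have p1 := hs_lt (pos_lt (r := r) (by omega) hx) (pos_lt (by omega) hy)
  have p2 := hs_lt (pos_lt (r := r) (by omega) (sh_lt hx)) (pos_lt (by omega) (sh_lt hy))
  split_ifs with h2 h3
  · omega
  · omega
  · omega

theorem two'_inj {r w w' al x y z : ℕ} (hr : 2 ≤ r) (hw1 : w + (2 * r + 2) ≤ al)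
    (hw2 : al + (2 * r - 3) ≤ w') (hx : x < 2 * r + 2) (hy : y < 2 * r + 2)
    (hz : z < 2 * r + 2) (h : x ≠ y) (h' : x ≠ z)
    (he : two' r w w' al x y = two' r w w' al x z) : y = z := by
  have hr1 : 1 ≤ r := by omega
  unfold two' at he
  have h1 := kap_lt (r := r + 1) (by omega) (by omega) h
  have h2 := kap_lt (r := r + 1) (by omega) (by omega) h'
  have hi := kap_inj (r := r + 1) (x := x) (y := y) (z := z) (by omega) (by omega) (by omega) h h'
  rw [show 2 * (r + 1) = 2 * r + 2 by ring] at h1 h2 hi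
  have p1 := hs_lt (pos_lt hr1 hx) (pos_lt hr1 hy)
  have p2 := hs_lt (pos_lt hr1 hx) (pos_lt hr1 hz)
  have p3 := hs_lt (pos_lt hr1 (sh_lt hx)) (pos_lt hr1 (sh_lt hy))
  have p4 := hs_lt (pos_lt hr1 (sh_lt hx)) (pos_lt hr1 (sh_lt hz))
  by_cases g1 : kap (2 * r + 2) x y = 0 ∨ kap (2 * r + 2) x y = 2
  · rw [if_pos g1] at he
    by_cases g2 : kap (2 * r + 2) x z = 0 ∨ kap (2 * r + 2) x z = 2
    · rw [if_pos g2] at he
      have c1 := pos_cons hr1 hx hy h g1
      have c2 := pos_cons hr1 hx hz h' g2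
      exact pos_inj hr1 hy hz (hs_inj (by omega) (pos_lt hr1 hx) (pos_lt hr1 hy) (pos_lt hr1 hz)
        c1 c2 (by omega))
    · rw [if_neg g2] at he
      split_ifs at he <;> omega
  · rw [if_neg g1] at he
    by_cases g2 : kap (2 * r + 2) x z = 0 ∨ kap (2 * r + 2) x z = 2
    · rw [if_pos g2] at he
      split_ifs at he <;> omega
    · rw [if_neg g2] at he
      by_cases g3 : kap (2 * r + 2) x y = 2 * r ∨ kap (2 * r + 2) x y = 1
      · rw [if_pos g3] at he
        by_cases g4 : kap (2 * r + 2) x z = 2 * r ∨ kap (2 * r + 2) x z = 1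
        · rw [if_pos g4] at he
          have n1 : sh r x ≠ sh r y := fun he => h (sh_inj hx hy he)
          have n2 : sh r x ≠ sh r z := fun he => h' (sh_inj hx hz he)
          have c1 := pos_cons hr1 (sh_lt hx) (sh_lt hy) n1 (sh_kap hr hx hy h g3)
          have c2 := pos_cons hr1 (sh_lt hx) (sh_lt hz) n2 (sh_kap hr hx hz h' g4)
          exact sh_inj hy hz (pos_inj hr1 (sh_lt hy) (sh_lt hz) (hs_inj (by omega)
            (pos_lt hr1 (sh_lt hx)) (pos_lt hr1 (sh_lt hy)) (pos_lt hr1 (sh_lt hz)) c1 c2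
            (by omega)))
        · rw [if_neg g4] at he
          omega
      · rw [if_neg g3] at he
        by_cases g4 : kap (2 * r + 2) x z = 2 * r ∨ kap (2 * r + 2) x z = 1
        · rw [if_pos g4] at he
          omega
        · rw [if_neg g4] at he
          apply hi
          omega

theorem two'_ne1 {r w w' al x y i : ℕ} (hr : 2 ≤ r) (hw1 : w + (2 * r + 2) ≤ al)
    (hw2 : al + (2 * r - 3) ≤ w') (hx : x < 2 * r + 2) (hy : y < 2 * r + 2) (h : x ≠ y)
    (hi : i < 2 * r) :
    sub' (2 * r + 2) (pos (2 * r + 2) x) i + w ≠ two' r w w' al x y := by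
  have hr1 : 1 ≤ r := by omega
  unfold two'
  have h1 := kap_lt (r := r + 1) (by omega) (by omega) h
  rw [show 2 * (r + 1) = 2 * r + 2 by ring] at h1
  have p1 := pos_lt hr1 hx
  have p2 := pos_lt hr1 hy
  have p3 := sub'_lt p1 (show i + 2 < 2 * r + 2 by omega)
  by_cases g1 : kap (2 * r + 2) x y = 0 ∨ kap (2 * r + 2) x y = 2
  · rw [if_pos g1]
    have c1 := pos_cons hr1 hx hy h g1
    have := hs_ne_sub' (by omega) p1 p2 (show i + 2 < 2 * r + 2 by omega) c1
    omega
  · rw [if_neg g1]
    split_ifs <;> omega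

theorem two'_ne2 {r w w' al x y i : ℕ} (hr : 2 ≤ r) (hw1 : w + (2 * r + 2) ≤ al)
    (hw2 : al + (2 * r - 3) ≤ w') (hx : x < 2 * r + 2) (hy : y < 2 * r + 2) (h : x ≠ y)
    (hi : i < 2 * r) :
    sub' (2 * r + 2) (pos (2 * r + 2) (sh r x)) i + w' ≠ two' r w w' al x y := by
  have hr1 : 1 ≤ r := by omega
  unfold two'
  have h1 := kap_lt (r := r + 1) (by omega) (by omega) h
  rw [show 2 * (r + 1) = 2 * r + 2 by ring] at h1
  have q1 := hs_lt (pos_lt hr1 hx) (pos_lt hr1 hy)
  have p1 := pos_lt hr1 (sh_lt hx)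
  have p2 := pos_lt hr1 (sh_lt hy)
  have p3 := sub'_lt p1 (show i + 2 < 2 * r + 2 by omega)
  by_cases g1 : kap (2 * r + 2) x y = 0 ∨ kap (2 * r + 2) x y = 2
  · rw [if_pos g1]
    omega
  · rw [if_neg g1]
    by_cases g2 : kap (2 * r + 2) x y = 2 * r ∨ kap (2 * r + 2) x y = 1
    · rw [if_pos g2]
      have n1 : sh r x ≠ sh r y := fun he => h (sh_inj hx hy he)
      have c1 := pos_cons hr1 (sh_lt hx) (sh_lt hy) n1 (sh_kap hr hx hy h g2)
      have := hs_ne_sub' (by omega) p1 p2 (show i + 2 < 2 * r + 2 by omega) c1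
      omega
    · rw [if_neg g2]
      omega

/-- three equal clusters -/
theorem con1 (r : ℕ) (hr : 1 ≤ r) :
    ∃ s col I, Good (Fin (2 * r) ⊕ (Fin (2 * r) ⊕ Fin (2 * r))) (6 * r - 1) (12 * r - 3) s col I ∧
      I.card ≤ 6 * r := by
  have := three (2 * r) (2 * r) (2 * r) (by omega) (by omega) (by omega) le_rfl le_rfl (by omega)
    (fun x y => kap (2 * r) x y + (10 * r - 2)) (fun x y => kap (2 * r) x y + 2 * r)
    (fun x y => kap (2 * r) x y + (6 * r - 1))
    (fun x y => addm (2 * r) x y) (fun x y => addm (2 * r) x y + (4 * r - 1))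
    (fun x y => addm (2 * r) x y + (8 * r - 2))
    (fun x y hx hy h => by rw [kap_symm hx hy h])
    (fun x y hx hy h => by rw [kap_symm hx hy h])
    (fun x y hx hy h => by rw [kap_symm hx hy h])
    (fun x y hx hy h => by have := kap_lt hx hy h; omega)
    (fun x y hx hy h => by have := kap_lt hx hy h; omega)
    (fun x y hx hy h => by have := kap_lt hx hy h; omega)
    (fun x y hx hy => by have := addm_lt hx hy; omega)
    (fun x y hx hy => by have := addm_lt hx hy; omega)
    (fun x y hx hy => by have := addm_lt hx hy; omega)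
    (fun x y z hx hy hz h h' he => kap_inj hx hy hz h h' (by omega))
    (fun x y z hx hy hz h h' he => kap_inj hx hy hz h h' (by omega))
    (fun x y z hx hy hz h h' he => kap_inj hx hy hz h h' (by omega))
    (fun x y z hx hy hz he => addm_inj hx hy hz (by omega))
    (fun x y z hx hy hz he => addm_inj' hx hy hz (by omega))
    (fun x y z hx hy hz he => addm_inj hx hy hz (by omega))
    (fun x y z hx hy hz he => addm_inj' hx hy hz (by omega))
    (fun x y z hx hy hz he => addm_inj hx hy hz (by omega))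
    (fun x y z hx hy hz he => addm_inj' hx hy hz (by omega))
    (fun x y z hx hy hz h => by have := addm_lt hx hy; omega)
    (fun x y z hx hy hz h => by have := addm_lt hx hy; omega)
    (fun x y z hx hy hz h => by have := addm_lt hy hx; have := kap_lt hy hz h; omega)
  rw [show 2 * r + 2 * r + 2 * r - 1 = 6 * r - 1 by omega,
    show 3 * (2 * r) + 2 * (2 * r) + 2 * r - 3 = 12 * r - 3 by omega,
    show 2 * r + 2 * (2 * r) = 6 * r by omega] at this
  exact this

/-- clusters `2r, 2r, 2r+2` -/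
theorem con2 (r : ℕ) (hr : 2 ≤ r) :
    ∃ s col I, Good (Fin (2 * r) ⊕ (Fin (2 * r) ⊕ Fin (2 * r + 2))) (6 * r + 1) (12 * r - 1) s col I ∧
      I.card ≤ 6 * r + 4 := by
  have hr1 : 1 ≤ r := by omega
  have := three (2 * r) (2 * r) (2 * r + 2) (by omega) (by omega) (by omega) le_rfl (by omega)
    (by omega)
    (fun x y => kap (2 * r) x y + (10 * r)) (fun x y => kap (2 * r) x y + 2 * r)
    (fun x y => two' r (4 * r - 1) (8 * r - 2) (6 * r + 1) x y)
    (fun x y => addm (2 * r) x y)
    (fun y z => sub' (2 * r + 2) (pos (2 * r + 2) z) y + (4 * r - 1))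
    (fun z x => sub' (2 * r + 2) (pos (2 * r + 2) (sh r z)) x + (8 * r - 2))
    (fun x y hx hy h => by rw [kap_symm hx hy h])
    (fun x y hx hy h => by rw [kap_symm hx hy h])
    (fun x y hx hy h => two'_symm hx hy h)
    (fun x y hx hy h => by have := kap_lt hx hy h; omega)
    (fun x y hx hy h => by have := kap_lt hx hy h; omega)
    (fun x y hx hy h => by
      have := two'_range (w := 4 * r - 1) (w' := 8 * r - 2) (al := 6 * r + 1) hr hx hy h
      omega)
    (fun x y hx hy => by have := addm_lt hx hy; omega)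
    (fun x y hx hy => by
      have := sub'_lt (pos_lt hr1 hy) (show x + 2 < 2 * r + 2 by omega)
      omega)
    (fun x y hx hy => by
      have := sub'_lt (pos_lt hr1 (sh_lt hx)) (show y + 2 < 2 * r + 2 by omega)
      omega)
    (fun x y z hx hy hz h h' he => kap_inj hx hy hz h h' (by omega))
    (fun x y z hx hy hz h h' he => kap_inj hx hy hz h h' (by omega))
    (fun x y z hx hy hz h h' he => two'_inj hr (by omega) (by omega) hx hy hz h h' he)
    (fun x y z hx hy hz he => addm_inj hx hy hz (by omega))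
    (fun x y z hx hy hz he => addm_inj' hx hy hz (by omega))
    (fun x y z hx hy hz he => pos_inj hr1 hy hz (sub'_inj' (pos_lt hr1 hy) (pos_lt hr1 hz)
      (show x + 2 < 2 * r + 2 by omega) (by omega)))
    (fun x y z hx hy hz he => sub'_inj (pos_lt hr1 hz) (show x + 2 < 2 * r + 2 by omega)
      (show y + 2 < 2 * r + 2 by omega) (by omega))
    (fun x y z hx hy hz he => sub'_inj (pos_lt hr1 (sh_lt hx)) (show y + 2 < 2 * r + 2 by omega)
      (show z + 2 < 2 * r + 2 by omega) (by omega))
    (fun x y z hx hy hz he => sh_inj hx hy (pos_inj hr1 (sh_lt hx) (sh_lt hy)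
      (sub'_inj' (pos_lt hr1 (sh_lt hx)) (pos_lt hr1 (sh_lt hy))
      (show z + 2 < 2 * r + 2 by omega) (by omega))))
    (fun x y z hx hy hz h => by have := addm_lt hx hy; omega)
    (fun x y z hx hy hz h => two'_ne1 hr (by omega) (by omega) hy hz h hx)
    (fun x y z hx hy hz h => two'_ne2 hr (by omega) (by omega) hy hz h hx)
  rw [show 2 * r + 2 * r + (2 * r + 2) - 1 = 6 * r + 1 by omega,
    show 3 * (2 * r) + 2 * (2 * r) + (2 * r + 2) - 3 = 12 * r - 1 by omega,
    show 2 * r + 2 * (2 * r + 2) = 6 * r + 4 by omega] at this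
  exact this

/-- clusters `2r, 2r+2, 2r+2` -/
theorem con3 (r : ℕ) (hr : 1 ≤ r) :
    ∃ s col I, Good (Fin (2 * r) ⊕ (Fin (2 * r + 2) ⊕ Fin (2 * r + 2))) (6 * r + 3) (12 * r + 3) s col I ∧
      I.card ≤ 6 * r + 6 := by
  have := three (2 * r) (2 * r + 2) (2 * r + 2) (by omega) (by omega) (by omega) (by omega) le_rfl
    (by omega)
    (fun x y => kap (2 * r) x y + (10 * r + 4)) (fun x y => one (2 * r + 2) 0 (2 * r + 2) x y)
    (fun x y => one (2 * r + 2) (8 * r + 2) (6 * r + 3) x y)
    (fun x y => sub' (2 * r + 2) (pos (2 * r + 2) y) x + 0)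
    (fun y z => addm (2 * r + 2) y z + (4 * r + 1))
    (fun z x => sub' (2 * r + 2) (pos (2 * r + 2) z) x + (8 * r + 2))
    (fun x y hx hy h => by rw [kap_symm hx hy h])
    (fun x y hx hy h => one_symm hx hy h)
    (fun x y hx hy h => one_symm hx hy h)
    (fun x y hx hy h => by have := kap_lt hx hy h; omega)
    (fun x y hx hy h => by
      have := one_range (w := 0) (al := 2 * r + 2) hr hx hy h
      omega)
    (fun x y hx hy h => by
      have := one_range (w := 8 * r + 2) (al := 6 * r + 3) hr hx hy h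
      omega)
    (fun x y hx hy => by
      have := sub'_lt (pos_lt hr hy) (show x + 2 < 2 * r + 2 by omega)
      omega)
    (fun x y hx hy => by have := addm_lt hx hy; omega)
    (fun x y hx hy => by
      have := sub'_lt (pos_lt hr hx) (show y + 2 < 2 * r + 2 by omega)
      omega)
    (fun x y z hx hy hz h h' he => kap_inj hx hy hz h h' (by omega))
    (fun x y z hx hy hz h h' he => one_inj hr (by omega) hx hy hz h h' he)
    (fun x y z hx hy hz h h' he => one_inj hr (by omega) hx hy hz h h' he)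
    (fun x y z hx hy hz he => pos_inj hr hy hz (sub'_inj' (pos_lt hr hy) (pos_lt hr hz)
      (show x + 2 < 2 * r + 2 by omega) (by omega)))
    (fun x y z hx hy hz he => sub'_inj (pos_lt hr hz) (show x + 2 < 2 * r + 2 by omega)
      (show y + 2 < 2 * r + 2 by omega) (by omega))
    (fun x y z hx hy hz he => addm_inj hx hy hz (by omega))
    (fun x y z hx hy hz he => addm_inj' hx hy hz (by omega))
    (fun x y z hx hy hz he => sub'_inj (pos_lt hr hx) (show y + 2 < 2 * r + 2 by omega)
      (show z + 2 < 2 * r + 2 by omega) (by omega))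
    (fun x y z hx hy hz he => pos_inj hr hx hy
      (sub'_inj' (pos_lt hr hx) (pos_lt hr hy) (show z + 2 < 2 * r + 2 by omega) (by omega)))
    (fun x y z hx hy hz h => one_ne hr (by omega) hy hz h hx)
    (fun x y z hx hy hz h => by
      have := addm_lt hx hy
      have := one_range (w := 8 * r + 2) (al := 6 * r + 3) hr hy hz h
      omega)
    (fun x y z hx hy hz h => one_ne hr (by omega) hy hz h hx)
  rw [show 2 * r + (2 * r + 2) + (2 * r + 2) - 1 = 6 * r + 3 by omega,
    show 3 * (2 * r) + 2 * (2 * r + 2) + (2 * r + 2) - 3 = 12 * r + 3 by omega,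
    show 2 * r + 2 + 2 * (2 * r + 2) = 6 * r + 6 by omega] at this
  exact this

/-- two equal clusters -/
theorem con4 (r : ℕ) (hr : 1 ≤ r) :
    ∃ s col I, Good (Fin (2 * r) ⊕ Fin (2 * r)) (4 * r - 1) (6 * r - 2) s col I ∧
      I.card ≤ 2 * r := by
  have := two (2 * r) (2 * r) (by omega) (by omega) le_rfl
    (fun x y => kap (2 * r) x y + (4 * r - 1)) (fun x y => kap (2 * r) x y + 2 * r)
    (fun x y => addm (2 * r) x y)
    (fun x y hx hy h => by rw [kap_symm hx hy h])
    (fun x y hx hy h => by rw [kap_symm hx hy h])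
    (fun x y hx hy h => by have := kap_lt hx hy h; omega)
    (fun x y hx hy h => by have := kap_lt hx hy h; omega)
    (fun x y hx hy => by have := addm_lt hx hy; omega)
    (fun x y z hx hy hz h h' he => kap_inj hx hy hz h h' (by omega))
    (fun x y z hx hy hz h h' he => kap_inj hx hy hz h h' (by omega))
    (fun x y z hx hy hz he => addm_inj hx hy hz (by omega))
    (fun x y z hx hy hz he => addm_inj' hx hy hz (by omega))
    (fun x y z hx hy hz h => by have := addm_lt hx hy; omega)
  rw [show 2 * r + 2 * r - 1 = 4 * r - 1 by omega,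
    show 2 * (2 * r) + 2 * r - 2 = 6 * r - 2 by omega] at this
  exact this

/-- clusters `2r, 2r+2` -/
theorem con5 (r : ℕ) (hr : 1 ≤ r) :
    ∃ s col I, Good (Fin (2 * r) ⊕ Fin (2 * r + 2)) (4 * r + 1) (6 * r) s col I ∧
      I.card ≤ 2 * r + 2 := by
  have := two (2 * r) (2 * r + 2) (by omega) (by omega) (by omega)
    (fun x y => kap (2 * r) x y + (4 * r + 1)) (fun x y => one (2 * r + 2) 0 (2 * r + 2) x y)
    (fun x y => sub' (2 * r + 2) (pos (2 * r + 2) y) x + 0)
    (fun x y hx hy h => by rw [kap_symm hx hy h])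
    (fun x y hx hy h => one_symm hx hy h)
    (fun x y hx hy h => by have := kap_lt hx hy h; omega)
    (fun x y hx hy h => by
      have := one_range (w := 0) (al := 2 * r + 2) hr hx hy h
      omega)
    (fun x y hx hy => by
      have := sub'_lt (pos_lt hr hy) (show x + 2 < 2 * r + 2 by omega)
      omega)
    (fun x y z hx hy hz h h' he => kap_inj hx hy hz h h' (by omega))
    (fun x y z hx hy hz h h' he => one_inj hr (by omega) hx hy hz h h' he)
    (fun x y z hx hy hz he => pos_inj hr hy hz (sub'_inj' (pos_lt hr hy) (pos_lt hr hz)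
      (show x + 2 < 2 * r + 2 by omega) (by omega)))
    (fun x y z hx hy hz he => sub'_inj (pos_lt hr hz) (show x + 2 < 2 * r + 2 by omega)
      (show y + 2 < 2 * r + 2 by omega) (by omega))
    (fun x y z hx hy hz h => one_ne hr (by omega) hy hz h hx)
  rw [show 2 * r + (2 * r + 2) - 1 = 4 * r + 1 by omega,
    show 2 * (2 * r) + (2 * r + 2) - 2 = 6 * r by omega] at this
  exact this

end Pool.Agent.Q132.IC
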