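import Pool.Agent.Q132.IC.Qn2
import Pool.Agent.Q132.IC.Pieces

set_option autoImplicit false

namespace Pool.Agent.Q132.IC

open Finset

theorem fin_mem {V : Type} [Fintype V] {n d T t : ℕ} (hV : Fintype.card V = 2 * n)
    (hd : d + 1 = 2 * n) (ht : t ≤ T) (hdt : d ≤ t) (hd1 : 1 ≤ d) {K : ℕ} (hK : K ≤ t)
    (S : ∃ s col I, Good V d T s col I ∧ I.card ≤ K) :
    t ∈ F (⊤ : SimpleGraph (Fin (2 * n))) := by
  obtain ⟨s, col, I, S, hI⟩ := S
  obtain ⟨k, rfl⟩ := Nat.exists_eq_add_of_le ht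
  obtain ⟨s', col', I', S'⟩ := Good.down hd1 k t s col I S hdt (by omega)
  have e : Fin (2 * n) ≃ V := Fintype.equivOfCardEq (by rw [Fintype.card_fin, hV])
  exact (S'.equiv e).mem (by rw [Fintype.card_fin]; omega) hd1 hdt

def st8 : List ℕ := [0, 5, 3, 7, 7, 0, 3, 5]
def tb8 : List (List ℕ) := [[0, 0, 3, 2, 1, 6, 4, 5], [0, 0, 9, 10, 7, 5, 6, 8],
  [3, 9, 0, 7, 8, 4, 5, 6], [2, 10, 7, 0, 0, 1, 8, 9], [1, 7, 8, 0, 0, 2, 9, 10],
  [6, 5, 4, 1, 2, 0, 3, 0], [4, 6, 5, 8, 9, 3, 0, 7], [5, 8, 6, 9, 10, 0, 7, 0]]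

theorem good8 : Good (Fin 8) 7 11 (fun v => st8.getD (v : ℕ) 0)
    (fun v w => (tb8.getD (v : ℕ) []).getD (w : ℕ) 0) (range 11) := by
  refine ⟨?_, ?_, ?_, ?_, ?_, ?_, ?_⟩
  · decide +kernel
  · decide +kernel
  · decide +kernel
  · unfold inArc
    decide +kernel
  · decide +kernel
  · intro c hc
    have key : ∀ c : Fin 11, ∃ v : Fin 8,
        (st8.getD (v : ℕ) 0 ≤ (c : ℕ) ∧ (c : ℕ) < st8.getD (v : ℕ) 0 + 7) ∨
        ((c : ℕ) + 11 < st8.getD (v : ℕ) 0 + 7) := by decide +kernel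
    exact key ⟨c, hc⟩
  · intro v w hvw hI
    exfalso
    apply hI
    rw [mem_range]
    have key : ∀ v w : Fin 8, v ≠ w → (tb8.getD (v : ℕ) []).getD (w : ℕ) 0 < 11 := by decide +kernel
    exact key v w hvw

theorem KN_low {n t : ℕ} (hn : 3 ≤ n) (h1 : 2 * n ≤ t + 1)
    (h2 : t + 5 ≤ 4 * n ∨ (3 ∣ n ∧ t + 3 ≤ 4 * n)) : t ∈ F (⊤ : SimpleGraph (Fin (2 * n))) := by
  by_cases h3 : t + 3 ≤ 3 * n ∨ (t + 2 ≤ 3 * n ∧ n % 2 = 0)
  · rcases Nat.even_or_odd' n with ⟨r, hr | hr⟩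
    · exact fin_mem (V := Fin (2 * r) ⊕ Fin (2 * r)) (T := 6 * r - 2) (d := 4 * r - 1)
        (by simp; omega) (by omega) (by omega) (by omega) (by omega) (K := 2 * r) (by omega)
        (con4 r (by omega))
    · exact fin_mem (V := Fin (2 * r) ⊕ Fin (2 * r + 2)) (T := 6 * r) (d := 4 * r + 1)
        (by simp; omega) (by omega) (by omega) (by omega) (by omega) (K := 2 * r + 2) (by omega)
        (con5 r (by omega))
  · by_cases h4 : n = 4
    · subst h4
      have : t = 11 := by omega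
      subst this
      exact good8.mem (by simp) (by norm_num) (by norm_num)
    · have h5 : n % 3 = 0 ∨ n % 3 = 1 ∨ n % 3 = 2 := by omega
      rcases h5 with h5 | h5 | h5
      · obtain ⟨r, hr⟩ : ∃ r, n = 3 * r := ⟨n / 3, by omega⟩
        exact fin_mem (V := Fin (2 * r) ⊕ (Fin (2 * r) ⊕ Fin (2 * r))) (T := 12 * r - 3)
          (d := 6 * r - 1) (by simp; omega) (by omega) (by omega) (by omega) (by omega)
          (K := 6 * r) (by omega) (con1 r (by omega))
      · obtain ⟨r, hr⟩ : ∃ r, n = 3 * r + 1 := ⟨n / 3, by omega⟩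
        exact fin_mem (V := Fin (2 * r) ⊕ (Fin (2 * r) ⊕ Fin (2 * r + 2))) (T := 12 * r - 1)
          (d := 6 * r + 1) (by simp; omega) (by omega) (by omega) (by omega) (by omega)
          (K := 6 * r + 4) (by omega) (con2 r (by omega))
      · obtain ⟨r, hr⟩ : ∃ r, n = 3 * r + 2 := ⟨n / 3, by omega⟩
        exact fin_mem (V := Fin (2 * r) ⊕ (Fin (2 * r + 2) ⊕ Fin (2 * r + 2))) (T := 12 * r + 3)
          (d := 6 * r + 3) (by simp; omega) (by omega) (by omega) (by omega) (by omega)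
          (K := 6 * r + 6) (by omega) (con3 r (by omega))

theorem gapfree_K (n : ℕ) (hn : 1 ≤ n) : GapFree (F (⊤ : SimpleGraph (Fin (2 * n)))) := by
  intro a b c ha hc hab hbc
  obtain ⟨a1, c1, S1⟩ := arc_of_mem (D := fun _ => 2 * n - 1) (card_nbr_top (2 * n)) ha
  have hna : 2 * n - 1 ≤ a := S1.deg ⟨0, by omega⟩
  rcases Nat.lt_or_ge n 2 with h | h
  · have hn1 : n = 1 := by omega
    subst hn1
    exfalso
    obtain ⟨pos, α, hα⟩ := hc
    have edge : ∀ e ∈ (⊤ : SimpleGraph (Fin (2 * 1))).edgeSet, e = s(0, 1) := by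
      intro e he
      induction e using Sym2.ind with
      | _ v w =>
        have hvw : v ≠ w := (show (⊤ : SimpleGraph (Fin (2 * 1))).Adj v w from he).ne
        have hv : v = 0 ∨ v = 1 := by
          rcases v with ⟨v, hv⟩
          rcases (show v = 0 ∨ v = 1 by omega) with rfl | rfl
          · left; rfl
          · right; rfl
        have hw : w = 0 ∨ w = 1 := by
          rcases w with ⟨v, hv⟩
          rcases (show v = 0 ∨ v = 1 by omega) with rfl | rfl
          · left; rfl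
          · right; rfl
        rcases hv with rfl | rfl <;> rcases hw with rfl | rfl
        · exact absurd rfl hvw
        · rfl
        · exact Sym2.eq_swap
        · exact absurd rfl hvw
    obtain ⟨e, he, h1⟩ := hα.used 1 le_rfl (by omega)
    obtain ⟨e', he', h2⟩ := hα.used c (by omega) le_rfl
    rw [edge e he] at h1
    rw [edge e' he'] at h2
    omega
  · have hb := KN_bound h hc
    rcases Nat.lt_or_ge n 3 with h3 | h3
    · have hn2 : n = 2 := by omega
      subst hn2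
      omega
    · apply KN_low h3 (by omega)
      rcases hb with hb | ⟨hb, h4⟩
      · left; omega
      · right; exact ⟨h4, by omega⟩

theorem KMN_low {m n t : ℕ} (hm : 1 ≤ m) (hn : 1 ≤ n) (h1 : m ≤ t) (h2 : n ≤ t)
    (h3 : t + 1 ≤ m + n) : t ∈ F (completeBipartiteGraph (Fin m) (Fin n)) := by
  apply mem_of_arc (card_nbr_bip m n)
    (a := fun v => Sum.elim (fun i : Fin m => ((i : ℕ) : ℤ)) (fun j : Fin n => ((j : ℕ) : ℤ)) v)
    (c := fun v w => match v, w with
      | Sum.inl i, Sum.inr j => ((i : ℕ) : ℤ) + ((j : ℕ) : ℤ)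
      | Sum.inr j, Sum.inl i => ((i : ℕ) : ℤ) + ((j : ℕ) : ℤ)
      | Sum.inl _, Sum.inl _ => 0
      | Sum.inr _, Sum.inr _ => 0)
  refine ⟨by omega, ?_, ?_, ?_, ?_, ?_, ?_⟩
  · rintro (i | j)
    · exact h2
    · exact h1
  · rintro (i | i) (j | j) h <;> simp [completeBipartiteGraph] at h ⊢
  · rintro (i | i) (j | j) h <;> simp [completeBipartiteGraph] at h ⊢ <;> omega
  · rintro (i | i) (j | j) (k | k) h h' he <;> simp [completeBipartiteGraph] at h h' he ⊢ <;>
      exact Fin.ext (by omega)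
  · rintro (i | i) (j | j) h <;> simp [completeBipartiteGraph] at h ⊢
  · intro z
    have hT : (t : ℤ) ≠ 0 := by omega
    have e1 := Int.emod_nonneg z hT
    have e2 := Int.emod_lt_of_pos z (show (0 : ℤ) < t by omega)
    have e3 := Int.emod_add_mul_ediv z t
    obtain ⟨r, hr⟩ : ∃ r : ℕ, (r : ℤ) = z % t := ⟨(z % t).toNat, by omega⟩
    refine ⟨Sum.inl ⟨min r (m - 1), by omega⟩, Sum.inr ⟨r - min r (m - 1), by omega⟩,
      by simp [completeBipartiteGraph], ?_⟩
    refine ⟨-(z / t), ?_⟩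
    have : (((min r (m - 1) : ℕ) : ℤ)) + ((r - min r (m - 1) : ℕ) : ℤ) = z % t := by omega
    show (((min r (m - 1) : ℕ) : ℤ)) + ((r - min r (m - 1) : ℕ) : ℤ) - z = t * -(z / t)
    rw [this]
    linarith

theorem gapfree_KMN (m n : ℕ) (hm : 1 ≤ m) (hn : 1 ≤ n) :
    GapFree (F (completeBipartiteGraph (Fin m) (Fin n))) := by
  intro a b c ha hc hab hbc
  obtain ⟨a1, c1, S1⟩ := arc_of_mem (card_nbr_bip m n) ha
  have h1 : n ≤ a := S1.deg (Sum.inl ⟨0, by omega⟩)
  have h2 : m ≤ a := S1.deg (Sum.inr ⟨0, by omega⟩)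
  have h3 := KMN_bound hm hn hc
  exact KMN_low hm hn (by omega) (by omega) (by omega)

end Pool.Agent.Q132.IC
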