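import Pool.Agent.Q132.IC.Defs

set_option autoImplicit false

namespace Pool.Agent.Q132.IC

open Finset

/-- colour `c` lies in the cyclic arc of length `d` starting at `a` on the circle of `T` colours -/
def inArc (T d a c : ℕ) : Prop := (a ≤ c ∧ c < a + d) ∨ (c + T < a + d)

/-- an interval cyclic colouring of the complete graph on `V`, with `I` containing all colours of
edges joining vertices with different starts -/
structure Good (V : Type) (d T : ℕ) (a : V → ℕ) (col : V → V → ℕ) (I : Finset ℕ) : Prop where
  aT : ∀ v, a v < T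
  colT : ∀ v w, v ≠ w → col v w < T
  sym : ∀ v w, v ≠ w → col v w = col w v
  win : ∀ v w, v ≠ w → inArc T d (a v) (col v w)
  inj : ∀ v w w', v ≠ w → v ≠ w' → col v w = col v w' → w = w'
  cover : ∀ c, c < T → ∃ v, inArc T d (a v) c
  pure : ∀ v w, v ≠ w → col v w ∉ I → a v = a w

theorem Good.remove {V : Type} {d T : ℕ} {a : V → ℕ} {col : V → V → ℕ} {I : Finset ℕ}
    (S : Good V d (T + 1) a col I) (hd : d ≤ T) (hd1 : 1 ≤ d) (c0 : ℕ) (h0 : c0 < T + 1)
    (hI : c0 ∉ I) :
    ∃ a' col' I', Good V d T a' col' I' ∧ I'.card ≤ I.card := by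
  classical
  set f : ℕ → ℕ := fun x => if x < c0 then x else x - 1 with hf
  set pr : ℕ → ℕ := fun x => if x = 0 then T else x - 1 with hpr
  set na : ℕ → ℕ := fun x => if inArc (T + 1) d x c0 then f (pr x) else f x with hna
  refine ⟨fun v => na (a v), fun v w => if col v w = c0 then f (pr (a v)) else f (col v w),
    I.image f, ?_, card_image_le⟩
  refine ⟨?_, ?_, ?_, ?_, ?_, ?_, ?_⟩
  · intro v
    have h1 := S.aT v
    simp only [hna, hf, hpr, inArc]
    split_ifs <;> omega
  · intro v w hvw
    have h1 := S.aT v
    have h2 := S.colT v w hvw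
    have h3 := S.win v w hvw
    simp only [hf, hpr]
    unfold inArc at h3
    split_ifs <;> omega
  · intro v w hvw
    have h1 := S.sym v w hvw
    by_cases h : col v w = c0
    · have h2 := S.pure v w hvw (by rw [h]; exact hI)
      rw [if_pos h, if_pos (by rw [← h1]; exact h), h2]
    · rw [if_neg h, if_neg (by rw [← h1]; exact h), h1]
  · intro v w hvw
    have h1 := S.aT v
    have h2 := S.colT v w hvw
    have h3 := S.win v w hvw
    simp only [hna, hf, hpr]
    unfold inArc at h3 ⊢
    split_ifs <;> omega
  · intro v w w' hvw hvw' he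
    apply S.inj v w w' hvw hvw'
    have h1 := S.aT v
    have h2 := S.colT v w hvw
    have h3 := S.win v w hvw
    have h4 := S.colT v w' hvw'
    have h5 := S.win v w' hvw'
    simp only [hf, hpr] at he
    unfold inArc at h3 h5
    split_ifs at he <;> omega
  · intro y hy
    obtain ⟨v, hv⟩ := S.cover (if y < c0 then y else y + 1) (by split_ifs <;> omega)
    refine ⟨v, ?_⟩
    have h1 := S.aT v
    simp only [hna, hf, hpr]
    unfold inArc at hv ⊢
    split_ifs at hv ⊢ <;> omega
  · intro v w hvw hc
    have h1 : a v = a w := by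
      apply S.pure v w hvw
      intro hI'
      apply hc
      have hne : col v w ≠ c0 := fun h => hI (h ▸ hI')
      rw [mem_image]
      exact ⟨col v w, hI', by show f (col v w) = _; rw [if_neg hne]⟩
    show na (a v) = na (a w)
    rw [h1]

theorem Good.down {V : Type} {d : ℕ} (hd1 : 1 ≤ d) : ∀ (k T : ℕ) (a : V → ℕ) (col : V → V → ℕ)
    (I : Finset ℕ), Good V d (T + k) a col I → d ≤ T → I.card ≤ T →
    ∃ a' col' I', Good V d T a' col' I' := by
  intro k
  induction k with
  | zero => intro T a col I S _ _; exact ⟨a, col, I, S⟩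
  | succ k ih =>
    intro T a col I S h1 h2
    have : ∃ c0, c0 < T + k + 1 ∧ c0 ∉ I := by
      by_contra hc
      push Not at hc
      have : range (T + k + 1) ⊆ I := fun x hx => hc x (mem_range.1 hx)
      have := card_le_card this
      rw [card_range] at this
      omega
    obtain ⟨c0, h3, h4⟩ := this
    obtain ⟨a', col', I', S', h5⟩ := Good.remove (T := T + k) S (by omega) hd1 c0 h3 h4
    exact ih T a' col' I' S' h1 (by omega)

theorem Good.mem {V : Type} [Fintype V] {d T : ℕ} {a : V → ℕ} {col : V → V → ℕ}
    {I : Finset ℕ} (S : Good V d T a col I) (hV : Fintype.card V = d + 1) (hd1 : 1 ≤ d)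
    (hdT : d ≤ T) : T ∈ F (⊤ : SimpleGraph V) := by
  classical
  have hD : ∀ v : V, Nat.card ((⊤ : SimpleGraph V).neighborSet v) = (fun _ => d) v := by
    intro v
    rw [Nat.card_eq_fintype_card, SimpleGraph.card_neighborSet_eq_degree,
      SimpleGraph.complete_graph_degree, hV]
    rfl
  have hval : ∀ v w, v ≠ w → a v ≤ (if a v ≤ col v w then col v w else col v w + T) ∧
      (if a v ≤ col v w then col v w else col v w + T) < a v + d := by
    intro v w h
    have h1 := S.aT v
    have h2 := S.colT v w h
    have h3 := S.win v w h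
    unfold inArc at h3
    split_ifs <;> omega
  apply mem_of_arc hD (a := fun v => (a v : ℤ))
    (c := fun v w => ((if a v ≤ col v w then col v w else col v w + T : ℕ) : ℤ))
  refine ⟨by omega, fun _ => hdT, ?_, ?_, ?_, ?_, ?_⟩
  · intro v w h
    exact_mod_cast (hval v w h.ne).1
  · intro v w h
    exact_mod_cast (hval v w h.ne).2
  · intro v w w' h h' he
    apply S.inj v w w' h.ne h'.ne
    have he' : (if a v ≤ col v w then col v w else col v w + T) =
      (if a v ≤ col v w' then col v w' else col v w' + T) := by exact_mod_cast he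
    have h2 := S.colT v w h.ne
    have h3 := S.colT v w' h'.ne
    split_ifs at he' <;> omega
  · intro v w h
    have h1 := S.sym v w h.ne
    have key : ∀ (p q : Prop) [Decidable p] [Decidable q] (x : ℕ),
        (T : ℤ) ∣ (((if p then x else x + T : ℕ) : ℤ) - ((if q then x else x + T : ℕ) : ℤ)) := by
      intro p q _ _ x
      split_ifs
      · simp
      · exact ⟨-1, by push_cast; ring⟩
      · exact ⟨1, by push_cast; ring⟩
      · simp
    show (T : ℤ) ∣ (((if a v ≤ col v w then col v w else col v w + T : ℕ) : ℤ) -
      ((if a w ≤ col w v then col w v else col w v + T : ℕ) : ℤ))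
    rw [← h1]
    exact key _ _ _
  · intro z
    have hT : (T : ℤ) ≠ 0 := by omega
    have e1 := Int.emod_nonneg z hT
    have e2 := Int.emod_lt_of_pos z (show (0 : ℤ) < T by omega)
    have e3 := Int.emod_add_mul_ediv z T
    obtain ⟨v, hv⟩ := S.cover (z % T).toNat (by omega)
    have hinj : Function.Injective (fun w : {w : V // v ≠ w} =>
        (⟨(if a v ≤ col v w.1 then col v w.1 else col v w.1 + T) - a v, by
          have := hval v w.1 w.2
          omega⟩ : Fin d)) := by
      rintro ⟨w, hw⟩ ⟨w', hw'⟩ h
      simp only [Fin.mk.injEq] at h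
      have h1 := hval v w hw
      have h1' := hval v w' hw'
      have h2 := S.colT v w hw
      have h3 := S.colT v w' hw'
      apply Subtype.ext
      apply S.inj v w w' hw hw'
      have h4 : (if a v ≤ col v w then col v w else col v w + T) =
        (if a v ≤ col v w' then col v w' else col v w' + T) := by omega
      split_ifs at h4 <;> omega
    have hcard : Fintype.card {w : V // v ≠ w} = Fintype.card (Fin d) := by
      rw [Fintype.card_fin]
      have := Fintype.card_subtype_compl (fun w : V => v = w)
      rw [hV] at this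
      rw [this]
      simp
    have hbij := (Fintype.bijective_iff_injective_and_card _).2 ⟨hinj, hcard⟩
    have hlt : (if a v ≤ (z % T).toNat then (z % T).toNat else (z % T).toNat + T) - a v < d := by
      have := S.aT v
      unfold inArc at hv
      split_ifs <;> omega
    obtain ⟨⟨w, hw⟩, hw2⟩ := hbij.2 ⟨_, hlt⟩
    simp only [Fin.mk.injEq] at hw2
    refine ⟨v, w, hw, ?_⟩
    have h1 := hval v w hw
    have h2 := S.colT v w hw
    have h3 := S.aT v
    have h4 : (if a v ≤ col v w then col v w else col v w + T) =
      (if a v ≤ (z % T).toNat then (z % T).toNat else (z % T).toNat + T) := by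
      split_ifs at * <;> omega
    show (T : ℤ) ∣ ((if a v ≤ col v w then col v w else col v w + T : ℕ) : ℤ) - z
    rw [h4]
    split_ifs
    · refine ⟨-(z / T), ?_⟩
      have : (((z % T).toNat : ℕ) : ℤ) = z % T := by omega
      rw [this]
      linarith
    · refine ⟨-(z / T) + 1, ?_⟩
      have : (((z % T).toNat : ℕ) : ℤ) = z % T := by omega
      push_cast
      rw [this]
      linarith

/-- transfer along an equivalence -/
theorem Good.equiv {V W : Type} (e : W ≃ V) {d T : ℕ} {a : V → ℕ} {col : V → V → ℕ}
    {I : Finset ℕ} (S : Good V d T a col I) :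
    Good W d T (fun v => a (e v)) (fun v w => col (e v) (e w)) I := by
  have ne : ∀ {v w}, v ≠ w → e v ≠ e w := fun h h' => h (e.injective h')
  refine ⟨fun v => S.aT _, fun v w h => S.colT _ _ (ne h), fun v w h => S.sym _ _ (ne h),
    fun v w h => S.win _ _ (ne h), fun v w w' h h' he => e.injective (S.inj _ _ _ (ne h) (ne h') he),
    ?_, fun v w h h' => S.pure _ _ (ne h) h'⟩
  intro c hc
  obtain ⟨v, hv⟩ := S.cover c hc
  refine ⟨e.symm v, ?_⟩
  rw [e.apply_symm_apply]
  exact hv

end Pool.Agent.Q132.IC
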