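import Pool.Agent.Q132.IC.Cut

set_option autoImplicit false

namespace Pool.Agent.Q132.IC

open Finset

/-- sorted periodic lift of an interval cyclic colouring of a complete bipartite graph -/
structure BSeq (m n T : ℤ) (a b : ℤ → ℤ) (C D : ℤ → ℤ → ℤ) : Prop where
  amono : Monotone a
  bmono : Monotone b
  aper : ∀ i q, a (i + m * q) = a i + T * q
  bper : ∀ j q, b (j + n * q) = b j + T * q
  clo : ∀ i j, a i ≤ C i j
  chi : ∀ i j, C i j < a i + n
  dlo : ∀ j i, b j ≤ D j i
  dhi : ∀ j i, D j i < b j + m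
  cper1 : ∀ i j q, C (i + m * q) j = C i j + T * q
  cper2 : ∀ i j q, C i (j + n * q) = C i j
  dper1 : ∀ j i q, D (j + n * q) i = D j i + T * q
  dper2 : ∀ j i q, D j (i + m * q) = D j i
  sym : ∀ i j, T ∣ C i j - D j i
  cinj : ∀ i j j', C i j = C i j' → n ∣ j - j'
  dinj : ∀ j i i', D j i = D j i' → m ∣ i - i'
  surj : ∀ z, ∃ i j, T ∣ C i j - z

theorem dvd_small {T x : ℤ} (h : T ∣ x) (h1 : -T < x) (h2 : x < T) : x = 0 := by
  obtain ⟨k, rfl⟩ := h
  have hT : 0 < T := by omega
  have k1 : -1 < k := by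
    by_contra hc
    have : k ≤ -1 := by omega
    nlinarith
  have k2 : k < 1 := by
    by_contra hc
    have : 1 ≤ k := by omega
    nlinarith
  have : k = 0 := by omega
  rw [this]; ring

namespace BSeq

variable {m n T : ℤ} {a b : ℤ → ℤ} {C D : ℤ → ℤ → ℤ}

theorem swap (S : BSeq m n T a b C D) : BSeq n m T b a D C where
  amono := S.bmono
  bmono := S.amono
  aper := S.bper
  bper := S.aper
  clo := S.dlo
  chi := S.dhi
  dlo := S.clo
  dhi := S.chi
  cper1 := S.dper1
  cper2 := S.dper2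
  dper1 := S.cper1
  dper2 := S.cper2
  sym := fun j i => by
    have := (dvd_neg (α := ℤ)).2 (S.sym i j)
    rwa [neg_sub] at this
  cinj := S.dinj
  dinj := S.cinj
  surj := fun z => by
    obtain ⟨i, j, h⟩ := S.surj z
    refine ⟨j, i, ?_⟩
    have := dvd_sub h (S.sym i j)
    rwa [show C i j - z - (C i j - D j i) = D j i - z by ring] at this

theorem astep (S : BSeq m n T a b C D) (i : ℤ) : a (i + m) = a i + T := by simpa using S.aper i 1

theorem bstep (S : BSeq m n T a b C D) (i : ℤ) : b (i + n) = b i + T := by simpa using S.bper i 1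

theorem r12 (S : BSeq m n T a b C D) (hT : m + n - 1 ≤ T) (i j : ℤ) :
    b j < a i + n ↔ ¬ a (i + m) < b j + m := by
  rw [S.astep]
  constructor
  · intro h h'
    omega
  · intro h
    by_contra hc
    have h1 := S.clo i j
    have h2 := S.chi i j
    have h3 := S.dlo j i
    have h4 := S.dhi j i
    have h5 := dvd_small (S.swap.sym j i) (by omega) (by omega)
    omega

theorem col_eq (S : BSeq m n T a b C D) (hT : m + n - 1 ≤ T) {i j : ℤ} (h1 : b j < a i + n)
    (h2 : a i < b j + m) : C i j = D j i := by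
  have h3 := S.clo i j
  have h4 := S.chi i j
  have h5 := S.dlo j i
  have h6 := S.dhi j i
  have h7 := dvd_small (S.sym i j) (by omega) (by omega)
  omega

theorem uniq (S : BSeq m n T a b C D) (hT : m + n - 1 ≤ T) {i j j' : ℤ} (h1 : b j < a i + n)
    (h2 : a i < b j + m) (h3 : b j' < a i + n) (h4 : a i < b j' + m) (h : n ∣ j - j') :
    j = j' := by
  obtain ⟨q, hq⟩ := h
  have e := S.bper j' q
  rw [← hq, add_sub_cancel] at e
  have : T * q = 0 := dvd_small (Dvd.intro _ rfl) (by omega) (by omega)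
  rcases mul_eq_zero.1 this with h0 | h0
  · omega
  · rw [h0] at hq
    omega

/-- The cut inequality. -/
theorem cut1 (S : BSeq m n T a b C D) (hT : m + n - 1 ≤ T)
    {F G : ℤ → ℤ} (hF : ∀ i j, b j < a i + n ↔ j ≤ F i) (hG : ∀ j i, a i < b j + m ↔ i ≤ G j)
    (SA SB : ℤ → ℤ) (hA : ∀ i, SA i = SA (i - 1) + (i + F i - a i))
    (hB : ∀ j, SB j = SB (j - 1) + (j + G j - b j)) (i j : ℤ) (adm : a i < b (j + 1) + m)
    (Y : ℤ) (hY0 : 0 ≤ Y) (hY : ∀ y, b (j + 1 + y) < a (i - y) + n ↔ y < Y) :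
    SA i - SA (i - Y) - SB (j + Y) + SB j + (m - n) * Y ≤ 0 := by
  obtain ⟨y0, rfl⟩ : ∃ y0 : ℕ, Y = y0 := ⟨Y.toNat, by omega⟩
  have low : ∀ y : ℕ, y < y0 → j + 1 + y ≤ F (i - y) := by
    intro y hy
    rw [← hF, hY]
    omega
  have upp : ∀ y : ℕ, y < y0 → G (j + 1 + y) < i - y + m := by
    intro y hy
    have h1 : b (j + 1 + y) < a (i - y) + n := (hY _).2 (by omega)
    rw [S.r12 hT, hG] at h1
    omega
  have key := cut i (j + 1) y0 (fun y => (F (i - y) - j).toNat)
    (fun y => (i + m - G (j + 1 + y)).toNat)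
    (fun u l => b l < a u + n ∧ a u < b l + m) C b (fun u => a u + n) S.bmono
    (fun x y hxy => by
      have := S.amono hxy
      show a x + n ≤ a y + n
      omega) ?_ ?_ ?_ ?_ ?_ ?_ ?_
  · have e1 : ∑ y ∈ range y0, (((F (i - (y : ℕ)) - j).toNat : ℕ) : ℤ) =
        ∑ y ∈ range y0, (F (i - (y : ℕ)) - j) := by
      apply sum_congr rfl
      intro y hy
      rw [mem_range] at hy
      have := low y hy
      omega
    have e2 : ∑ y ∈ range y0, (((i + m - G (j + 1 + (y : ℕ))).toNat : ℕ) : ℤ) =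
        ∑ y ∈ range y0, (i + m - G (j + 1 + (y : ℕ))) := by
      apply sum_congr rfl
      intro y hy
      rw [mem_range] at hy
      have := upp y hy
      omega
    rw [e1, e2] at key
    have s1 := sum_up SB (fun j => j + G j - b j) hB j y0
    have s2 := sum_down SA (fun i => i + F i - a i) hA i y0
    have e3 : ∀ k : ℕ, ∑ y ∈ range k, (2 * (y : ℤ) + 1) = (k : ℤ) ^ 2 := by
      intro k
      induction k with
      | zero => simp
      | succ m ih => rw [sum_range_succ, ih]; push_cast; ring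
    have e4 : ∑ y ∈ range y0, (F (i - (y : ℕ)) - j) + ∑ y ∈ range y0, (i + m - G (j + 1 + (y : ℕ))) -
        ∑ y ∈ range y0, (a (i - (y : ℕ)) + n - b (j + 1 + (y : ℕ))) =
        ∑ y ∈ range y0, ((i - (y : ℕ)) + F (i - (y : ℕ)) - a (i - (y : ℕ))) -
        ∑ y ∈ range y0, ((j + 1 + (y : ℕ)) + G (j + 1 + (y : ℕ)) - b (j + 1 + (y : ℕ))) +
        ∑ y ∈ range y0, (2 * (y : ℤ) + 1) + ∑ y ∈ range y0, (m - n) := by
      rw [← sum_add_distrib, ← sum_sub_distrib, ← sum_sub_distrib, ← sum_add_distrib,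
        ← sum_add_distrib]
      apply sum_congr rfl
      intro y _
      ring
    rw [e3] at e4
    simp only [sum_const, card_range, nsmul_eq_mul] at e4
    linarith
  · intro y z hy hz
    have h1 := low y hy
    constructor
    · rw [hF]
      omega
    · have h2 : a (i - y) ≤ a i := S.amono (by omega)
      have h3 : b (j + 1) ≤ b (j + 1 + z) := S.bmono (by omega)
      omega
  · intro y z hy hz
    have h1 := upp y hy
    constructor
    · rw [S.r12 hT, hG]
      omega
    · have h2 : a (i - z) ≤ a i := S.amono (by omega)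
      have h3 : b (j + 1) ≤ b (j + 1 + y) := S.bmono (by omega)
      omega
  · rintro u l ⟨h1, h2⟩
    have h3 := S.col_eq hT h1 h2
    have h4 := S.dlo l u
    have h5 := S.chi u l
    constructor
    · omega
    · omega
  · rintro u l l' ⟨h1, h2⟩ ⟨h3, h4⟩ h5
    exact S.uniq hT h1 h2 h3 h4 (S.cinj u l l' h5)
  · rintro u u' l ⟨h1, h2⟩ ⟨h3, h4⟩ h5
    have c1 := S.col_eq hT h1 h2
    have c2 := S.col_eq hT h3 h4
    exact S.swap.uniq (by omega) h2 h1 h4 h3 (S.dinj l u u' (by omega))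
  · intro y hy
    have h1 := (hY y).not.2 (by omega)
    omega
  · intro y hy
    have h1 := (hY y).2 (by omega)
    omega

theorem exists_F (S : BSeq m n T a b C D) (hm : 1 ≤ m) (hn : 1 ≤ n) (hT : m + n - 1 ≤ T) :
    ∃ F : ℤ → ℤ, ∀ i j, b j < a i + n ↔ j ≤ F i := by
  have : ∀ i, ∃ f : ℤ, ∀ j, b j < a i + n ↔ j ≤ f := by
    intro i
    have hTpos : 1 ≤ T := by omega
    set K : ℤ := |a i| + |b 0| + n with hK
    have k1 := abs_nonneg (a i)
    have k2 := abs_nonneg (b 0)
    have k3 := le_abs_self (a i)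
    have k4 := neg_abs_le (a i)
    have k5 := le_abs_self (b 0)
    have k6 := neg_abs_le (b 0)
    have hK0 : 0 ≤ K := by omega
    have hTK : K ≤ T * K := by nlinarith
    apply exists_cut _ (fun x y hxy hy => lt_of_le_of_lt (S.bmono hxy) hy) (0 + n * (-K)) (0 + n * K)
    · rw [S.bper]
      have : T * -K = - (T * K) := by ring
      omega
    · rw [S.bper]
      omega
  choose f hf using this
  exact ⟨f, hf⟩

theorem exists_Y (S : BSeq m n T a b C D) (hT : m + n - 1 ≤ T) (hm : 1 ≤ m) (hn : 1 ≤ n)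
    (i j : ℤ) (adm1 : a i < b (j + 1) + m) (adm2 : b j < a (i + 1) + n) :
    ∃ Y, 0 ≤ Y ∧ ∀ y, b (j + 1 + y) < a (i - y) + n ↔ y < Y := by
  obtain ⟨f, hf⟩ := exists_cut (fun y => b (j + 1 + y) < a (i - y) + n) (by
    intro x y hxy hy
    have h1 : b (j + 1 + x) ≤ b (j + 1 + y) := S.bmono (by omega)
    have h2 : a (i - y) ≤ a (i - x) := S.amono (by omega)
    omega) (-1) (m + n) (by
      show b (j + 1 + -1) < a (i - -1) + n
      rw [show j + 1 + -1 = j by ring, show i - -1 = i + 1 by ring]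
      exact adm2) (by
      have h1 : b (j + 1 + n) ≤ b (j + 1 + (m + n)) := S.bmono (by omega)
      have h2 : a (i - (m + n)) ≤ a (i - m) := S.amono (by omega)
      have h3 := S.bstep (j + 1)
      have h4 := S.astep (i - m)
      rw [sub_add_cancel] at h4
      omega)
  refine ⟨f + 1, ?_, fun y => by rw [hf]; omega⟩
  have := (hf (-1)).1 (by
      show b (j + 1 + -1) < a (i - -1) + n
      rw [show j + 1 + -1 = j by ring, show i - -1 = i + 1 by ring]
      exact adm2)
  omega

theorem per_diff {p g : ℤ} {X SX : ℤ → ℤ} (h : ∀ j, SX j = SX (j - 1) + X j)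
    (hX : ∀ j, X (j + p) = X j + g) : ∃ H : ℤ, ∀ j, SX (j + p) = SX j + g * j + H := by
  refine ⟨SX p - SX 0, ?_⟩
  have st : ∀ j, SX (j + p) - SX j - g * j = SX (j - 1 + p) - SX (j - 1) - g * (j - 1) := by
    intro j
    have h1 := h (j + p)
    have h2 := h j
    rw [hX] at h1
    rw [show j + p - 1 = j - 1 + p by ring] at h1
    rw [h1, h2]
    ring
  have up : ∀ y : ℕ, SX ((y : ℤ) + p) - SX y - g * y = SX (0 + p) - SX 0 - g * 0 := by
    intro y
    induction y with
    | zero => simp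
    | succ y ih =>
      rw [← ih, st]
      push_cast
      simp only [add_sub_cancel_right]
  have dn : ∀ y : ℕ, SX (-(y : ℤ) + p) - SX (-y) - g * (-y) = SX (0 + p) - SX 0 - g * 0 := by
    intro y
    induction y with
    | zero => simp
    | succ y ih =>
      rw [← ih, st (-(y : ℤ))]
      push_cast
      rw [show -((y : ℤ) + 1) = -(y : ℤ) - 1 by ring]
  intro j
  rcases le_total 0 j with h | h
  · have := up j.toNat
    rw [show ((j.toNat : ℕ) : ℤ) = j by omega] at this
    rw [zero_add] at this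
    linarith
  · have := dn (-j).toNat
    rw [show -(((-j).toNat : ℕ) : ℤ) = j by omega] at this
    rw [zero_add] at this
    linarith

theorem shift_window {m : ℤ} (hm : 1 ≤ m) (x i : ℤ) :
    ∃ q, i + 1 ≤ x + m * q ∧ x + m * q ≤ i + m := by
  refine ⟨-((x - (i + 1)) / m), ?_⟩
  have e1 := Int.emod_add_mul_ediv (x - (i + 1)) m
  have e2 := Int.emod_nonneg (x - (i + 1)) (show m ≠ 0 by omega)
  have e3 := Int.emod_lt_of_pos (x - (i + 1)) (show 0 < m by omega)
  constructor
  · linarith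
  · have : x + m * -((x - (i + 1)) / m) = i + 1 + (x - (i + 1)) % m := by linarith
    omega

/-- The upper bound for complete bipartite graphs. -/
theorem bound (S : BSeq m n T a b C D) (hm : 1 ≤ m) (hn : 1 ≤ n) : T ≤ m + n := by
  by_contra hc
  have hT : m + n + 1 ≤ T := by omega
  have hT' : m + n - 1 ≤ T := by omega
  have hT'' : n + m - 1 ≤ T := by omega
  obtain ⟨F, hF⟩ := S.exists_F hm hn hT'
  obtain ⟨G, hG⟩ := S.swap.exists_F hn hm hT''
  obtain ⟨SA, hA⟩ := exists_sum (fun i => i + F i - a i)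
  obtain ⟨SB, hB⟩ := exists_sum (fun j => j + G j - b j)
  have Fper : ∀ i, F (i + m) = F i + n := by
    intro i
    have key : ∀ l, l ≤ F (i + m) ↔ l ≤ F i + n := by
      intro l
      rw [← hF, S.astep]
      have e := hF i (l - n)
      have e2 := S.bstep (l - n)
      rw [show l - n + n = l by ring] at e2
      rw [show (l ≤ F i + n) ↔ (l - n ≤ F i) by omega, ← e]
      omega
    have a := (key (F (i + m))).1 le_rfl
    have b := (key (F i + n)).2 le_rfl
    omega
  have Gper : ∀ j, G (j + n) = G j + m := by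
    intro j
    have key : ∀ l, l ≤ G (j + n) ↔ l ≤ G j + m := by
      intro l
      rw [← hG, S.bstep]
      have e := hG j (l - m)
      have e2 := S.astep (l - m)
      rw [show l - m + m = l by ring] at e2
      rw [show (l ≤ G j + m) ↔ (l - m ≤ G j) by omega, ← e]
      omega
    have a := (key (G (j + n))).1 le_rfl
    have b := (key (G j + m)).2 le_rfl
    omega
  set θ : ℤ := T - m - n with hθ
  obtain ⟨HA, hHA⟩ := per_diff (p := m) (g := -θ) hA (by
    intro i
    rw [Fper, S.astep]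
    ring)
  obtain ⟨HB, hHB⟩ := per_diff (p := n) (g := -θ) hB (by
    intro j
    rw [Gper, S.bstep]
    ring)
  set M : ℤ := m + n with hM
  set Φ : ℤ → ℤ → ℤ := fun i j => SA i + SB j + (n - m) * j with hΦ
  set K : ℤ := HA + HB + (n - m) * n with hK
  set Ψ : ℤ → ℤ → ℤ := fun i j => 2 * M * Φ i j + θ * (i + j) ^ 2 + (-2 * K - θ * M) * (i + j)
    with hΨ
  have Ψper : ∀ i j, Ψ (i + m) (j + n) = Ψ i j := by
    intro i j
    simp only [hΨ, hΦ]
    rw [hHA, hHB]
    simp only [hK, hM]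
    ring
  have Ψper' : ∀ (q : ℕ) i j, Ψ (i + m * q) (j + n * q) = Ψ i j := by
    intro q
    induction q with
    | zero => intro i j; simp
    | succ q ih =>
      intro i j
      push_cast
      rw [show i + m * ((q : ℤ) + 1) = (i + m * q) + m by ring,
        show j + n * ((q : ℤ) + 1) = (j + n * q) + n by ring, Ψper, ih]
  have Ψper2 : ∀ (q : ℤ) i j, Ψ (i + m * q) (j + n * q) = Ψ i j := by
    intro q i j
    rcases le_total 0 q with h | h
    · have := Ψper' q.toNat i j
      rwa [show ((q.toNat : ℕ) : ℤ) = q by omega] at this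
    · have := Ψper' (-q).toNat (i + m * q) (j + n * q)
      rw [show (((-q).toNat : ℕ) : ℤ) = -q by omega] at this
      rw [← this]
      congr 1 <;> ring
  -- admissibility
  set Adm : ℤ → ℤ → Prop := fun i j => a i < b (j + 1) + m ∧ b j < a (i + 1) + n with hAdm
  have Admper : ∀ q i j, Adm i j → Adm (i + m * q) (j + n * q) := by
    rintro q i j ⟨h1, h2⟩
    constructor
    · rw [show j + n * q + 1 = (j + 1) + n * q by ring, S.aper, S.bper]
      omega
    · rw [show i + m * q + 1 = (i + 1) + m * q by ring, S.aper, S.bper]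
      omega
  have Fmono : ∀ i i', i ≤ i' → F i ≤ F i' := by
    intro i i' h
    rw [← hF]
    have h1 := (hF i (F i)).2 le_rfl
    have h2 := S.amono h
    omega
  -- maximum
  obtain ⟨i0, j0, hadm, hmax⟩ : ∃ i0 j0, Adm i0 j0 ∧ ∀ i j, Adm i j → Ψ i j ≤ Ψ i0 j0 := by
    classical
    have hne : (((Finset.Ico (0 : ℤ) m) ×ˢ (Finset.Icc (F 0 - n) (F m))).filter
        (fun p => Adm p.1 p.2)).Nonempty := by
      refine ⟨(0, F 0), ?_⟩
      rw [mem_filter, mem_product, mem_Ico, mem_Icc]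
      refine ⟨⟨⟨le_rfl, by omega⟩, by omega, Fmono 0 m (by omega)⟩, ?_, ?_⟩
      · have h1 := (hF 0 (F 0 + 1)).not.2 (by omega)
        show a 0 < b (F 0 + 1) + m
        omega
      · show b (F 0) < a (0 + 1) + n
        rw [hF]
        exact Fmono 0 (0 + 1) (by omega)
    obtain ⟨⟨i0, j0⟩, h1, h2⟩ := exists_max_image _ (fun p : ℤ × ℤ => Ψ p.1 p.2) hne
    rw [mem_filter] at h1
    refine ⟨i0, j0, h1.2, ?_⟩
    intro i j hij
    obtain ⟨q, hq1, hq2⟩ := shift_window hm i (-1)
    have hij' := Admper q i j hij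
    rw [← Ψper2 q i j]
    apply h2 (i + m * q, j + n * q)
    rw [mem_filter, mem_product, mem_Ico, mem_Icc]
    refine ⟨⟨⟨by simpa using hq1, by simp only []; omega⟩, ?_, ?_⟩, hij'⟩
    · obtain ⟨h3, _⟩ := hij'
      show F 0 - n ≤ j + n * q
      have h0 : a 0 ≤ a (i + m * q) := S.amono (by omega)
      by_contra hlt
      have h5 := (hF 0 (j + n * q + 1 + n)).2 (by omega)
      rw [S.bstep] at h5
      omega
    · obtain ⟨_, h4⟩ := hij'
      rw [hF] at h4
      exact h4.trans (Fmono _ _ (by omega))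
  obtain ⟨ad1, ad2⟩ := hadm
  obtain ⟨Y1, hY1, hY1'⟩ := S.exists_Y hT' hm hn i0 j0 ad1 ad2
  obtain ⟨Y2, hY2, hY2'⟩ := S.swap.exists_Y hT'' hn hm j0 i0 ad2 ad1
  have c1 := S.cut1 hT' hF hG SA SB hA hB i0 j0 ad1 Y1 hY1 hY1'
  have c2 := S.swap.cut1 hT'' hG hF SB SA hB hA j0 i0 ad2 Y2 hY2 hY2'
  have A1 : Adm (i0 - Y1) (j0 - Y2) := by
    constructor
    · rcases eq_or_lt_of_le hY2 with h | h
      · have h1 : a (i0 - Y1) ≤ a i0 := S.amono (by omega)
        rw [← h, sub_zero]
        omega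
      · have h1 := (hY2' (Y2 - 1)).2 (by omega)
        rw [show i0 + 1 + (Y2 - 1) = i0 + Y2 by ring, show j0 - (Y2 - 1) = j0 - Y2 + 1 by ring] at h1
        have h2 : a (i0 - Y1) ≤ a (i0 + Y2) := S.amono (by omega)
        omega
    · rcases eq_or_lt_of_le hY1 with h | h
      · have h1 : b (j0 - Y2) ≤ b j0 := S.bmono (by omega)
        rw [← h, sub_zero]
        omega
      · have h1 := (hY1' (Y1 - 1)).2 (by omega)
        rw [show j0 + 1 + (Y1 - 1) = j0 + Y1 by ring, show i0 - (Y1 - 1) = i0 - Y1 + 1 by ring] at h1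
        have h2 : b (j0 - Y2) ≤ b (j0 + Y1) := S.bmono (by omega)
        omega
  have A2 : Adm (i0 + Y2) (j0 + Y1) := by
    constructor
    · rcases eq_or_lt_of_le hY2 with h | h
      · have h1 : b (j0 + 1) ≤ b (j0 + Y1 + 1) := S.bmono (by omega)
        rw [← h, add_zero]
        omega
      · have h1 := (hY2' (Y2 - 1)).2 (by omega)
        rw [show i0 + 1 + (Y2 - 1) = i0 + Y2 by ring, show j0 - (Y2 - 1) = j0 - Y2 + 1 by ring] at h1
        have h2 : b (j0 - Y2 + 1) ≤ b (j0 + Y1 + 1) := S.bmono (by omega)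
        omega
    · rcases eq_or_lt_of_le hY1 with h | h
      · have h1 : a (i0 + 1) ≤ a (i0 + Y2 + 1) := S.amono (by omega)
        rw [← h, add_zero]
        omega
      · have h1 := (hY1' (Y1 - 1)).2 (by omega)
        rw [show j0 + 1 + (Y1 - 1) = j0 + Y1 by ring, show i0 - (Y1 - 1) = i0 - Y1 + 1 by ring] at h1
        have h2 : a (i0 - Y1 + 1) ≤ a (i0 + Y2 + 1) := S.amono (by omega)
        omega
  have x1 := hmax _ _ A1
  have x2 := hmax _ _ A2
  have hμ : Y1 + Y2 = 0 := by
    have e : Ψ (i0 - Y1) (j0 - Y2) + Ψ (i0 + Y2) (j0 + Y1) - 2 * Ψ i0 j0 =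
        2 * M * (-(SA i0 - SA (i0 - Y1) - SB (j0 + Y1) + SB j0 + (m - n) * Y1)) +
        2 * M * (-(SB j0 - SB (j0 - Y2) - SA (i0 + Y2) + SA i0 + (n - m) * Y2)) +
        2 * θ * (Y1 + Y2) ^ 2 := by
      simp only [hΨ, hΦ]
      ring
    have p1 : 0 ≤ 2 * M * (-(SA i0 - SA (i0 - Y1) - SB (j0 + Y1) + SB j0 + (m - n) * Y1)) :=
      mul_nonneg (by omega) (by omega)
    have p2 : 0 ≤ 2 * M * (-(SB j0 - SB (j0 - Y2) - SA (i0 + Y2) + SA i0 + (n - m) * Y2)) :=
      mul_nonneg (by omega) (by omega)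
    have p3 : 2 * θ * (Y1 + Y2) ^ 2 ≤ 0 := by linarith
    have p4 : 1 ≤ θ := by omega
    have p5 : (Y1 + Y2) ^ 2 ≤ 0 := by nlinarith [sq_nonneg (Y1 + Y2)]
    have p6 : (Y1 + Y2) ^ 2 = 0 := le_antisymm p5 (sq_nonneg _)
    exact pow_eq_zero_iff (n := 2) (by norm_num) |>.1 p6
  have z1 : ¬ b (j0 + 1) < a i0 + n := by
    have := (hY1' 0).not.2 (by omega)
    simpa using this
  have z2 : ¬ a (i0 + 1) < b j0 + m := by
    have := (hY2' 0).not.2 (by omega)
    simpa using this
  -- final contradiction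
  obtain ⟨i1, j1, h1⟩ := S.surj (a (i0 + 1) - 1)
  obtain ⟨q, hq1, hq2⟩ := shift_window hm i1 i0
  obtain ⟨r, hr1, hr2⟩ := shift_window hn j1 j0
  have hz : T ∣ C (i1 + m * q) (j1 + n * r) - (a (i0 + 1) - 1) := by
    rw [S.cper1, S.cper2]
    have : C i1 j1 + T * q - (a (i0 + 1) - 1) = (C i1 j1 - (a (i0 + 1) - 1)) + T * q := by ring
    rw [this]
    exact dvd_add h1 (Dvd.intro _ rfl)
  generalize i1 + m * q = i at *
  generalize j1 + n * r = j at *
  have w1 : ∀ i j, i0 + 1 ≤ i → j ≤ j0 + n → b j < a i + n := by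
    intro i j h1 h2
    rw [S.r12 hT']
    intro h3
    have h4 := S.astep (i0 + 1)
    have h5 := S.bstep j0
    have h6 : a (i0 + 1 + m) ≤ a (i + m) := S.amono (by omega)
    have h7 : b j ≤ b (j0 + n) := S.bmono h2
    omega
  have w2 : a i < b j + m := by
    rw [S.swap.r12 hT'']
    intro h3
    have h4 := S.bstep (j0 + 1)
    have h5 := S.astep i0
    have h6 : b (j0 + 1 + n) ≤ b (j + n) := S.bmono (by omega)
    have h7 : a i ≤ a (i0 + m) := S.amono hq2
    omega
  have w3 := S.col_eq hT' (w1 i j hq1 hr2) w2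
  have w4 := w1 (i0 + 1) (j0 + n) le_rfl le_rfl
  have w5 : b j ≤ b (j0 + n) := S.bmono hr2
  have w6 := S.dhi j i
  have w7 := S.clo i j
  have w8 : a (i0 + 1) ≤ a i := S.amono hq1
  have := dvd_small hz (by omega) (by omega)
  omega

end BSeq

end Pool.Agent.Q132.IC
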