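import Pool.Agent.Q132.IC.Cut

set_option autoImplicit false

namespace Pool.Agent.Q132.IC

open Finset

/-- sorted periodic lift of an interval cyclic colouring of a complete graph -/
structure Seq (N T : ℤ) (v : ℤ → ℤ) (C : ℤ → ℤ → ℤ) : Prop where
  mono : Monotone v
  per : ∀ j q, v (j + N * q) = v j + T * q
  lo : ∀ j l, ¬ N ∣ l - j → v j ≤ C j l
  hi : ∀ j l, ¬ N ∣ l - j → C j l < v j + (N - 1)
  per1 : ∀ j l q, C (j + N * q) l = C j l + T * q
  per2 : ∀ j l q, C j (l + N * q) = C j l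
  sym : ∀ j l, ¬ N ∣ l - j → T ∣ C j l - C l j
  inj : ∀ j l l', ¬ N ∣ l - j → ¬ N ∣ l' - j → C j l = C j l' → N ∣ l - l'
  surj : ∀ z, ∃ j l, ¬ N ∣ l - j ∧ T ∣ C j l - z

namespace Seq

variable {N T : ℤ} {v : ℤ → ℤ} {C : ℤ → ℤ → ℤ}

theorem nd {j l : ℤ} (h1 : j < l) (h2 : l < j + N) : ¬ N ∣ l - j := by
  intro h
  have := Int.le_of_dvd (by omega) h
  omega

theorem nd' {j l : ℤ} (h1 : j < l) (h2 : l < j + N) : ¬ N ∣ j - l := by
  intro h
  have h' : N ∣ l - j := by
    have := (dvd_neg (α := ℤ)).2 h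
    simpa using this
  exact nd h1 h2 h'

/-- multiples of `T` in a window -/
theorem mul_window {T x : ℤ} (h : T ∣ x) (h1 : -T < x) (h2 : x < 2 * T) : x = 0 ∨ x = T := by
  obtain ⟨k, rfl⟩ := h
  have hT : 0 < T := by omega
  have k1 : -1 < k := by
    by_contra hc
    have : k ≤ -1 := by omega
    nlinarith
  have k2 : k < 2 := by
    by_contra hc
    have : 2 ≤ k := by omega
    nlinarith
  have : k = 0 ∨ k = 1 := by omega
  rcases this with rfl | rfl
  · left; ring
  · right; ring

/-- each pair is either direct or wrapped -/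
theorem dich (S : Seq N T v C) (hN : 4 ≤ N) (hT : 2 * N - 3 ≤ T) {j l : ℤ} (h1 : j < l)
    (h2 : l < j + N) :
    (v l ≤ v j + (N - 2) ∧ C j l = C l j) ∨ (v (j + N) ≤ v l + (N - 2)) := by
  have a1 := S.lo j l (nd h1 h2)
  have a2 := S.hi j l (nd h1 h2)
  have a3 := S.lo l j (nd' h1 h2)
  have a4 := S.hi l j (nd' h1 h2)
  have a5 := S.mono h1.le
  have a6 : v l ≤ v (j + N) := S.mono h2.le
  have a7 : v (j + N) = v j + T := by simpa using S.per j 1
  have a8 := S.sym l j (nd' h1 h2)
  rcases mul_window a8 (by omega) (by omega) with h | h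
  · left
    constructor <;> omega
  · right
    omega

theorem step (S : Seq N T v C) (j : ℤ) : v (j + N) = v j + T := by simpa using S.per j 1

/-- direct iff not wrapped -/
theorem direct_iff (S : Seq N T v C) (hN : 4 ≤ N) (hT : 2 * N - 3 ≤ T) {j l : ℤ} (h1 : j < l)
    (h2 : l < j + N) : v l ≤ v j + (N - 2) ↔ ¬ v (j + N) ≤ v l + (N - 2) := by
  have := S.step j
  constructor
  · intro h h'
    omega
  · intro h
    rcases S.dich hN hT h1 h2 with h' | h'
    · exact h'.1
    · exact absurd h' h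

theorem direct_col (S : Seq N T v C) (hN : 4 ≤ N) (hT : 2 * N - 3 ≤ T) {j l : ℤ} (h1 : j < l)
    (h2 : l < j + N) (h : v l ≤ v j + (N - 2)) : C j l = C l j := by
  rcases S.dich hN hT h1 h2 with h' | h'
  · exact h'.2
  · exact absurd h' ((S.direct_iff hN hT h1 h2).1 h)

theorem exists_T (S : Seq N T v C) (hN : 4 ≤ N) (hT : 2 * N - 3 ≤ T) :
    ∃ f : ℤ → ℤ, ∀ j l, v l ≤ v j + (N - 2) ↔ l ≤ f j := by
  have : ∀ j, ∃ f : ℤ, ∀ l, v l ≤ v j + (N - 2) ↔ l ≤ f := by
    intro j
    apply exists_cut _ (fun x y hxy hy => (S.mono hxy).trans hy) j (j + N)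
    · show v j ≤ v j + (N - 2)
      omega
    · rw [S.step]
      omega
  choose f hf using this
  exact ⟨f, hf⟩

theorem exists_Y (S : Seq N T v C) (hN : 4 ≤ N) (hT : 2 * N - 3 ≤ T) {n : ℤ} (hn : N = 2 * n) :
    ∃ Y : ℤ → ℤ, (∀ k y, v (k + y) ≤ v (k + 1 - y) + (N - 2) ↔ y ≤ Y k) := by
  have : ∀ k, ∃ f : ℤ, ∀ y, v (k + y) ≤ v (k + 1 - y) + (N - 2) ↔ y ≤ f := by
    intro k
    apply exists_cut (fun y => v (k + y) ≤ v (k + 1 - y) + (N - 2)) _ 0 (n + 1)
    · have := S.mono (show k ≤ k + 1 by omega)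
      simp only [add_zero, sub_zero]
      omega
    · have h1 := S.step (k + 1 - (n + 1))
      have h2 : v (k + 1 - (n + 1) + N) ≤ v (k + (n + 1)) := S.mono (by omega)
      omega
    · intro x y hxy hy
      have h1 : v (k + x) ≤ v (k + y) := S.mono (by omega)
      have h2 : v (k + 1 - y) ≤ v (k + 1 - x) := S.mono (by omega)

      omega
  choose f hf using this
  exact ⟨f, hf⟩

section main

variable {n : ℤ} {Y f : ℤ → ℤ}

theorem Y_nonneg (S : Seq N T v C) (hN : 4 ≤ N)
    (hY : ∀ k y, v (k + y) ≤ v (k + 1 - y) + (N - 2) ↔ y ≤ Y k) (k : ℤ) : 0 ≤ Y k := by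
  rw [← hY]
  have := S.mono (show k ≤ k + 1 by omega)
  simp only [add_zero, sub_zero]
  omega

theorem Y_le (S : Seq N T v C) (hN : 4 ≤ N) (hT : 2 * N - 3 ≤ T) (hn : N = 2 * n)
    (hY : ∀ k y, v (k + y) ≤ v (k + 1 - y) + (N - 2) ↔ y ≤ Y k) (k : ℤ) : Y k ≤ n := by
  by_contra hc
  have hc' : n + 1 ≤ Y k := by omega
  rw [← hY] at hc'
  have h1 := S.step (k + 1 - (n + 1))
  have h2 : v (k + 1 - (n + 1) + N) ≤ v (k + (n + 1)) := S.mono (by omega)
  omega

theorem Y_anti (S : Seq N T v C) (hN : 4 ≤ N) (hT : 2 * N - 3 ≤ T) (hn : N = 2 * n)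
    (hY : ∀ k y, v (k + y) ≤ v (k + 1 - y) + (N - 2) ↔ y ≤ Y k) (k : ℤ) :
    Y (k + n) = n - Y k := by
  have key : ∀ y, 1 ≤ y → y ≤ n → (y ≤ Y k ↔ y ≤ n - Y (k + n)) := by
    intro y h1 h2
    have e := S.direct_iff hN hT (j := k + 1 - y) (l := k + y) (by omega) (by omega)
    rw [hY k y] at e
    have e2 := hY (k + n) (n + 1 - y)
    rw [show k + n + (n + 1 - y) = k + 1 - y + N by omega,
      show k + n + 1 - (n + 1 - y) = k + y by omega] at e2
    rw [e, e2]
    omega
  have b1 := S.Y_nonneg hN hY k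
  have b2 := S.Y_le hN hT hn hY k
  have b3 := S.Y_nonneg hN hY (k + n)
  have b4 := S.Y_le hN hT hn hY (k + n)
  have k1 : Y k ≤ n - Y (k + n) := by
    rcases eq_or_lt_of_le b1 with h | h
    · omega
    · exact (key (Y k) (by omega) b2).1 le_rfl
  have k2 : n - Y (k + n) ≤ Y k := by
    rcases eq_or_lt_of_le b4 with h | h
    · omega
    · exact (key (n - Y (k + n)) (by omega) (by omega)).2 le_rfl
  omega

theorem Y_step (S : Seq N T v C)
    (hY : ∀ k y, v (k + y) ≤ v (k + 1 - y) + (N - 2) ↔ y ≤ Y k) (k : ℤ) :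
    Y (k + 1) ≤ Y k + 1 ∧ Y k ≤ Y (k + 1) + 1 := by
  constructor
  · have h := (hY (k + 1) (Y (k + 1))).2 le_rfl
    have h1 : v (k + (Y (k + 1) - 1)) ≤ v (k + 1 + Y (k + 1)) := S.mono (by omega)
    have h2 : v (k + 1 + 1 - Y (k + 1)) = v (k + 1 - (Y (k + 1) - 1)) := by
      congr 1; ring
    have := (hY k (Y (k + 1) - 1)).1 (by omega)
    omega
  · have h := (hY k (Y k)).2 le_rfl
    have h1 : v (k + 1 + (Y k - 1)) = v (k + Y k) := by congr 1; ring
    have h2 : v (k + 1 - Y k) ≤ v (k + 1 + 1 - (Y k - 1)) := S.mono (by omega)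
    have := (hY (k + 1) (Y k - 1)).1 (by omega)
    omega

theorem L_mono (S : Seq N T v C)
    (hY : ∀ k y, v (k + y) ≤ v (k + 1 - y) + (N - 2) ↔ y ≤ Y k) :
    Monotone (fun k => k - Y k) := by
  apply monotone_int_of_le_succ
  intro k
  have := S.Y_step hY k
  omega

theorem R_mono (S : Seq N T v C)
    (hY : ∀ k y, v (k + y) ≤ v (k + 1 - y) + (N - 2) ↔ y ≤ Y k) :
    Monotone (fun k => k + Y k) := by
  apply monotone_int_of_le_succ
  intro k
  have := S.Y_step hY k
  omega

theorem L_lip (S : Seq N T v C)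
    (hY : ∀ k y, v (k + y) ≤ v (k + 1 - y) + (N - 2) ↔ y ≤ Y k) :
    Monotone (fun k => 2 * k - (k - Y k)) := by
  apply monotone_int_of_le_succ
  intro k
  have := S.Y_step hY k
  omega

/-- The cut inequality for the complete graph. -/
theorem cut_ineq (S : Seq N T v C) (hN : 4 ≤ N) (hT : 2 * N - 3 ≤ T) (hn : N = 2 * n)
    (hY : ∀ k y, v (k + y) ≤ v (k + 1 - y) + (N - 2) ↔ y ≤ Y k)
    (hf : ∀ j l, v l ≤ v j + (N - 2) ↔ l ≤ f j) (Θ : ℤ → ℤ)
    (hΘ : ∀ j, Θ j = Θ (j - 1) + (j + f j - v j)) (k : ℤ) :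
    Y k ≤ Θ (k + Y k) + Θ (k - Y k) - 2 * Θ k := by
  obtain ⟨y0, hy0⟩ : ∃ y0 : ℕ, Y k = y0 := ⟨(Y k).toNat, by
    have := S.Y_nonneg hN hY k
    omega⟩
  have fj : ∀ j, j ≤ f j := fun j => (hf j j).1 (by omega)
  have fj' : ∀ j, f j < j + N := by
    intro j
    by_contra hc
    have hc' : j + N ≤ f j := by omega
    rw [← hf, S.step] at hc'
    omega
  have low : ∀ y : ℕ, y < y0 → k + 1 + y ≤ f (k - y) := by
    intro y hy
    rw [← hf]
    have := (hY k (y + 1)).2 (by omega)
    rw [show k + ((y : ℤ) + 1) = k + 1 + y by ring, show k + 1 - ((y : ℤ) + 1) = k - y by ring] at this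
    exact this
  have yn : (y0 : ℤ) ≤ n := by
    rw [← hy0]; exact S.Y_le hN hT hn hY k
  have upp : ∀ y : ℕ, y < y0 → f (k + 1 + y) < k - y + N := by
    intro y hy
    have e := (S.direct_iff hN hT (j := k - y) (l := k + 1 + y) (by omega) (by omega)).1
      ((hf _ _).2 (low y hy))
    rw [hf] at e
    omega
  have key := cut k (k + 1) y0 (fun y => (f (k - y) - k).toNat) (fun y => (k + N - f (k + 1 + y)).toNat)
    (fun u l => u < l ∧ l ≤ f u) C v (fun j => v j + (N - 1)) S.mono (fun x y hxy => by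
      have := S.mono hxy
      show v x + (N - 1) ≤ v y + (N - 1)
      omega) ?_ ?_ ?_ ?_ ?_ ?_ ?_
  · have e1 : ∑ y ∈ range y0, (((f (k - (y : ℕ)) - k).toNat : ℕ) : ℤ) =
        ∑ y ∈ range y0, (f (k - (y : ℕ)) - k) := by
      apply sum_congr rfl
      intro y hy
      rw [mem_range] at hy
      have := low y hy
      omega
    have e2 : ∑ y ∈ range y0, (((k + N - f (k + 1 + (y : ℕ))).toNat : ℕ) : ℤ) =
        ∑ y ∈ range y0, (k + N - f (k + 1 + (y : ℕ))) := by
      apply sum_congr rfl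
      intro y hy
      rw [mem_range] at hy
      have := upp y hy
      omega
    rw [e1, e2] at key
    have s1 := sum_up Θ (fun j => j + f j - v j) hΘ k y0
    have s2 := sum_down Θ (fun j => j + f j - v j) hΘ k y0
    have e3 : ∀ m : ℕ, ∑ y ∈ range m, (2 * (y : ℤ) + 1) = (m : ℤ) ^ 2 := by
      intro m
      induction m with
      | zero => simp
      | succ m ih => rw [sum_range_succ, ih]; push_cast; ring
    rw [hy0]
    have e4 : ∑ y ∈ range y0, (f (k - (y : ℕ)) - k) + ∑ y ∈ range y0, (k + N - f (k + 1 + (y : ℕ))) -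
        ∑ y ∈ range y0, (v (k - (y : ℕ)) + (N - 1) - v (k + 1 + (y : ℕ))) =
        ∑ y ∈ range y0, ((k - (y : ℕ)) + f (k - (y : ℕ)) - v (k - (y : ℕ))) -
        ∑ y ∈ range y0, ((k + 1 + (y : ℕ)) + f (k + 1 + (y : ℕ)) - v (k + 1 + (y : ℕ))) +
        ∑ y ∈ range y0, (2 * (y : ℤ) + 1) + ∑ y ∈ range y0, (1 : ℤ) := by
      rw [← sum_add_distrib, ← sum_sub_distrib, ← sum_sub_distrib, ← sum_add_distrib,
        ← sum_add_distrib]
      apply sum_congr rfl
      intro y _
      ring
    rw [e3] at e4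
    simp only [sum_const, card_range, nsmul_eq_mul, mul_one] at e4
    linarith
  · intro y z hy hz
    have h1 := low y hy
    constructor
    · omega
    · omega
  · intro y z hy hz
    have h1 := upp y hy
    have h2 := fj (k + 1 + y)
    constructor
    · omega
    · rw [← hf]
      rw [S.direct_iff hN hT (by omega) (by omega), hf]
      omega
  · rintro u l ⟨h1, h2⟩
    have h3 := fj' u
    have h4 := (hf u l).2 h2
    have h5 := S.direct_col hN hT h1 (by omega) h4
    have h6 := S.lo l u (nd' h1 (by omega))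
    have h7 := S.hi u l (nd h1 (by omega))
    constructor
    · omega
    · omega
  · rintro u l l' ⟨h1, h2⟩ ⟨h3, h4⟩ h5
    have h6 := fj' u
    have h7 := S.inj u l l' (nd h1 (by omega)) (nd h3 (by omega)) h5
    by_contra hne
    rcases lt_or_gt_of_ne hne with h | h
    · exact nd' h (by omega) h7
    · exact nd h (by omega) h7
  · rintro u u' l ⟨h1, h2⟩ ⟨h3, h4⟩ h5
    have h6 := fj' u
    have h6' := fj' u'
    have c1 := S.direct_col hN hT h1 (by omega) ((hf u l).2 h2)
    have c2 := S.direct_col hN hT h3 (by omega) ((hf u' l).2 h4)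
    have h7 := S.inj l u u' (nd' h1 (by omega)) (nd' h3 (by omega)) (by omega)
    by_contra hne
    rcases lt_or_gt_of_ne hne with h | h
    · exact nd' h (by omega) h7
    · exact nd h (by omega) h7
  · intro y hy
    have h1 : ¬ ((y : ℤ) + 1 ≤ Y k) := by omega
    rw [← hY] at h1
    rw [show k + ((y : ℤ) + 1) = k + 1 + y by ring, show k + 1 - ((y : ℤ) + 1) = k - y by ring] at h1
    omega
  · intro y hy
    have h1 := (hf _ _).2 (low y hy)
    omega


/-- Zero winding is impossible. -/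
theorem Y_ne_zero (S : Seq N T v C) (hN : 4 ≤ N) (hT : 2 * N - 3 ≤ T)
    (hY : ∀ k y, v (k + y) ≤ v (k + 1 - y) + (N - 2) ↔ y ≤ Y k) (k : ℤ) : Y k ≠ 0 := by
  intro h0
  have g1 : v k + (N - 1) ≤ v (k + 1) := by
    have := (hY k 1).not.2 (by omega)
    rw [show k + 1 - 1 = k by ring] at this
    omega
  have g2 : v (k + N) = v k + T := S.step k
  have g3 : v (k + 1 + N) = v (k + 1) + T := S.step (k + 1)
  -- all pairs in the window are direct
  have dir : ∀ j l, k + 1 ≤ j → j < l → l ≤ k + N → v l ≤ v j + (N - 2) := by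
    intro j l h1 h2 h3
    rw [S.direct_iff hN hT h2 (by omega)]
    intro h
    have i1 : v (k + 1 + N) ≤ v (j + N) := S.mono (by omega)
    have i2 : v l ≤ v (k + N) := S.mono h3
    omega
  -- colours cover everything
  have cov : ∀ z, ∃ j l, k + 1 ≤ j ∧ j < l ∧ l ≤ k + N ∧ v l ≤ C j l ∧ C j l ≤ v j + (N - 2) ∧
      T ∣ C j l - z := by
    intro z
    obtain ⟨j0, l0, h1, h2⟩ := S.surj z
    -- put both in the window
    obtain ⟨q, hq⟩ : ∃ q, k + 1 ≤ j0 + N * q ∧ j0 + N * q ≤ k + N := by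
      refine ⟨-((j0 - (k + 1)) / N), ?_⟩
      have e1 := Int.emod_add_mul_ediv (j0 - (k + 1)) N
      have e2 := Int.emod_nonneg (j0 - (k + 1)) (show N ≠ 0 by omega)
      have e3 := Int.emod_lt_of_pos (j0 - (k + 1)) (show 0 < N by omega)
      constructor
      · linarith
      · have : j0 + N * -((j0 - (k + 1)) / N) = k + 1 + (j0 - (k + 1)) % N := by linarith
        omega
    obtain ⟨r, hr⟩ : ∃ q, k + 1 ≤ l0 + N * q ∧ l0 + N * q ≤ k + N := by
      refine ⟨-((l0 - (k + 1)) / N), ?_⟩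
      have e1 := Int.emod_add_mul_ediv (l0 - (k + 1)) N
      have e2 := Int.emod_nonneg (l0 - (k + 1)) (show N ≠ 0 by omega)
      have e3 := Int.emod_lt_of_pos (l0 - (k + 1)) (show 0 < N by omega)
      constructor
      · linarith
      · have : l0 + N * -((l0 - (k + 1)) / N) = k + 1 + (l0 - (k + 1)) % N := by linarith
        omega
    have hd : ¬ N ∣ (l0 + N * r) - (j0 + N * q) := by
      intro h
      apply h1
      have : l0 - j0 = ((l0 + N * r) - (j0 + N * q)) - N * (r - q) := by ring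
      rw [this]
      exact dvd_sub h (Dvd.intro _ rfl)
    have hz : T ∣ C (j0 + N * q) (l0 + N * r) - z := by
      rw [S.per1, S.per2]
      have : C j0 l0 + T * q - z = (C j0 l0 - z) + T * q := by ring
      rw [this]
      exact dvd_add h2 (Dvd.intro _ rfl)
    generalize j0 + N * q = j at *
    generalize l0 + N * r = l at *
    rcases lt_trichotomy j l with h | h | h
    · have d1 := dir j l hq.1 h hr.2
      have d2 := S.direct_col hN hT h (by omega) d1
      have d3 := S.lo l j (nd' h (by omega))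
      have d4 := S.hi j l (nd h (by omega))
      exact ⟨j, l, hq.1, h, hr.2, by omega, by omega, hz⟩
    · subst h
      exact absurd (by simp) hd
    · have d1 := dir l j hr.1 h hq.2
      have d2 := S.direct_col hN hT h (by omega) d1
      have d3 := S.lo j l (nd' h (by omega))
      have d4 := S.hi l j (nd h (by omega))
      exact ⟨l, j, hr.1, h, hq.2, by omega, by omega, by rw [d2]; exact hz⟩
  have low : T ≤ v (k + N - 1) + (N - 1) - v (k + 2) := by
    by_contra hc
    obtain ⟨j, l, h1, h2, h3, h4, h5, h6⟩ := cov (v (k + 2) - 1)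
    have i1 : v (k + 2) ≤ v l := S.mono (by omega)
    have i2 : v j ≤ v (k + N - 1) := S.mono (by omega)
    have := Int.le_of_dvd (by omega) h6
    omega
  have m1 := dir (k + 1) (k + N) (by omega) (by omega) le_rfl
  have m2 : v (k + 1) ≤ v (k + 2) := S.mono (by omega)
  have m3 : v (k + N - 1) ≤ v (k + N) := S.mono (by omega)
  have c1 := S.direct_col hN hT (j := k + 1) (l := k + N) (by omega) (by omega) m1
  have c2 := S.direct_col hN hT (j := k + 1) (l := k + N - 1) (by omega) (by omega)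
    (dir (k + 1) (k + N - 1) (by omega) (by omega) (by omega))
  have l1 := S.lo (k + N) (k + 1) (nd' (by omega) (by omega))
  have l2 := S.lo (k + N - 1) (k + 1) (nd' (by omega) (by omega))
  have u1 := S.hi (k + 1) (k + N) (nd (by omega) (by omega))
  have u2 := S.hi (k + 1) (k + N - 1) (nd (by omega) (by omega))
  have := S.inj (k + 1) (k + N - 1) (k + N) (nd (by omega) (by omega)) (nd (by omega) (by omega))
    (by omega)
  exact nd' (j := k + N - 1) (l := k + N) (N := N) (by omega) (by omega)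
    (by
      have h' := (dvd_neg (α := ℤ)).2 this
      have e : -(k + N - 1 - (k + N)) = k + N - (k + N - 1) := by ring
      rw [e] at h'
      exact this)

end main

/-- The upper bound for complete graphs. -/
theorem bound (S : Seq N T v C) (hN : 4 ≤ N) (hT : 2 * N - 3 ≤ T) {n : ℤ} (hn : N = 2 * n) :
    T = 2 * N - 3 ∧ 3 ∣ n := by
  obtain ⟨f, hf⟩ := S.exists_T hN hT
  obtain ⟨Y, hY⟩ := S.exists_Y hN hT hn
  obtain ⟨Θ, hΘ⟩ := exists_sum (fun j => j + f j - v j)
  have cutI := S.cut_ineq hN hT hn hY hf Θ hΘ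
  have Y0 := S.Y_nonneg hN hY
  have Yn := S.Y_le hN hT hn hY
  have Yne := S.Y_ne_zero hN hT hY
  have Yanti := S.Y_anti hN hT hn hY
  have Lm := S.L_mono hY
  have Rm := S.R_mono hY
  have Ll := S.L_lip hY
  -- periodicity
  have fper : ∀ j, f (j + N) = f j + N := by
    intro j
    have key : ∀ l, l ≤ f (j + N) ↔ l ≤ f j + N := by
      intro l
      rw [← hf, S.step]
      have e := hf j (l - N)
      have e2 := S.step (l - N)
      rw [show l - N + N = l by ring] at e2
      rw [show (l ≤ f j + N) ↔ (l - N ≤ f j) by omega, ← e]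
      omega
    have a := (key (f (j + N))).1 le_rfl
    have b := (key (f j + N)).2 le_rfl
    omega
  have Yper : ∀ k, Y (k + N) = Y k := by
    intro k
    have h1 := Yanti k
    have h2 := Yanti (k + n)
    rw [show k + n + n = k + N by omega] at h2
    omega
  set g : ℤ := 2 * N - T with hg
  have hΘper : ∃ H : ℤ, ∀ j, Θ (j + N) = Θ j + g * j + H := by
    refine ⟨Θ N - Θ 0, ?_⟩
    have st : ∀ j, Θ (j + N) - Θ j - g * j = Θ (j - 1 + N) - Θ (j - 1) - g * (j - 1) := by
      intro j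
      have h1 := hΘ (j + N)
      have h2 := hΘ j
      rw [fper, S.step] at h1
      rw [show j + N - 1 = j - 1 + N by ring] at h1
      rw [h1, h2, hg]
      ring
    have up : ∀ y : ℕ, Θ ((y : ℤ) + N) - Θ y - g * y = Θ (0 + N) - Θ 0 - g * 0 := by
      intro y
      induction y with
      | zero => simp
      | succ y ih =>
        rw [← ih, st]
        push_cast
        simp only [add_sub_cancel_right]
    have dn : ∀ y : ℕ, Θ (-(y : ℤ) + N) - Θ (-y) - g * (-y) = Θ (0 + N) - Θ 0 - g * 0 := by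
      intro y
      induction y with
      | zero => simp
      | succ y ih =>
        rw [← ih, st (-(y : ℤ))]
        push_cast
        rw [show -((y : ℤ) + 1) = -(y : ℤ) - 1 by ring]
    intro j
    rcases le_total 0 j with h | h
    · have := up j.toNat
      rw [show ((j.toNat : ℕ) : ℤ) = j by omega] at this
      rw [zero_add] at this
      linarith
    · have := dn (-j).toNat
      rw [show -(((-j).toNat : ℕ) : ℤ) = j by omega] at this
      rw [zero_add] at this
      linarith
  obtain ⟨H, hH⟩ := hΘper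
  set ψ : ℤ → ℤ := fun k => 2 * N * Θ k - g * k ^ 2 + (g * N - 2 * H) * k - Y k * (N - Y k) with hψ
  have ψper : ∀ k, ψ (k + N) = ψ k := by
    intro k
    simp only [hψ]
    rw [hH, Yper]
    ring
  -- maximum
  obtain ⟨k0, hk0⟩ : ∃ k0, ∀ k, ψ k ≤ ψ k0 := by
    obtain ⟨k0, _, hk0⟩ := (Finset.Ico (0 : ℤ) N).exists_max_image ψ ⟨0, by simp; omega⟩
    refine ⟨k0, fun k => ?_⟩
    have hmod : ∀ (q : ℕ) (k : ℤ), ψ (k + N * q) = ψ k := by
      intro q
      induction q with
      | zero => intro k; simp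
      | succ q ih =>
        intro k
        push_cast
        rw [show k + N * ((q : ℤ) + 1) = (k + N * q) + N by ring, ψper, ih]
    have e1 := Int.emod_add_mul_ediv k N
    have e2 := Int.emod_nonneg k (show N ≠ 0 by omega)
    have e3 := Int.emod_lt_of_pos k (show 0 < N by omega)
    have e4 : ψ k = ψ (k % N) := by
      rcases le_total 0 (k / N) with h | h
      · have := hmod (k / N).toNat (k % N)
        rw [show (((k / N).toNat : ℕ) : ℤ) = k / N by omega, e1] at this
        exact this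
      · have := hmod (-(k / N)).toNat k
        rw [show (((-(k / N)).toNat : ℕ) : ℤ) = -(k / N) by omega] at this
        rw [← this]
        congr 1
        linarith
    rw [e4]
    exact hk0 _ (mem_Ico.2 ⟨e2, e3⟩)
  have Ypos : ∀ k, 1 ≤ Y k := by
    intro k
    have h1 := Y0 k
    have h2 := Yne k
    omega
  -- consequences of maximality
  have main : ∀ k, ψ k = ψ k0 → T = 2 * N - 3 ∧ ψ (k + Y k) = ψ k0 ∧ ψ (k - Y k) = ψ k0 ∧
      (2 * Y k - Y (k + Y k)) * (N - 2 * Y k - Y (k + Y k)) = 0 ∧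
      (2 * Y k - Y (k - Y k)) * (N - 2 * Y k - Y (k - Y k)) = 0 ∧
      Y (k + Y k) ≤ 2 * Y k ∧ Y (k + Y k) ≤ N - 2 * Y k ∧
      Y (k - Y k) ≤ 2 * Y k ∧ Y (k - Y k) ≤ N - 2 * Y k := by
    intro k hk
    have p1 := Ypos k
    have p2 := Yn k
    have q1 : Y (k + Y k) ≤ 2 * Y k := by
      have := Lm (show k ≤ k + Y k by omega)
      simp only [] at this
      omega
    have q2 : Y (k + Y k) ≤ N - 2 * Y k := by
      have h1 := Rm (show k + Y k ≤ k + n by omega)
      have h2 := Yanti k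
      simp only [] at h1
      omega
    have q3 : Y (k - Y k) ≤ 2 * Y k := by
      have := Rm (show k - Y k ≤ k by omega)
      simp only [] at this
      omega
    have q4 : Y (k - Y k) ≤ N - 2 * Y k := by
      have h1 := Lm (show k - n ≤ k - Y k by omega)
      have h2 := Yanti (k - n)
      rw [show k - n + n = k by ring] at h2
      simp only [] at h1
      omega
    have c := cutI k
    have m1 := hk0 (k + Y k)
    have m2 := hk0 (k - Y k)
    have r1 : 0 ≤ (2 * Y k - Y (k + Y k)) * (N - 2 * Y k - Y (k + Y k)) :=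
      mul_nonneg (by omega) (by omega)
    have r2 : 0 ≤ (2 * Y k - Y (k - Y k)) * (N - 2 * Y k - Y (k - Y k)) :=
      mul_nonneg (by omega) (by omega)
    have r3 : 0 ≤ 2 * N * (Θ (k + Y k) + Θ (k - Y k) - 2 * Θ k - Y k) :=
      mul_nonneg (by omega) (by omega)
    have r4 : 0 ≤ 2 * (T - (2 * N - 3)) * (Y k) ^ 2 := by
      apply mul_nonneg
      · omega
      · positivity
    have e : ψ (k + Y k) + ψ (k - Y k) - 2 * ψ k =
        2 * N * (Θ (k + Y k) + Θ (k - Y k) - 2 * Θ k - Y k) +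
        (2 * Y k - Y (k + Y k)) * (N - 2 * Y k - Y (k + Y k)) +
        (2 * Y k - Y (k - Y k)) * (N - 2 * Y k - Y (k - Y k)) +
        2 * (T - (2 * N - 3)) * (Y k) ^ 2 := by
      simp only [hψ, hg]
      ring
    rw [hk] at e
    have s4 : 2 * (T - (2 * N - 3)) * (Y k) ^ 2 = 0 := by linarith
    have s0 : T - (2 * N - 3) = 0 := by
      rcases mul_eq_zero.1 s4 with h | h
      · omega
      · have := pow_eq_zero_iff (n := 2) (by norm_num) |>.1 h
        omega
    refine ⟨by omega, by linarith, by linarith, by linarith, by linarith, q1, q2, q3, q4⟩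
  have tent : ∀ k, ψ k = ψ k0 → (6 * Y k ≤ N ∨ N ≤ 3 * Y k) ∧
      (Y (k + Y k) = 2 * Y k ∨ Y (k + Y k) = N - 2 * Y k) := by
    intro k hk
    obtain ⟨_, _, _, z1, z2, q1, q2, q3, q4⟩ := main k hk
    have p1 := Ypos k
    have p2 := Yn k
    have w1 : Y (k + Y k) = 2 * Y k ∨ Y (k + Y k) = N - 2 * Y k := by
      rcases mul_eq_zero.1 z1 with h | h
      · left; omega
      · right; omega
    have w2 : Y (k - Y k) = 2 * Y k ∨ Y (k - Y k) = N - 2 * Y k := by
      rcases mul_eq_zero.1 z2 with h | h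
      · left; omega
      · right; omega
    refine ⟨?_, w1⟩
    have a1 := Yanti (k - Y k)
    rcases le_total (4 * Y k) N with h | h
    · left
      have l1 := Ll (show k + Y k ≤ k - Y k + n by omega)
      simp only [] at l1
      omega
    · right
      have l1 := Lm (show k - Y k + n ≤ k + Y k by omega)
      simp only [] at l1
      omega
  have three : ∀ y : ℤ, 2 * n = 3 * y → 3 ∣ n := by
    intro y hy
    obtain ⟨w, hw⟩ : ∃ w, y = 2 * w := ⟨y / 2, by omega⟩
    exact ⟨w, by omega⟩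
  have finA : ∀ (s : ℕ) (k : ℤ), ψ k = ψ k0 → 6 * Y k ≤ N → N - Y k ≤ s → 3 ∣ n := by
    intro s
    induction s with
    | zero =>
      intro k hk h6 hs
      have := Yn k
      have := Ypos k
      push_cast at hs
      omega
    | succ s ih =>
      intro k hk h6 hs
      push_cast at hs
      obtain ⟨h1, h2⟩ := tent k hk
      obtain ⟨_, mk, _, _, _, q1, q2, _, _⟩ := main k hk
      obtain ⟨h3, _⟩ := tent (k + Y k) mk
      have p1 := Ypos k
      have e : Y (k + Y k) = 2 * Y k := by omega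
      rcases h3 with h3 | h3
      · exact ih (k + Y k) mk h3 (by omega)
      · exact three (2 * Y k) (by omega)
  refine ⟨(main k0 rfl).1, ?_⟩
  obtain ⟨h1, h2⟩ := tent k0 rfl
  rcases h1 with h1 | h1
  · exact finA (N - Y k0).toNat k0 rfl h1 (by omega)
  · obtain ⟨_, mk, _, _, _, q1, q2, _, _⟩ := main k0 rfl
    obtain ⟨h3, _⟩ := tent (k0 + Y k0) mk
    have p1 := Ypos k0
    have e : Y (k0 + Y k0) = N - 2 * Y k0 := by omega
    rcases h3 with h3 | h3
    · exact finA (N - Y (k0 + Y k0)).toNat (k0 + Y k0) mk h3 (by omega)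
    · exact three (Y k0) (by omega)

end Seq

end Pool.Agent.Q132.IC
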