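import Pool.Agent.Q132.IC.Sort

set_option autoImplicit false

namespace Pool.Agent.Q132.IC

open Finset

/-- flip one coordinate -/
def flip {n : ℕ} (v : Fin n → Bool) (k : Fin n) : Fin n → Bool := Function.update v k (!v k)

theorem flip_same {n : ℕ} (v : Fin n → Bool) (k : Fin n) : flip v k k = !v k := by
  simp [flip]

theorem flip_ne {n : ℕ} (v : Fin n → Bool) {k i : Fin n} (h : i ≠ k) : flip v k i = v i := by
  simp [flip, h]

theorem flip_flip {n : ℕ} (v : Fin n → Bool) (k : Fin n) : flip (flip v k) k = v := by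
  funext i
  by_cases h : i = k
  · subst h
    rw [flip_same, flip_same, Bool.not_not]
  · rw [flip_ne _ h, flip_ne _ h]

theorem flip_comm {n : ℕ} (v : Fin n → Bool) {k i : Fin n} (h : i ≠ k) :
    flip (flip v k) i = flip (flip v i) k := by
  funext x
  by_cases h1 : x = i
  · subst h1
    rw [flip_same, flip_ne _ h, flip_ne _ h, flip_same]
  · by_cases h2 : x = k
    · subst h2
      rw [flip_ne _ h1, flip_same, flip_same, flip_ne _ h1]
    · rw [flip_ne _ h1, flip_ne _ h2, flip_ne _ h2, flip_ne _ h1]

theorem flip_inj {n : ℕ} (v : Fin n → Bool) : Function.Injective (flip v) := by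
  intro k k' h
  by_contra hne
  have h1 := congrFun h k
  rw [flip_same, flip_ne _ hne] at h1
  cases hv : v k <;> simp [hv] at h1

theorem adj_iff {n : ℕ} (v w : Fin n → Bool) : (hypercube n).Adj v w ↔ ∃ k, w = flip v k := by
  constructor
  · rintro ⟨i, hi, hu⟩
    refine ⟨i, ?_⟩
    funext x
    by_cases h : x = i
    · subst h
      rw [flip_same]
      cases hv : v x <;> cases hw : w x <;> simp_all
    · rw [flip_ne _ h]
      by_contra hne
      exact h (hu x fun h' => hne h'.symm)
  · rintro ⟨k, rfl⟩
    refine ⟨k, ?_, ?_⟩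
    · show v k ≠ flip v k k
      rw [flip_same]
      cases v k <;> simp
    · intro i hi
      by_contra hne
      exact hi (flip_ne v hne).symm

theorem card_nbr_cube (n : ℕ) (v : Fin n → Bool) :
    Nat.card ((hypercube n).neighborSet v) = n := by
  have : (hypercube n).neighborSet v = Set.range (flip v) := by
    ext w
    show (hypercube n).Adj v w ↔ _
    rw [adj_iff]
    simp [eq_comm]
  rw [this, Nat.card_range_of_injective (flip_inj v)]
  simp

/-- lift of a colouring of the hypercube, by directions -/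
structure HArc (n T : ℕ) (a : (Fin n → Bool) → ℤ) (c : (Fin n → Bool) → Fin n → ℤ) : Prop where
  pos : 0 < T
  deg : n ≤ T
  lo : ∀ v k, a v ≤ c v k
  hi : ∀ v k, c v k < a v + n
  inj : ∀ v k k', c v k = c v k' → k = k'
  sym : ∀ v k, (T : ℤ) ∣ c v k - c (flip v k) k
  surj : ∀ z : ℤ, ∃ v k, (T : ℤ) ∣ c v k - z

theorem harc_of_mem {n t : ℕ} (ht : t ∈ F (hypercube n)) : ∃ a c, HArc n t a c := by
  obtain ⟨a, c, S⟩ := arc_of_mem (D := fun _ => n) (card_nbr_cube n) ht
  have adj : ∀ v k, (hypercube n).Adj v (flip v k) := fun v k => (adj_iff _ _).2 ⟨k, rfl⟩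
  refine ⟨a, fun v k => c v (flip v k), S.pos, S.deg (fun _ => false), ?_, ?_, ?_, ?_, ?_⟩
  · intro v k
    exact S.lo _ _ (adj v k)
  · intro v k
    exact S.hi _ _ (adj v k)
  · intro v k k' h
    exact flip_inj v (S.inj _ _ _ (adj v k) (adj v k') h)
  · intro v k
    have := S.sym _ _ (adj v k)
    show (t : ℤ) ∣ c v (flip v k) - c (flip v k) (flip (flip v k) k)
    rwa [flip_flip]
  · intro z
    obtain ⟨v, w, h1, h2⟩ := S.surj z
    obtain ⟨k, rfl⟩ := (adj_iff _ _).1 h1
    exact ⟨v, k, h2⟩

theorem mem_of_harc {n t : ℕ} {a : (Fin n → Bool) → ℤ} {c : (Fin n → Bool) → Fin n → ℤ}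
    (S : HArc n t a c) : t ∈ F (hypercube n) := by
  classical
  apply mem_of_arc (D := fun _ => n) (card_nbr_cube n) (a := a)
    (c := fun v w => if h : ∃ k, w = flip v k then c v h.choose else 0)
  have key : ∀ v k, (if h : ∃ k', flip v k = flip v k' then c v h.choose else 0) = c v k := by
    intro v k
    have h : ∃ k', flip v k = flip v k' := ⟨k, rfl⟩
    rw [dif_pos h]
    congr 1
    exact (flip_inj v h.choose_spec).symm
  refine ⟨S.pos, fun _ => S.deg, ?_, ?_, ?_, ?_, ?_⟩
  · intro v w h
    obtain ⟨k, rfl⟩ := (adj_iff _ _).1 h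
    show a v ≤ (if h : ∃ k', flip v k = flip v k' then c v h.choose else 0)
    rw [key]
    exact S.lo _ _
  · intro v w h
    obtain ⟨k, rfl⟩ := (adj_iff _ _).1 h
    show (if h : ∃ k', flip v k = flip v k' then c v h.choose else 0) < a v + n
    rw [key]
    exact S.hi _ _
  · intro v w w' h h' he
    obtain ⟨k, rfl⟩ := (adj_iff _ _).1 h
    obtain ⟨k', rfl⟩ := (adj_iff _ _).1 h'
    have he' : (if h : ∃ k', flip v k = flip v k' then c v h.choose else 0) =
      (if h : ∃ k'', flip v k' = flip v k'' then c v h.choose else 0) := he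
    rw [key, key] at he'
    rw [S.inj _ _ _ he']
  · intro v w h
    obtain ⟨k, rfl⟩ := (adj_iff _ _).1 h
    show (t : ℤ) ∣ (if h : ∃ k', flip v k = flip v k' then c v h.choose else 0) -
      (if h : ∃ k', v = flip (flip v k) k' then c (flip v k) h.choose else 0)
    have h2 := key (flip v k) k
    rw [flip_flip] at h2
    rw [key, h2]
    exact S.sym v k
  · intro z
    obtain ⟨v, k, h⟩ := S.surj z
    refine ⟨v, flip v k, (adj_iff _ _).2 ⟨k, rfl⟩, ?_⟩
    show (t : ℤ) ∣ (if h : ∃ k', flip v k = flip v k' then c v h.choose else 0) - z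
    rw [key]
    exact h

/-- prefix -/
def pre {n : ℕ} (i : ℕ) (v : Fin n → Bool) : Fin n → Bool := fun x => if (x : ℕ) < i then v x else false

theorem pre_zero {n : ℕ} (v : Fin n → Bool) : pre 0 v = fun _ => false := by
  funext x; simp [pre]

theorem pre_full {n : ℕ} (v : Fin n → Bool) : pre n v = v := by
  funext x; simp [pre]

theorem pre_succ_true {n : ℕ} (v : Fin n → Bool) (i : Fin n) (h : v i = true) :
    pre ((i : ℕ) + 1) v = flip (pre (i : ℕ) v) i := by
  funext x
  by_cases hx : x = i
  · subst hx
    rw [flip_same]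
    simp [pre, h]
  · rw [flip_ne _ hx]
    have : (x : ℕ) ≠ (i : ℕ) := fun h => hx (Fin.ext h)
    unfold pre
    by_cases h1 : (x : ℕ) < i
    · rw [if_pos h1, if_pos (by omega)]
    · rw [if_neg h1, if_neg (by omega)]

theorem pre_succ_false {n : ℕ} (v : Fin n → Bool) (i : Fin n) (h : v i = false) :
    pre ((i : ℕ) + 1) v = pre (i : ℕ) v := by
  funext x
  by_cases hx : x = i
  · subst hx
    simp [pre, h]
  · have : (x : ℕ) ≠ (i : ℕ) := fun h => hx (Fin.ext h)
    unfold pre
    by_cases h1 : (x : ℕ) < i
    · rw [if_pos h1, if_pos (by omega)]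
    · rw [if_neg h1, if_neg (by omega)]

theorem pre_flip {n : ℕ} (v : Fin n → Bool) (i : ℕ) (j : Fin n) (h : (j : ℕ) < i) :
    pre i (flip v j) = flip (pre i v) j := by
  funext x
  by_cases hx : x = j
  · subst hx
    rw [flip_same]
    unfold pre
    rw [if_pos h, if_pos h, flip_same]
  · rw [flip_ne _ hx]
    unfold pre
    rw [flip_ne _ hx]

theorem pre_flip' {n : ℕ} (v : Fin n → Bool) (i : ℕ) (j : Fin n) (h : i ≤ (j : ℕ)) :
    pre i (flip v j) = pre i v := by
  funext x
  by_cases hx : x = j
  · subst hx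
    unfold pre
    rw [if_neg (by omega), if_neg (by omega)]
  · unfold pre
    rw [flip_ne _ hx]

theorem hc_const {n : ℕ} (p : (Fin n → Bool) → Prop) (h : ∀ v k, p v → p (flip v k))
    (v w : Fin n → Bool) (hv : p v) : p w := by
  have h' : ∀ v k, p (flip v k) ↔ p v := by
    intro v k
    constructor
    · intro h1
      have := h _ k h1
      rwa [flip_flip] at this
    · exact h v k
  have key : ∀ (v : Fin n → Bool) (i : ℕ), i ≤ n → (p (pre i v) ↔ p (fun _ => false)) := by
    intro v i
    induction i with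
    | zero => intro _; rw [pre_zero]
    | succ i ih =>
      intro hi
      rw [← ih (by omega)]
      cases hvi : v ⟨i, by omega⟩
      · have := pre_succ_false v ⟨i, by omega⟩ hvi
        simp only [] at this
        rw [this]
      · have := pre_succ_true v ⟨i, by omega⟩ hvi
        simp only [] at this
        rw [this, h']
  have k1 := key v n le_rfl
  have k2 := key w n le_rfl
  rw [pre_full] at k1 k2
  exact k2.2 (k1.1 hv)

/-- exact integer colouring of the hypercube -/
structure HEx (n : ℕ) (a : (Fin n → Bool) → ℤ) (c : (Fin n → Bool) → Fin n → ℤ) : Prop where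
  lo : ∀ v k, a v ≤ c v k
  hi : ∀ v k, c v k < a v + n
  inj : ∀ v k k', c v k = c v k' → k = k'
  sym : ∀ v k, c v k = c (flip v k) k

theorem HEx.interval {n : ℕ} {a : (Fin n → Bool) → ℤ} {c : (Fin n → Bool) → Fin n → ℤ}
    (S : HEx n a c) (v0 v1 : Fin n → Bool) (k0 k1 : Fin n) (z : ℤ) (h0 : c v0 k0 ≤ z)
    (h1 : z ≤ c v1 k1) : ∃ v k, c v k = z := by
  by_contra hc
  push Not at hc
  have dich : ∀ v, a v + n ≤ z ∨ z < a v := by
    intro v
    by_contra hcc
    push Not at hcc
    obtain ⟨c1, c2⟩ := hcc
    have hinj : Function.Injective (fun k : Fin n => (⟨(c v k - a v).toNat, by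
        have h1 := S.lo v k
        have h2 := S.hi v k
        omega⟩ : Fin n)) := by
      intro k k' h
      simp only [Fin.mk.injEq] at h
      have h1 := S.lo v k
      have h2 := S.lo v k'
      exact S.inj v k k' (by omega)
    obtain ⟨k, hk⟩ := (Finite.injective_iff_surjective.1 hinj) ⟨(z - a v).toNat, by omega⟩
    simp only [Fin.mk.injEq] at hk
    have h1 := S.lo v k
    exact hc v k (by omega)
  have p1 : a v1 + n ≤ z := by
    apply hc_const (fun v => a v + n ≤ z) _ v0 v1
    · rcases dich v0 with h | h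
      · exact h
      · have := S.lo v0 k0
        omega
    · intro v k hv
      rcases dich (flip v k) with h | h
      · exact h
      · have h2 := S.lo (flip v k) k
        have h3 := S.hi v k
        have h4 := S.sym v k
        omega
  have := S.hi v1 k1
  omega

theorem HEx.mem {n : ℕ} {a : (Fin n → Bool) → ℤ} {c : (Fin n → Bool) → Fin n → ℤ}
    (S : HEx n a c) (v0 v1 : Fin n → Bool) (k0 k1 : Fin n) (t : ℕ) (ht : n ≤ t)
    (h : (t : ℤ) ≤ c v1 k1 - c v0 k0 + 1) : t ∈ F (hypercube n) := by
  have hn : 0 < n := lt_of_le_of_lt (Nat.zero_le _) k0.isLt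
  apply mem_of_harc (a := a) (c := c)
  refine ⟨by omega, ht, S.lo, S.hi, S.inj, ?_, ?_⟩
  · intro v k
    rw [← S.sym v k, sub_self]
    exact dvd_zero _
  · intro z
    have e1 := Int.emod_add_mul_ediv (z - c v0 k0) t
    have e2 := Int.emod_nonneg (z - c v0 k0) (show (t : ℤ) ≠ 0 by omega)
    have e3 := Int.emod_lt_of_pos (z - c v0 k0) (show (0 : ℤ) < t by omega)
    obtain ⟨v, k, hv⟩ := S.interval v0 v1 k0 k1 (c v0 k0 + (z - c v0 k0) % t) (by omega) (by omega)
    refine ⟨v, k, -((z - c v0 k0) / t), ?_⟩
    rw [hv]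
    linarith

theorem HArc.lift {n t : ℕ} {a : (Fin n → Bool) → ℤ} {c : (Fin n → Bool) → Fin n → ℤ}
    (S : HArc n t a c) (hn : 0 < n) (ht : 4 * (n - 1) < t) :
    ∃ a' c', HEx n a' c' ∧ ∃ v0 v1 k0 k1, (t : ℤ) ≤ c' v1 k1 - c' v0 k0 + 1 := by
  have tpos := S.pos
  choose K hK using S.sym
  have Kanti : ∀ v j, K (flip v j) j = - K v j := by
    intro v j
    have h1 := hK v j
    have h2 := hK (flip v j) j
    rw [flip_flip] at h2
    have h3 : (t : ℤ) * (K (flip v j) j + K v j) = 0 := by rw [mul_add, ← h1, ← h2]; ring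
    rcases mul_eq_zero.1 h3 with h | h
    · omega
    · omega
  have sq : ∀ v i j, i ≠ j → K v i + K (flip v i) j = K v j + K (flip v j) i := by
    intro v i j hij
    have h1 := hK v i
    have h2 := hK (flip v i) j
    have h3 := hK v j
    have h4 := hK (flip v j) i
    have e : flip (flip v j) i = flip (flip v i) j := flip_comm v hij
    rw [e] at h4
    set x := v
    set y := flip v i
    set u := flip v j
    set z := flip y j
    have h5 : (t : ℤ) * (K x i + K y j - K x j - K u i) = 0 := by
      apply dvd_small (T := t) (Dvd.intro _ rfl)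
      · have : (t : ℤ) * (K x i + K y j - K x j - K u i) = (c x i - c x j) + (c y j - c y i) +
            (c z i - c z j) + (c u j - c u i) := by
          rw [mul_sub, mul_sub, mul_add, ← h1, ← h2, ← h3, ← h4]
          ring
        rw [this]
        have a1 := S.lo x i
        have a2 := S.hi x j
        have a3 := S.lo y j
        have a4 := S.hi y i
        have a5 := S.lo z i
        have a6 := S.hi z j
        have a7 := S.lo u j
        have a8 := S.hi u i
        omega
      · have : (t : ℤ) * (K x i + K y j - K x j - K u i) = (c x i - c x j) + (c y j - c y i) +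
            (c z i - c z j) + (c u j - c u i) := by
          rw [mul_sub, mul_sub, mul_add, ← h1, ← h2, ← h3, ← h4]
          ring
        rw [this]
        have a1 := S.hi x i
        have a2 := S.lo x j
        have a3 := S.hi y j
        have a4 := S.lo y i
        have a5 := S.hi z i
        have a6 := S.lo z j
        have a7 := S.hi u j
        have a8 := S.lo u i
        omega
    rcases mul_eq_zero.1 h5 with h | h
    · omega
    · omega
  -- potential
  let Φ : ℕ → (Fin n → Bool) → ℤ := fun i v =>
    ∑ x : Fin n, if (x : ℕ) < i ∧ v x = true then K (pre (x : ℕ) v) x else 0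
  have Φsucc : ∀ (i : Fin n) v, Φ ((i : ℕ) + 1) v = Φ (i : ℕ) v +
      if v i = true then K (pre (i : ℕ) v) i else 0 := by
    intro i v
    show (∑ x : Fin n, if (x : ℕ) < (i : ℕ) + 1 ∧ v x = true then K (pre (x : ℕ) v) x else 0) =
      (∑ x : Fin n, if (x : ℕ) < (i : ℕ) ∧ v x = true then K (pre (x : ℕ) v) x else 0) + _
    have e : ∀ x : Fin n, (if (x : ℕ) < (i : ℕ) + 1 ∧ v x = true then K (pre (x : ℕ) v) x else 0) =
        (if (x : ℕ) < (i : ℕ) ∧ v x = true then K (pre (x : ℕ) v) x else 0) +
        (if x = i then (if v i = true then K (pre (i : ℕ) v) i else 0) else 0) := by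
      intro x
      by_cases hx : x = i
      · subst hx
        simp
      · have : (x : ℕ) ≠ (i : ℕ) := fun h => hx (Fin.ext h)
        rw [if_neg hx, add_zero]
        by_cases h1 : (x : ℕ) < i ∧ v x = true
        · rw [if_pos h1, if_pos ⟨by omega, h1.2⟩]
        · rw [if_neg h1, if_neg (fun h2 => h1 ⟨by omega, h2.2⟩)]
    rw [sum_congr rfl (fun x _ => e x), sum_add_distrib, sum_ite_eq' univ i]
    simp
  have claim : ∀ (v : Fin n → Bool) (j : Fin n), v j = false → ∀ i : ℕ, i ≤ n →
      Φ i (flip v j) - Φ i v = if (j : ℕ) < i then K (pre i v) j else 0 := by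
    intro v j hj i
    induction i with
    | zero =>
      intro _
      simp [Φ]
    | succ i ih =>
      intro hi
      have ih' := ih (by omega)
      have s1 := Φsucc ⟨i, by omega⟩ v
      have s2 := Φsucc ⟨i, by omega⟩ (flip v j)
      simp only [] at s1 s2
      rw [s1, s2]
      rcases lt_trichotomy i (j : ℕ) with h | h | h
      · have g1 : ¬ ((j : ℕ) < i) := by omega
        have g2 : ¬ ((j : ℕ) < i + 1) := by omega
        rw [if_neg g1] at ih'
        rw [if_neg g2, pre_flip' v i j h.le, flip_ne v (show (⟨i, by omega⟩ : Fin n) ≠ j from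
          fun he => by rw [← he] at h; simp at h)]
        linarith
      · subst h
        have g2 : (j : ℕ) < (j : ℕ) + 1 := by omega
        rw [if_neg (lt_irrefl _)] at ih'
        rw [if_pos g2, show (⟨(j : ℕ), by omega⟩ : Fin n) = j from rfl, flip_same, hj,
          pre_flip' v _ j le_rfl]
        rw [pre_succ_false v j hj]
        simp only [Bool.not_false, if_true]
        simp only [Bool.false_eq_true, if_false]
        linarith
      · rw [if_pos h] at ih'
        have g2 : (j : ℕ) < i + 1 := by omega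
        rw [if_pos g2, pre_flip v i j h]
        have hne : (⟨i, by omega⟩ : Fin n) ≠ j := fun he => by rw [← he] at h; simp at h
        rw [flip_ne v hne]
        cases hvi : v ⟨i, by omega⟩
        · have := pre_succ_false v ⟨i, by omega⟩ hvi
          simp only [] at this
          rw [this]
          simp only [Bool.false_eq_true, if_false]
          linarith
        · have := pre_succ_true v ⟨i, by omega⟩ hvi
          simp only [] at this
          rw [this]
          simp only [if_true]
          have := sq (pre i v) ⟨i, by omega⟩ j hne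
          linarith
  have pot : ∀ v j, Φ n (flip v j) - Φ n v = K v j := by
    intro v j
    cases hj : v j
    · have := claim v j hj n le_rfl
      rw [if_pos j.isLt, pre_full] at this
      exact this
    · have := claim (flip v j) j (by rw [flip_same, hj]; rfl) n le_rfl
      rw [if_pos j.isLt, pre_full, flip_flip, Kanti] at this
      linarith
  have S' : HEx n (fun v => a v + t * Φ n v) (fun v k => c v k + t * Φ n v) := by
    refine ⟨?_, ?_, ?_, ?_⟩
    · intro v k
      have := S.lo v k
      show a v + t * Φ n v ≤ c v k + t * Φ n v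
      linarith
    · intro v k
      have := S.hi v k
      show c v k + t * Φ n v < a v + t * Φ n v + n
      linarith
    · intro v k k' h
      exact S.inj v k k' (by simpa using h)
    · intro v k
      show c v k + t * Φ n v = c (flip v k) k + t * Φ n (flip v k)
      have h1 := hK v k
      rw [← pot v k] at h1
      linarith
  refine ⟨_, _, S', ?_⟩
  haveI : Nonempty (Fin n) := ⟨⟨0, hn⟩⟩
  obtain ⟨⟨v0, k0⟩, h0⟩ := Finite.exists_min (fun p : (Fin n → Bool) × Fin n =>
    c p.1 p.2 + t * Φ n p.1)
  obtain ⟨⟨v1, k1⟩, h1⟩ := Finite.exists_max (fun p : (Fin n → Bool) × Fin n =>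
    c p.1 p.2 + t * Φ n p.1)
  refine ⟨v0, v1, k0, k1, ?_⟩
  by_contra hc
  have hc' : c v1 k1 + t * Φ n v1 - (c v0 k0 + t * Φ n v0) + 1 < t := not_le.1 hc
  obtain ⟨v, k, hvk⟩ := S.surj (c v0 k0 + t * Φ n v0 - 1)
  have h2 := h0 (v, k)
  have h3 := h1 (v, k)
  simp only [] at h2 h3
  have h4 : (t : ℤ) ∣ (c v k + t * Φ n v) - (c v0 k0 + t * Φ n v0 - 1) := by
    have e : (c v k + t * Φ n v) - (c v0 k0 + t * Φ n v0 - 1) =
      (c v k - (c v0 k0 + t * Φ n v0 - 1)) + t * Φ n v := by ring
    rw [e]
    exact dvd_add hvk (Dvd.intro _ rfl)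
  have := dvd_small h4 (by omega) (by omega)
  omega

end Pool.Agent.Q132.IC
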