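import Pool.Agent.Q132.IC.Qn

set_option autoImplicit false

namespace Pool.Agent.Q132.IC

open Finset

/-- number of ones above `k` -/
def up {n : ℕ} (v : Fin n → Bool) (k : Fin n) : ℕ :=
  (univ.filter (fun i : Fin n => k < i ∧ v i = true)).card

def qs {n : ℕ} (v : Fin n → Bool) : ℤ := ∑ i : Fin n, if v i = true then ((i : ℕ) : ℤ) else 0

def qc {n : ℕ} (v : Fin n → Bool) (k : Fin n) : ℤ :=
  ((k : ℕ) : ℤ) + ∑ i : Fin n, if v i = true then
    (if i < k then ((i : ℕ) : ℤ) else if k < i then ((i : ℕ) : ℤ) + 1 else 0) else 0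

theorem qc_eq {n : ℕ} (v : Fin n → Bool) (k : Fin n) :
    qc v k = qs v + if v k = true then ((up v k : ℕ) : ℤ) else ((k : ℕ) : ℤ) + ((up v k : ℕ) : ℤ) := by
  have e : ∀ i : Fin n, (if v i = true then
      (if i < k then ((i : ℕ) : ℤ) else if k < i then ((i : ℕ) : ℤ) + 1 else 0) else 0) =
      (if v i = true then ((i : ℕ) : ℤ) else 0) + (if (k < i ∧ v i = true) then (1 : ℤ) else 0) +
      (if i = k then (if v k = true then -((k : ℕ) : ℤ) else 0) else 0) := by
    intro i
    rcases lt_trichotomy i k with h | h | h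
    · have g : ¬ (k < i ∧ v i = true) := fun h' => absurd h'.1 (not_lt.2 h.le)
      rw [if_pos h, if_neg g, if_neg h.ne]
      ring
    · subst h
      simp only [lt_irrefl, if_false, false_and, if_true]
      by_cases hv : v i = true
      · simp [hv]
      · simp [hv]
    · rw [if_neg (not_lt.2 h.le), if_pos h, if_neg h.ne']
      by_cases hv : v i = true
      · rw [if_pos hv, if_pos hv, if_pos ⟨h, hv⟩]
        ring
      · rw [if_neg hv, if_neg hv, if_neg (fun h' => hv h'.2)]
        ring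
  unfold qc qs up
  rw [sum_congr rfl (fun i _ => e i), sum_add_distrib, sum_add_distrib, sum_ite_eq' univ k,
    card_eq_sum_ones, sum_filter]
  push_cast
  simp only [mem_univ, if_true]
  by_cases hv : v k = true
  · rw [if_pos hv, if_pos hv]
    ring
  · rw [if_neg hv, if_neg hv]
    ring

theorem up_le {n : ℕ} (v : Fin n → Bool) (k : Fin n) : up v k + (k : ℕ) + 1 ≤ n := by
  unfold up
  have : (univ.filter (fun i : Fin n => k < i ∧ v i = true)) ⊆ Ioi k := by
    intro i hi
    rw [mem_filter] at hi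
    exact mem_Ioi.2 hi.2.1
  have := card_le_card this
  rw [Fin.card_Ioi] at this
  have := k.isLt
  omega

theorem up_A {n : ℕ} (v : Fin n → Bool) {k k' : Fin n} (h : k < k') (hv : v k' = true) :
    up v k' + 1 ≤ up v k := by
  unfold up
  rw [← card_insert_of_notMem (a := k') (by simp)]
  apply card_le_card
  intro i hi
  rw [mem_insert, mem_filter] at hi
  rw [mem_filter]
  rcases hi with rfl | hi
  · exact ⟨mem_univ _, h, hv⟩
  · exact ⟨mem_univ _, h.trans hi.2.1, hi.2.2⟩

theorem up_B {n : ℕ} (v : Fin n → Bool) {k k' : Fin n} (h : k < k') (hv : v k' = false) :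
    up v k + (k : ℕ) + 1 ≤ up v k' + (k' : ℕ) := by
  unfold up
  have : (univ.filter (fun i : Fin n => k < i ∧ v i = true)) ⊆
      (univ.filter (fun i : Fin n => k' < i ∧ v i = true)) ∪ Ioo k k' := by
    intro i hi
    rw [mem_filter] at hi
    rw [mem_union, mem_filter, mem_Ioo]
    rcases lt_trichotomy i k' with h1 | h1 | h1
    · exact Or.inr ⟨hi.2.1, h1⟩
    · rw [h1, hv] at hi
      simp at hi
    · exact Or.inl ⟨mem_univ _, h1, hi.2.2⟩
  have h1 := (card_le_card this).trans (card_union_le _ _)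
  rw [Fin.card_Ioo] at h1
  have h2 : (k : ℕ) < k' := h
  omega

theorem qex (n : ℕ) : HEx n (qs (n := n)) qc := by
  refine ⟨?_, ?_, ?_, ?_⟩
  · intro v k
    rw [qc_eq]
    split_ifs <;> omega
  · intro v k
    rw [qc_eq]
    have := up_le v k
    split_ifs <;> omega
  · have key : ∀ v (k k' : Fin n), k < k' → qc v k ≠ qc v k' := by
      intro v k k' h he
      rw [qc_eq, qc_eq] at he
      have hk : (k : ℕ) < k' := h
      cases hv : v k'
      · have h1 := up_B v h hv
        rw [hv] at he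
        simp only [Bool.false_eq_true, if_false] at he
        split_ifs at he <;> omega
      · have h1 := up_A v h hv
        rw [hv] at he
        simp only [if_true] at he
        split_ifs at he <;> omega
    intro v k k' h
    rcases lt_trichotomy k k' with h1 | h1 | h1
    · exact absurd h (key v k k' h1)
    · exact h1
    · exact absurd h.symm (key v k' k h1)
  · intro v k
    unfold qc
    congr 1
    apply sum_congr rfl
    intro i _
    by_cases h : i = k
    · subst h
      simp
    · rw [flip_ne v h]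

theorem cube_small {n t : ℕ} (hn : 1 ≤ n) (h1 : n ≤ t) (h2 : 2 * t ≤ n * (n + 1)) :
    t ∈ F (hypercube n) := by
  apply (qex n).mem (fun _ => false) (fun _ => true) ⟨0, by omega⟩ ⟨0, by omega⟩ t h1
  have e1 : qc (fun _ : Fin n => false) ⟨0, by omega⟩ = 0 := by
    unfold qc
    simp
  have e2 : 2 * (qc (fun _ : Fin n => true) ⟨0, by omega⟩ + 1) = n * (n + 1) := by
    have s1 : ∀ i : Fin n, (if (true : Bool) = true then
        (if i < (⟨0, by omega⟩ : Fin n) then ((i : ℕ) : ℤ) else
          if (⟨0, by omega⟩ : Fin n) < i then ((i : ℕ) : ℤ) + 1 else 0) else 0) =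
        (((i : ℕ) : ℤ) + 1) - (if i = ⟨0, by omega⟩ then 1 else 0) := by
      intro i
      rw [if_pos rfl, if_neg (by rw [Fin.lt_def]; simp)]
      by_cases hi : i = ⟨0, by omega⟩
      · subst hi
        simp
      · have : (⟨0, by omega⟩ : Fin n) < i := by
          rw [Fin.lt_def]
          have : (i : ℕ) ≠ 0 := fun h => hi (Fin.ext h)
          show 0 < (i : ℕ)
          omega
        rw [if_pos this, if_neg hi]
        ring
    unfold qc
    rw [sum_congr rfl (fun i _ => s1 i), sum_sub_distrib, sum_ite_eq' univ,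
      Fin.sum_univ_eq_sum_range (fun i : ℕ => (i : ℤ) + 1)]
    have s2 : ∀ m : ℕ, 2 * ∑ i ∈ range m, ((i : ℤ) + 1) = m * (m + 1) := by
      intro m
      induction m with
      | zero => simp
      | succ m ih => rw [sum_range_succ, mul_add, ih]; push_cast; ring
    have := s2 n
    simp only [mem_univ, if_true]
    push_cast
    linarith
  rw [e1]
  have : (2 * (t : ℤ)) ≤ n * (n + 1) := by exact_mod_cast h2
  omega

/-- table driven colouring -/
def enc {n : ℕ} (v : Fin n → Bool) : ℕ := ∑ i : Fin n, if v i then 2 ^ (i : ℕ) else 0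

def st3 : List ℤ := [0, 5, 1, 3, 0, 5, 1, 3]
def tb3 : List (List ℤ) := [[0, 1, 2], [7, 5, 6], [3, 1, 2], [3, 5, 4], [0, 1, 2], [7, 5, 6], [3, 1, 2], [3, 5, 4]]
def st4 : List ℤ := [0, 3, 0, 3, 2, 3, 2, 3, 9, 6, 9, 6, 1, 4, 1, 4]
def tb4 : List (List ℤ) := [[3, 1, 2, 0], [3, 5, 4, 6], [3, 1, 2, 0], [3, 5, 4, 6], [5, 4, 2, 3], [5, 3, 4, 6], [5, 4, 2, 3], [5, 3, 4, 6], [9, 10, 12, 11], [9, 8, 7, 6], [9, 10, 12, 11], [9, 8, 7, 6], [4, 2, 1, 3], [4, 5, 7, 6], [4, 2, 1, 3], [4, 5, 7, 6]]

theorem cube3 : 7 ∈ F (hypercube 3) := by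
  apply mem_of_harc (a := fun v => st3.getD (enc v) 0)
    (c := fun v k => (tb3.getD (enc v) []).getD (k : ℕ) 0)
  refine ⟨by norm_num, by norm_num, ?_, ?_, ?_, ?_, ?_⟩
  · decide +kernel
  · decide +kernel
  · decide +kernel
  · decide +kernel
  · intro z
    have key : ∀ r : Fin 7, ∃ v : Fin 3 → Bool, ∃ k : Fin 3,
        (7 : ℤ) ∣ (tb3.getD (enc v) []).getD (k : ℕ) 0 - ((r : ℕ) : ℤ) := by decide +kernel
    obtain ⟨v, k, h⟩ := key ⟨(z % 7).toNat, by omega⟩
    refine ⟨v, k, ?_⟩
    have e : (((z % 7).toNat : ℕ) : ℤ) = z % 7 := by omega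
    simp only [] at h
    rw [e] at h
    push_cast
    omega

theorem cube4 : 11 ∈ F (hypercube 4) := by
  apply mem_of_harc (a := fun v => st4.getD (enc v) 0)
    (c := fun v k => (tb4.getD (enc v) []).getD (k : ℕ) 0)
  refine ⟨by norm_num, by norm_num, ?_, ?_, ?_, ?_, ?_⟩
  · decide +kernel
  · decide +kernel
  · decide +kernel
  · decide +kernel
  · intro z
    have key : ∀ r : Fin 11, ∃ v : Fin 4 → Bool, ∃ k : Fin 4,
        (11 : ℤ) ∣ (tb4.getD (enc v) []).getD (k : ℕ) 0 - ((r : ℕ) : ℤ) := by decide +kernel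
    obtain ⟨v, k, h⟩ := key ⟨(z % 11).toNat, by omega⟩
    refine ⟨v, k, ?_⟩
    have e : (((z % 11).toNat : ℕ) : ℤ) = z % 11 := by omega
    simp only [] at h
    rw [e] at h
    push_cast
    omega

theorem gapfree_cube (n : ℕ) (hn : 1 ≤ n) : GapFree (F (hypercube n)) := by
  intro a b c ha hc hab hbc
  obtain ⟨a1, c1, S1⟩ := harc_of_mem ha
  obtain ⟨a2, c2, S2⟩ := harc_of_mem hc
  have hna := S1.deg
  by_cases h : 4 * (n - 1) < c
  · obtain ⟨a', c', S', v0, v1, k0, k1, h'⟩ := S2.lift (by omega) h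
    exact S'.mem v0 v1 k0 k1 b (by omega) (by omega)
  · by_cases h2 : 2 * b ≤ n * (n + 1)
    · exact cube_small hn (by omega) h2
    · have h3 : n * (n + 1) < 8 * n - 10 := by omega
      have h4 : n < 8 := by
        by_contra h5
        have : 8 * n ≤ n * (n + 1) := by nlinarith
        omega
      have h5 : 2 * b + 2 ≤ 8 * n - 8 := by omega
      interval_cases n
      · omega
      · omega
      · have : b = 7 := by omega
        rw [this]; exact cube3
      · have : b = 11 := by omega
        rw [this]; exact cube4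
      · omega
      · omega
      · omega

end Pool.Agent.Q132.IC
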