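import Pool.Agent.Q132.IC.KN
import Pool.Agent.Q132.IC.KMN
import Pool.Agent.Q132.IC.Defs

set_option autoImplicit false

namespace Pool.Agent.Q132.IC

theorem sort_ext (p : ℕ) (hp : 0 < p) (T : ℤ) (hT : 0 < T) (a : Fin p → ℤ) :
    ∃ (σ : ℤ → Fin p) (s : ℤ → ℤ), Monotone (fun j => a (σ j) + T * s j) ∧
      (∀ j q, σ (j + p * q) = σ j) ∧ (∀ j q, s (j + p * q) = s j + q) ∧
      (∀ j l, σ j = σ l → (p : ℤ) ∣ j - l) ∧ (∀ x, ∃ j, σ j = x) := by
  classical
  set a0 : Fin p → ℤ := fun x => a x % T with ha0
  set τ := Tuple.sort a0 with hτ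
  have hmono : Monotone (a0 ∘ τ) := Tuple.monotone_sort a0
  have pz : (p : ℤ) ≠ 0 := by omega
  have hix : ∀ j : ℤ, (j % p).toNat < p := by
    intro j
    have h1 := Int.emod_nonneg j pz
    have h2 := Int.emod_lt_of_pos j (show (0 : ℤ) < p by omega)
    omega
  set ix : ℤ → Fin p := fun j => ⟨(j % p).toNat, hix j⟩ with hixd
  have ixv : ∀ j, ((ix j : ℕ) : ℤ) = j % p := by
    intro j
    have h1 := Int.emod_nonneg j pz
    simp only [hixd]
    omega
  have ixper : ∀ j q, ix (j + p * q) = ix j := by
    intro j q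
    apply Fin.ext
    have h1 := ixv (j + p * q)
    have h2 := ixv j
    rw [Int.add_mul_emod_self_left] at h1
    omega
  refine ⟨fun j => τ (ix j), fun j => j / p - a (τ (ix j)) / T, ?_, ?_, ?_, ?_, ?_⟩
  · have e : (fun j => a (τ (ix j)) + T * (j / p - a (τ (ix j)) / T)) =
        fun j => a0 (τ (ix j)) + T * (j / p) := by
      funext j
      have := Int.emod_add_mul_ediv (a (τ (ix j))) T
      simp only [ha0]
      linarith
    show Monotone (fun j => a (τ (ix j)) + T * (j / p - a (τ (ix j)) / T))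
    rw [e]
    intro j l hjl
    show a0 (τ (ix j)) + T * (j / p) ≤ a0 (τ (ix l)) + T * (l / p)
    have hd : j / p ≤ l / p := Int.ediv_le_ediv (by omega) hjl
    have e1 := Int.emod_add_mul_ediv j p
    have e2 := Int.emod_add_mul_ediv l p
    rcases eq_or_lt_of_le hd with h | h
    · rw [h]
      have : ix j ≤ ix l := by
        rw [Fin.le_def]
        have h1 := ixv j
        have h2 := ixv l
        rw [h] at e1
        omega
      have := hmono this
      simp only [Function.comp] at this
      linarith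
    · have h1 : a0 (τ (ix j)) < T := Int.emod_lt_of_pos _ hT
      have h2 : 0 ≤ a0 (τ (ix l)) := Int.emod_nonneg _ (by omega)
      have h3 : j / p + 1 ≤ l / p := h
      nlinarith
  · intro j q
    show τ (ix (j + p * q)) = τ (ix j)
    rw [ixper]
  · intro j q
    show (j + p * q) / p - a (τ (ix (j + p * q))) / T = j / p - a (τ (ix j)) / T + q
    rw [ixper, Int.add_mul_ediv_left _ _ pz]
    ring
  · intro j l h
    have h1 : ix j = ix l := τ.injective h
    have h2 := ixv j
    have h3 := ixv l
    rw [h1] at h2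
    have h4 : j % p = l % p := by omega
    exact Int.modEq_iff_dvd.1 (show l ≡ j [ZMOD p] from h4.symm)
  · intro x
    refine ⟨((τ.symm x : ℕ) : ℤ), ?_⟩
    show τ (ix _) = x
    have : ix ((τ.symm x : ℕ) : ℤ) = τ.symm x := by
      apply Fin.ext
      have h1 := ixv ((τ.symm x : ℕ) : ℤ)
      rw [Int.emod_eq_of_lt (by omega) (by have := (τ.symm x).isLt; omega)] at h1
      omega
    rw [this]
    exact τ.apply_symm_apply x

theorem card_nbr_top (N : ℕ) (v : Fin N) :
    Nat.card ((⊤ : SimpleGraph (Fin N)).neighborSet v) = N - 1 := by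
  classical
  rw [Nat.card_eq_fintype_card, SimpleGraph.card_neighborSet_eq_degree,
    SimpleGraph.complete_graph_degree]
  simp

theorem card_nbr_bip (m n : ℕ) (v : Fin m ⊕ Fin n) :
    Nat.card ((completeBipartiteGraph (Fin m) (Fin n)).neighborSet v) =
      Sum.elim (fun _ => n) (fun _ => m) v := by
  rcases v with i | j
  · have : (completeBipartiteGraph (Fin m) (Fin n)).neighborSet (Sum.inl i) =
        Set.range (Sum.inr : Fin n → Fin m ⊕ Fin n) := by
      ext x
      rcases x with x | x <;> simp [completeBipartiteGraph]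
    rw [this, Nat.card_range_of_injective Sum.inr_injective]
    simp
  · have : (completeBipartiteGraph (Fin m) (Fin n)).neighborSet (Sum.inr j) =
        Set.range (Sum.inl : Fin m → Fin m ⊕ Fin n) := by
      ext x
      rcases x with x | x <;> simp [completeBipartiteGraph]
    rw [this, Nat.card_range_of_injective Sum.inl_injective]
    simp

theorem KN_bound {n : ℕ} (hn : 2 ≤ n) {t : ℕ} (ht : t ∈ F (⊤ : SimpleGraph (Fin (2 * n)))) :
    t + 4 ≤ 4 * n ∨ (t + 3 = 4 * n ∧ 3 ∣ n) := by
  obtain ⟨a, c, S⟩ := arc_of_mem (D := fun _ => 2 * n - 1) (card_nbr_top (2 * n)) ht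
  by_cases hlt : t + 4 ≤ 4 * n
  · exact Or.inl hlt
  right
  obtain ⟨σ, s, h1, h2, h3, h4, h5⟩ := sort_ext (2 * n) (by omega) t (by have := S.pos; omega) a
  have adj : ∀ j l, ¬ ((2 * n : ℕ) : ℤ) ∣ l - j → (⊤ : SimpleGraph (Fin (2 * n))).Adj (σ j) (σ l) := by
    intro j l h
    rw [SimpleGraph.top_adj]
    intro he
    exact h (h4 l j he.symm)
  have Q : Seq ((2 * n : ℕ) : ℤ) t (fun j => a (σ j) + t * s j)
      (fun j l => c (σ j) (σ l) + t * s j) := by
    constructor
    · exact h1
    · intro j q
      simp only [h2, h3]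
      ring
    · intro j l h
      have := S.lo _ _ (adj j l h)
      omega
    · intro j l h
      have := S.hi _ _ (adj j l h)
      push_cast at *
      omega
    · intro j l q
      simp only [h2, h3]
      ring
    · intro j l q
      simp only [h2]
    · intro j l h
      have := S.sym _ _ (adj j l h)
      have e : c (σ j) (σ l) + t * s j - (c (σ l) (σ j) + t * s l) =
        (c (σ j) (σ l) - c (σ l) (σ j)) + t * (s j - s l) := by ring
      show (t : ℤ) ∣ c (σ j) (σ l) + t * s j - (c (σ l) (σ j) + t * s l)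
      rw [e]
      exact dvd_add this (Dvd.intro _ rfl)
    · intro j l l' h h' he
      have := S.inj _ _ _ (adj j l h) (adj j l' h') (by simpa using he)
      exact h4 _ _ this
    · intro z
      obtain ⟨x, y, h6, h7⟩ := S.surj z
      obtain ⟨j, rfl⟩ := h5 x
      obtain ⟨l, rfl⟩ := h5 y
      refine ⟨j, l, ?_, ?_⟩
      · rintro ⟨q, hq⟩
        have := h2 j q
        rw [← hq, add_sub_cancel] at this
        rw [this] at h6
        exact h6.ne rfl
      · have e : c (σ j) (σ l) + t * s j - z = (c (σ j) (σ l) - z) + t * s j := by ring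
        show (t : ℤ) ∣ c (σ j) (σ l) + t * s j - z
        rw [e]
        exact dvd_add h7 (Dvd.intro _ rfl)
  obtain ⟨e1, e2⟩ := Q.bound (by push_cast; omega) (by push_cast; omega) (n := n) (by push_cast; rfl)
  push_cast at e1
  refine ⟨by omega, by exact_mod_cast e2⟩

theorem KMN_bound {m n : ℕ} (hm : 1 ≤ m) (hn : 1 ≤ n) {t : ℕ}
    (ht : t ∈ F (completeBipartiteGraph (Fin m) (Fin n))) : t ≤ m + n := by
  obtain ⟨a, c, S⟩ := arc_of_mem (card_nbr_bip m n) ht
  obtain ⟨σ, s, h1, h2, h3, h4, h5⟩ := sort_ext m (by omega) t (by have := S.pos; omega)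
    (fun i => a (Sum.inl i))
  obtain ⟨σ', s', h1', h2', h3', h4', h5'⟩ := sort_ext n (by omega) t (by have := S.pos; omega)
    (fun i => a (Sum.inr i))
  have adj : ∀ i j, (completeBipartiteGraph (Fin m) (Fin n)).Adj (Sum.inl i) (Sum.inr j) := by
    intro i j
    simp [completeBipartiteGraph]
  have Q : BSeq (m : ℤ) (n : ℤ) t (fun i => a (Sum.inl (σ i)) + t * s i)
      (fun j => a (Sum.inr (σ' j)) + t * s' j)
      (fun i j => c (Sum.inl (σ i)) (Sum.inr (σ' j)) + t * s i)
      (fun j i => c (Sum.inr (σ' j)) (Sum.inl (σ i)) + t * s' j) := by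
    constructor
    · exact h1
    · exact h1'
    · intro j q
      simp only [h2, h3]
      ring
    · intro j q
      simp only [h2', h3']
      ring
    · intro i j
      have := S.lo _ _ (adj (σ i) (σ' j))
      omega
    · intro i j
      have := S.hi _ _ (adj (σ i) (σ' j))
      simp only [Sum.elim_inl] at this
      omega
    · intro j i
      have := S.lo _ _ (adj (σ i) (σ' j)).symm
      omega
    · intro j i
      have := S.hi _ _ (adj (σ i) (σ' j)).symm
      simp only [Sum.elim_inr] at this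
      omega
    · intro i j q
      simp only [h2, h3]
      ring
    · intro i j q
      simp only [h2']
    · intro i j q
      simp only [h2', h3']
      ring
    · intro i j q
      simp only [h2]
    · intro i j
      have := S.sym _ _ (adj (σ i) (σ' j))
      have e : c (Sum.inl (σ i)) (Sum.inr (σ' j)) + t * s i -
        (c (Sum.inr (σ' j)) (Sum.inl (σ i)) + t * s' j) =
        (c (Sum.inl (σ i)) (Sum.inr (σ' j)) - c (Sum.inr (σ' j)) (Sum.inl (σ i))) +
          t * (s i - s' j) := by ring
      show (t : ℤ) ∣ c (Sum.inl (σ i)) (Sum.inr (σ' j)) + t * s i -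
        (c (Sum.inr (σ' j)) (Sum.inl (σ i)) + t * s' j)
      rw [e]
      exact dvd_add this (Dvd.intro _ rfl)
    · intro i j j' he
      have := S.inj _ _ _ (adj (σ i) (σ' j)) (adj (σ i) (σ' j')) (by simpa using he)
      exact h4' _ _ (Sum.inr_injective this)
    · intro j i i' he
      have := S.inj _ _ _ (adj (σ i) (σ' j)).symm (adj (σ i') (σ' j)).symm (by simpa using he)
      exact h4 _ _ (Sum.inl_injective this)
    · intro z
      obtain ⟨x, y, h6, h7⟩ := S.surj z
      rcases x with x | x <;> rcases y with y | y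
      · simp [completeBipartiteGraph] at h6
      · obtain ⟨i, rfl⟩ := h5 x
        obtain ⟨j, rfl⟩ := h5' y
        refine ⟨i, j, ?_⟩
        have e : c (Sum.inl (σ i)) (Sum.inr (σ' j)) + t * s i - z =
          (c (Sum.inl (σ i)) (Sum.inr (σ' j)) - z) + t * s i := by ring
        show (t : ℤ) ∣ c (Sum.inl (σ i)) (Sum.inr (σ' j)) + t * s i - z
        rw [e]
        exact dvd_add h7 (Dvd.intro _ rfl)
      · obtain ⟨i, rfl⟩ := h5 y
        obtain ⟨j, rfl⟩ := h5' x
        refine ⟨i, j, ?_⟩
        have e : c (Sum.inl (σ i)) (Sum.inr (σ' j)) + t * s i - z =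
          (c (Sum.inl (σ i)) (Sum.inr (σ' j)) - c (Sum.inr (σ' j)) (Sum.inl (σ i))) +
          ((c (Sum.inr (σ' j)) (Sum.inl (σ i)) - z) + t * s i) := by ring
        show (t : ℤ) ∣ c (Sum.inl (σ i)) (Sum.inr (σ' j)) + t * s i - z
        rw [e]
        exact dvd_add (S.sym _ _ (adj (σ i) (σ' j))) (dvd_add h7 (Dvd.intro _ rfl))
      · simp [completeBipartiteGraph] at h6
  have := Q.bound (by omega) (by omega)
  omega

end Pool.Agent.Q132.IC
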